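import Pool.Agent.Lib.MP_d4663a_an.Spec

/-!
# MP_d4663a_an, module UFUN (helper42): the continuous potential
-/

set_option autoImplicit false

namespace MPd4663a

open MeasureTheory Set Filter Metric
open scoped ENNReal NNReal Topology

namespace UFun

/-- The properties of `dd` which make it an extended pseudometric. -/
def DDProp {n : ℕ} (E : Set (Eu n)) (w : Eu n → ℝ≥0∞) : Prop :=
  (∀ x, dd E w x x = 0) ∧ (∀ x y, dd E w x y = dd E w y x) ∧
    ∀ x y z, dd E w x z ≤ dd E w x y + dd E w y z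

/-- Euclidean space with the distance `dd`. -/
def XX {n : ℕ} {E : Set (Eu n)} {w : Eu n → ℝ≥0∞} (_ : DDProp E w) : Type := Eu n

/-- The extended pseudometric `dd`. -/
noncomputable instance {n : ℕ} {E : Set (Eu n)} {w : Eu n → ℝ≥0∞} (h : DDProp E w) :
    PseudoEMetricSpace (XX h) where
  edist x y := dd E w x y
  edist_self x := h.1 x
  edist_comm x y := h.2.1 x y
  edist_triangle x y z := h.2.2 x y z

/-- The identity map to Euclidean space. -/
def io {n : ℕ} {E : Set (Eu n)} {w : Eu n → ℝ≥0∞} (h : DDProp E w) (x : XX h) : Eu n := x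

/-- The identity map from Euclidean space. -/
def oi {n : ℕ} {E : Set (Eu n)} {w : Eu n → ℝ≥0∞} (h : DDProp E w) (x : Eu n) : XX h := x

section

variable {n : ℕ} {E : Set (Eu n)} {w : Eu n → ℝ≥0∞} (h : DDProp E w)

theorem edist_def (x y : XX h) : edist x y = dd E w (io h x) (io h y) := rfl

theorem tendsto_iff (x : ℕ → XX h) (z : XX h) :
    Tendsto x atTop (𝓝 z) ↔ Tendsto (fun k => dd E w (io h (x k)) (io h z)) atTop (𝓝 0) := by
  rw [tendsto_iff_edist_tendsto_0]
  rfl

theorem complete (hC : SpecComplete) (hw : Measurable w) {c0 : ℝ≥0} (hc0 : 0 < c0)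
    (hcw : ∀ x, (c0 : ℝ≥0∞) ≤ w x) : CompleteSpace (XX h) := by
  apply EMetric.complete_of_convergent_controlled_sequences (fun k => (1 / 2 : ℝ≥0∞) ^ k)
  · intro k
    apply ENNReal.pow_pos
    norm_num
  · intro x hx
    obtain ⟨z, hz⟩ := hC n E w c0 hw hc0 hcw (fun k => io h (x k))
      (fun k => hx k k (k + 1) le_rfl (Nat.le_succ k))
    exact ⟨oi h z, (tendsto_iff h x (oi h z)).2 hz⟩

theorem compact_of_seq (Y : Set (Eu n)) (hY : ∀ x : ℕ → Eu n, (∀ m, x m ∈ Y) → ∃ z ∈ Y,
    ∃ φ : ℕ → ℕ, StrictMono φ ∧ Tendsto (fun m => dd E w (x (φ m)) z) atTop (𝓝 0)) :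
    IsCompact ({x : XX h | io h x ∈ Y}) := by
  apply IsSeqCompact.isCompact
  intro x hx
  obtain ⟨z, hz, φ, hφ, hlim⟩ := hY (fun m => io h (x m)) hx
  exact ⟨oi h z, hz, φ, hφ, (tendsto_iff h _ (oi h z)).2 hlim⟩

end

theorem good_reverse {n : ℕ} {E : Set (Eu n)} {T : ℝ} {σ : ℝ → Eu n} (h : Good E T σ) :
    Good E T (fun t => σ (T - t)) := by
  obtain ⟨h1, h2, h3⟩ := h
  refine ⟨h1, ?_, ?_⟩
  · intro x y
    have := h2 (T - x) (T - y)
    simpa [edist_sub_left] using this
  · apply h3.mono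
    apply inter_subset_inter_left
    rintro _ ⟨t, ht, rfl⟩
    exact ⟨T - t, ⟨by linarith [ht.2], by linarith [ht.1]⟩, rfl⟩

theorem cost_reverse {n : ℕ} (v : Eu n → ℝ≥0∞) (T : ℝ) (σ : ℝ → Eu n) :
    cost v T (fun t => σ (T - t)) = cost v T σ := by
  unfold cost
  have h1 := (Measure.measurePreserving_sub_left (volume : Measure ℝ) T).setLIntegral_comp_preimage_emb
    (MeasurableEquiv.subLeft T).measurableEmbedding (fun t => v (σ t)) (Icc 0 T)
  rw [← h1]
  congr 2
  ext t
  simp only [mem_preimage, mem_Icc]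
  constructor
  · rintro ⟨h2, h3⟩; exact ⟨by linarith, by linarith⟩
  · rintro ⟨h2, h3⟩; exact ⟨by linarith, by linarith⟩

end UFun

open UFun in
theorem specU (hMet : SpecMetric) (hCom : SpecComplete) (hBlock : SpecBlock) (hDich : SpecDich) :
    SpecU := by
  intro n hn E R0 w c0 c τ F₁ F₂ hE hE0 hw hc0 hcw hwout hwint hτ hF₁ hF₂ hc hc1 hdist
  obtain ⟨m1, m2, m3, m4⟩ := hMet n E w hw
  have hDD : DDProp E w := ⟨m1, m2, m3⟩
  have hcomp : CompleteSpace (XX hDD) := complete hDD hCom hw hc0 hcw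
  obtain ⟨v, Y, Λ, hv, hwv, hnrm, hYmono, hΛ, hYc, hpath⟩ :=
    hBlock n hn E R0 w c0 c τ hE hE0 hw hc0 hcw hwout hwint hτ
  let R : XX hDD → XX hDD → ℝ≥0 → Prop := fun x y m =>
    ∃ (T : ℝ) (σ : ℝ → Eu n), Good E T σ ∧ σ 0 = io hDD x ∧ σ T = io hDD y ∧ cost v T σ = m
  have hR0 : ∀ x, R x x 0 := by
    intro x
    refine ⟨0, fun _ => io hDD x, ⟨le_rfl, LipschitzWith.const _ |>.weaken (by simp), ?_⟩, rfl,
      rfl, ?_⟩
    · apply Set.Countable.mono inter_subset_left
      exact ((Set.countable_singleton (0 : ℝ)).mono (by simp)).image _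
    · unfold cost
      simp
  have hR1 : ∀ x y m, R x y m → edist x y ≤ m := by
    rintro x y m ⟨T, σ, hg, h0, hT, hm⟩
    rw [edist_def, ← hm]
    refine (iInf₂_le T σ).trans ((iInf_le _ ⟨hg, h0, hT⟩).trans ?_)
    unfold cost
    exact lintegral_mono fun t => hwv _
  have hR2 : ∀ x y m, R x y m → m ≤ c →
      ∀ i, (x ∈ {x : XX hDD | io hDD x ∈ Y i} ∧ y ∈ {x : XX hDD | io hDD x ∈ Y i}) ∨
        Λ i * dist (io hDD x) (io hDD y) ≤ m := by
    rintro x y m ⟨T, σ, hg, h0, hT, hm⟩ hmc i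
    have h1 := hpath T σ hg (by rw [hm]; exact_mod_cast hmc) i
    rw [h0, hT, hm] at h1
    rcases h1 with h1 | h1
    · exact Or.inl h1
    · right
      rw [edist_nndist] at h1
      rw [← ENNReal.coe_mul, ENNReal.coe_le_coe] at h1
      exact_mod_cast h1
  have hLip : LipschitzWith c0⁻¹ (io hDD) := by
    intro x y
    rw [edist_def]
    have h1 := m4 c0 hcw (io hDD x) (io hDD y)
    rw [ENNReal.coe_inv hc0.ne']
    calc edist (io hDD x) (io hDD y) = (c0 : ℝ≥0∞)⁻¹ * (c0 * edist (io hDD x) (io hDD y)) := by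
          rw [← mul_assoc, ENNReal.inv_mul_cancel (by exact_mod_cast hc0.ne') ENNReal.coe_ne_top,
            one_mul]
      _ ≤ _ := mul_le_mul_right h1 _
  have him : ∀ F : Set (Eu n), io hDD '' {x : XX hDD | io hDD x ∈ F} = F := by
    intro F
    ext z
    constructor
    · rintro ⟨x, hx, rfl⟩; exact hx
    · intro hz; exact ⟨oi hDD z, hz, rfl⟩
  obtain ⟨ω, hω0, hωp, hωm, hωt, -, hreach⟩ := hDich (XX hDD) (Eu n) (io hDD) c0⁻¹
    (fun x y hxy => hxy) hLip
    (fun i => {x : XX hDD | io hDD x ∈ Y i})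
    (fun i => compact_of_seq hDD (Y i) (hYc i)) (fun i j hij x hx => hYmono hij hx) Λ hΛ
    {x : XX hDD | io hDD x ∈ F₁} {x : XX hDD | io hDD x ∈ F₂}
    (by rw [him]; exact hF₁) (by rw [him]; exact hF₂) c 1 hc hc1
    (fun x hx y hy => by rw [edist_def]; exact_mod_cast hdist _ hx _ hy) R hR0 hR1 hR2
  -- the potential
  let P : Eu n → Set ℝ := fun x =>
    insert (c : ℝ) {t | Reach (io hDD) {x : XX hDD | io hDD x ∈ F₁} R ω (oi hDD x) t}
  have hpos : ∀ x t, Reach (io hDD) {x : XX hDD | io hDD x ∈ F₁} R ω x t → 0 ≤ t := by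
    intro x t ht
    induction ht with
    | base x hx => exact le_rfl
    | step x y t m h hR ih => exact add_nonneg ih m.2
    | jump x y t h ih => exact add_nonneg ih (hωp _)
  have hPpos : ∀ x, ∀ t ∈ P x, 0 ≤ t := by
    rintro x t (rfl | ht)
    · exact c.2
    · exact hpos _ _ ht
  have hPbdd : ∀ x, BddBelow (P x) := fun x => ⟨0, fun t ht => hPpos x t ht⟩
  have hPne : ∀ x, (P x).Nonempty := fun x => ⟨c, mem_insert _ _⟩
  let u : Eu n → ℝ := fun x => sInf (P x)
  have hu0 : ∀ x, 0 ≤ u x := fun x => le_csInf (hPne x) (hPpos x)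
  have huc : ∀ x, u x ≤ c := fun x => csInf_le (hPbdd x) (mem_insert _ _)
  -- general comparison
  have hcmp : ∀ (x y : Eu n) (s : ℝ), 0 ≤ s →
      (∀ t, Reach (io hDD) {x : XX hDD | io hDD x ∈ F₁} R ω (oi hDD x) t →
        Reach (io hDD) {x : XX hDD | io hDD x ∈ F₁} R ω (oi hDD y) (t + s)) → u y ≤ u x + s := by
    intro x y s hs hxy
    have h1 : u y - s ≤ u x := by
      apply le_csInf (hPne x)
      rintro t (rfl | ht)
      · have := huc y; linarith
      · have := csInf_le (hPbdd y) (mem_insert_of_mem _ (hxy t ht))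
        have h2 : u y ≤ t + s := this
        linarith
    linarith
  have hjump : ∀ x y, u y ≤ u x + ω (dist x y) := by
    intro x y
    exact hcmp x y _ (hωp _) (fun t ht => Reach.jump _ _ t ht)
  have hpathu : ∀ (T : ℝ) (σ : ℝ → Eu n), Good E T σ → cost v T σ ≠ ∞ →
      u (σ T) ≤ u (σ 0) + (cost v T σ).toReal := by
    intro T σ hg hfin
    apply hcmp _ _ _ ENNReal.toReal_nonneg
    intro t ht
    exact Reach.step _ _ t (cost v T σ).toNNReal ht
      ⟨T, σ, hg, rfl, rfl, (ENNReal.coe_toNNReal hfin).symm⟩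
  refine ⟨v, u, hv, hnrm, ?_, ?_, ?_, ?_, ?_⟩
  · rw [continuous_iff_continuousAt]
    intro x
    rw [ContinuousAt, tendsto_iff_dist_tendsto_zero]
    have h1 : ∀ y, dist (u y) (u x) ≤ ω (dist y x) := by
      intro y
      rw [Real.dist_eq, abs_le]
      have h2 := hjump x y
      have h3 := hjump y x
      rw [dist_comm] at h2
      constructor <;> linarith
    have h2 : Tendsto (fun y => ω (dist y x)) (𝓝 x) (𝓝 0) := by
      have h3 : Tendsto (fun y => dist y x) (𝓝 x) (𝓝 0) := by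
        have := (continuous_id.dist (continuous_const (y := x))).tendsto x
        simpa using this
      exact hωt.comp h3
    exact squeeze_zero (fun _ => dist_nonneg) h1 h2
  · intro x; exact ⟨hu0 x, huc x⟩
  · intro x hx
    apply le_antisymm _ (hu0 x)
    exact csInf_le (hPbdd x) (mem_insert_of_mem _ (Reach.base _ hx))
  · intro x hx
    apply le_antisymm (huc x)
    apply le_csInf (hPne x)
    rintro t (rfl | ht)
    · exact le_rfl
    · exact hreach (oi hDD x) hx t ht
  · intro T σ hg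
    by_cases hfin : cost v T σ = ∞
    · rw [hfin]; exact le_top
    · have h1 := hpathu T σ hg hfin
      have h2 := hpathu T (fun t => σ (T - t)) (good_reverse hg) (by rw [cost_reverse]; exact hfin)
      rw [cost_reverse] at h2
      simp only [sub_self, sub_zero] at h2
      rw [← ENNReal.ofReal_toReal hfin]
      apply ENNReal.ofReal_le_ofReal
      rw [abs_le]
      constructor <;> linarith

end MPd4663a
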