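import Pool.Agent.Lib.MP_d4663a_an.Nrm
import Pool.Agent.Lib.MP_d4663a_an.UFun

/-!
# MP_d4663a_an, module BLOCK: the improved weight
-/

namespace MPd4663a

namespace BlockAux

open MeasureTheory Set Filter Metric Nrm UFun
open scoped ENNReal NNReal Topology

variable {n : ℕ}

/-- The scales. -/
noncomputable def ek (k : ℕ) : ℝ≥0∞ := (1 / 2) ^ k

lemma ek_ne_zero (k : ℕ) : ek k ≠ 0 := by
  unfold ek
  apply pow_ne_zero
  norm_num

lemma ek_ne_top (k : ℕ) : ek k ≠ ∞ := by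
  unfold ek
  exact ENNReal.pow_ne_top (by norm_num)

lemma ek_le_one (k : ℕ) : ek k ≤ 1 := by
  unfold ek
  exact pow_le_one' (by norm_num) k

lemma two_ek_tendsto : Tendsto (fun k => 2 * ek k) atTop (𝓝 0) := by
  have h1 : Tendsto ek atTop (𝓝 0) := by
    unfold ek
    exact ENNReal.tendsto_pow_atTop_nhds_zero_of_lt_one (by norm_num)
  simpa using ENNReal.Tendsto.const_mul h1 (Or.inr (by norm_num : (2 : ℝ≥0∞) ≠ ∞))

/-- The multipliers. -/
noncomputable def MM (c : ℝ≥0) (i : ℕ) : ℝ≥0 := ((i : ℝ≥0) + 1) * (c + 1)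

lemma lt_MM (c : ℝ≥0) (i : ℕ) : c < MM c i := by
  unfold MM
  have h1 : c < c + 1 := lt_add_one c
  have h2 : (1 : ℝ≥0) * (c + 1) ≤ ((i : ℝ≥0) + 1) * (c + 1) := by
    gcongr
    exact le_add_of_nonneg_left (by positivity)
  rw [one_mul] at h2
  exact lt_of_lt_of_le h1 h2

lemma tendsto_MM (c : ℝ≥0) {c0 : ℝ≥0} (hc0 : 0 < c0) :
    Tendsto (fun i => MM c i * c0) atTop atTop := by
  have h1 : Tendsto (fun i : ℕ => (i : ℝ≥0)) atTop atTop := tendsto_natCast_atTop_atTop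
  have h2 : Tendsto (fun i : ℕ => (i : ℝ≥0) * ((c + 1) * c0)) atTop atTop :=
    h1.atTop_mul_const (by positivity)
  refine tendsto_atTop_mono (fun i => ?_) h2
  unfold MM
  rw [mul_assoc]
  gcongr
  exact le_self_add

/-- One bad set. -/
lemma exists_W (hn : 1 ≤ n) (hNet : SpecNet) {E : Set (Eu n)} {R0 : ℝ} {w : Eu n → ℝ≥0∞}
    (hE : IsClosed E) (hE0 : volume E = 0) (hw : Measurable w)
    (hint : ∫⁻ x in closedBall 0 R0, w x ^ n ≠ ∞) (k : ℕ) (a τ' : ℝ≥0∞) (ha : a ≠ ∞)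
    (hτ' : τ' ≠ 0) :
    ∃ (A : Finset (Eu n)) (W : Set (Eu n)), MeasurableSet W ∧
      nrm ((closedBall (0 : Eu n) R0).indicator (W.indicator fun x => a * w x)) ≤ τ' ∧
      ∀ z ∈ closedBall (0 : Eu n) R0, z ∉ W → ∃ b ∈ A, dd E w z b < ek k := by
  have hn0 : (0 : ℝ) < n := by exact_mod_cast (by omega : 0 < n)
  have hq : τ' / a ≠ 0 := ENNReal.div_ne_zero.2 ⟨hτ', ha⟩
  obtain ⟨δ, hδ, hδ'⟩ := exists_pos_setLIntegral_lt_of_measure_lt hint
    (ε := (τ' / a) ^ n) (pow_ne_zero n hq)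
  obtain ⟨δ', hδ1, hδ2⟩ := exists_between hδ
  obtain ⟨A, W, hW, hWvol, hcov⟩ := hNet n hn E R0 w hE hE0 hw hint (ek k) δ' (ek_ne_zero k)
    hδ1.ne'
  refine ⟨A, W, hW, ?_, hcov⟩
  have h1 : ∫⁻ x in W, w x ^ n ∂(volume.restrict (closedBall (0 : Eu n) R0)) < (τ' / a) ^ n := by
    refine hδ' W (lt_of_le_of_lt ?_ hδ2)
    exact (Measure.restrict_apply_le _ _).trans hWvol
  have h2 : (closedBall (0 : Eu n) R0).indicator (W.indicator fun x => a * w x)
      = fun x => a * ((closedBall (0 : Eu n) R0).indicator (W.indicator w) x) := by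
    funext x
    by_cases hx : x ∈ closedBall (0 : Eu n) R0 <;> by_cases hx' : x ∈ W <;>
      simp [indicator, hx, hx']
  have hm : Measurable ((closedBall (0 : Eu n) R0).indicator (W.indicator w)) :=
    (hw.indicator hW).indicator isClosed_closedBall.measurableSet
  rw [h2, nrm_const_mul hn a hm]
  have h3 : nrm ((closedBall (0 : Eu n) R0).indicator (W.indicator w)) ≤ τ' / a := by
    unfold nrm
    have h4 : ∫⁻ x, ((closedBall (0 : Eu n) R0).indicator (W.indicator w) x) ^ n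
        = ∫⁻ x in W, w x ^ n ∂(volume.restrict (closedBall (0 : Eu n) R0)) := by
      rw [← lintegral_indicator hW, ← lintegral_indicator isClosed_closedBall.measurableSet]
      refine lintegral_congr fun x => ?_
      by_cases hx : x ∈ closedBall (0 : Eu n) R0 <;> by_cases hx' : x ∈ W <;>
        simp [indicator, hx, hx'] <;> simp_all <;> omega
    rw [h4]
    calc (∫⁻ x in W, w x ^ n ∂(volume.restrict (closedBall (0 : Eu n) R0))) ^ ((n : ℝ)⁻¹)
        ≤ ((τ' / a) ^ n) ^ ((n : ℝ)⁻¹) := ENNReal.rpow_le_rpow h1.le (by positivity)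
      _ = τ' / a := by
        rw [← ENNReal.rpow_natCast, ← ENNReal.rpow_mul, mul_inv_cancel₀ hn0.ne',
          ENNReal.rpow_one]
  calc a * nrm ((closedBall (0 : Eu n) R0).indicator (W.indicator w)) ≤ a * (τ' / a) := by gcongr
    _ ≤ τ' := ENNReal.mul_div_le

/-- The `dd`-compact sets. -/
def YY (E : Set (Eu n)) (w : Eu n → ℝ≥0∞) (R0 : ℝ) (A : ℕ → ℕ → Finset (Eu n)) (i : ℕ) :
    Set (Eu n) :=
  {z | z ∈ closedBall (0 : Eu n) R0 ∧ ∀ k, ∃ i' ≤ i, ∃ a ∈ A i' k, dd E w z a ≤ 2 * ek k}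

lemma YY_mono (E : Set (Eu n)) (w : Eu n → ℝ≥0∞) (R0 : ℝ) (A : ℕ → ℕ → Finset (Eu n)) :
    Monotone (YY E w R0 A) := by
  intro i j hij z hz
  refine ⟨hz.1, fun k => ?_⟩
  obtain ⟨i', hi', a, ha, h⟩ := hz.2 k
  exact ⟨i', hi'.trans hij, a, ha, h⟩

lemma YY_compact (hMet : SpecMetric) (hCom : SpecComplete) {E : Set (Eu n)} {R0 : ℝ}
    {w : Eu n → ℝ≥0∞} {c0 : ℝ≥0} (hw : Measurable w) (hc0 : 0 < c0)
    (hcw : ∀ x, (c0 : ℝ≥0∞) ≤ w x) (A : ℕ → ℕ → Finset (Eu n)) (i : ℕ) :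
    ∀ x : ℕ → Eu n, (∀ m, x m ∈ YY E w R0 A i) → ∃ z ∈ YY E w R0 A i, ∃ φ : ℕ → ℕ,
      StrictMono φ ∧ Tendsto (fun m => dd E w (x (φ m)) z) atTop (𝓝 0) := by
  obtain ⟨m1, m2, m3, m4⟩ := hMet n E w hw
  have hDD : DDProp E w := ⟨m1, m2, m3⟩
  have hcomp : CompleteSpace (XX hDD) := complete hDD hCom hw hc0 hcw
  have hLip : LipschitzWith c0⁻¹ (io hDD) := by
    intro x y
    rw [edist_def]
    have h1 := m4 c0 hcw (io hDD x) (io hDD y)
    rw [ENNReal.coe_inv hc0.ne']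
    calc edist (io hDD x) (io hDD y) = (c0 : ℝ≥0∞)⁻¹ * (c0 * edist (io hDD x) (io hDD y)) := by
          rw [← mul_assoc, ENNReal.inv_mul_cancel (by exact_mod_cast hc0.ne') ENNReal.coe_ne_top,
            one_mul]
      _ ≤ _ := by gcongr
  let S : Set (XX hDD) := {x | io hDD x ∈ YY E w R0 A i}
  have hS : S = (io hDD ⁻¹' closedBall (0 : Eu n) R0) ∩
      ⋂ k, ⋃ p ∈ (Finset.range (i + 1)).sigma (fun i' => A i' k),
        closedEBall (oi hDD p.2) (2 * ek k) := by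
    ext x
    simp only [S, YY, mem_inter_iff, mem_preimage, mem_iInter, mem_iUnion]
    constructor
    · rintro ⟨h1, h2⟩
      refine ⟨h1, fun k => ?_⟩
      obtain ⟨i', hi', a, ha, h⟩ := h2 k
      exact ⟨⟨i', a⟩, Finset.mem_sigma.2 ⟨Finset.mem_range.2 (by simpa using by omega), ha⟩, h⟩
    · rintro ⟨h1, h2⟩
      refine ⟨h1, fun k => ?_⟩
      obtain ⟨p, hp, h⟩ := h2 k
      rw [Finset.mem_sigma, Finset.mem_range] at hp
      exact ⟨p.1, by omega, p.2, hp.2, h⟩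
  have hcl : IsClosed S := by
    rw [hS]
    refine (isClosed_closedBall.preimage hLip.continuous).inter (isClosed_iInter fun k => ?_)
    exact ((Finset.range (i + 1)).sigma (fun i' => A i' k)).finite_toSet.isClosed_biUnion
      fun p _ => isClosed_closedEBall
  have htb : TotallyBounded S := by
    rw [EMetric.totallyBounded_iff]
    intro ε hε
    obtain ⟨k, hk⟩ := (two_ek_tendsto.eventually (gt_mem_nhds hε)).exists
    refine ⟨(fun p : Σ _ : ℕ, Eu n => oi hDD p.2) '' (((Finset.range (i + 1)).sigma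
      (fun i' => A i' k) : Finset (Σ _ : ℕ, Eu n)) : Set (Σ _ : ℕ, Eu n)),
      (Finset.finite_toSet _).image _, ?_⟩
    intro x hx
    rw [hS] at hx
    have h1 := mem_iInter.1 hx.2 k
    simp only [mem_iUnion] at h1
    obtain ⟨p, hp, h⟩ := h1
    refine mem_iUnion₂.2 ⟨oi hDD p.2, ⟨p, hp, rfl⟩, ?_⟩
    exact lt_of_le_of_lt h hk
  have hK : IsCompact S := isCompact_iff_totallyBounded_isComplete.2 ⟨htb, hcl.isComplete⟩
  intro x hx
  obtain ⟨z, hz, φ, hφ, hlim⟩ := hK.isSeqCompact (x := fun m => oi hDD (x m)) hx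
  exact ⟨io hDD z, hz, φ, hφ, (tendsto_iff hDD _ z).1 hlim⟩

lemma Good.restrict {E : Set (Eu n)} {T : ℝ} {σ : ℝ → Eu n} (h : Good E T σ) {t : ℝ}
    (ht : t ∈ Icc 0 T) : Good E t σ := by
  refine ⟨ht.1, h.2.1, h.2.2.mono ?_⟩
  exact inter_subset_inter_left _ (image_mono (Icc_subset_Icc_right ht.2))

lemma dd_le_cost {E : Set (Eu n)} {w : Eu n → ℝ≥0∞} {T : ℝ} {σ : ℝ → Eu n} (h : Good E T σ) :
    dd E w (σ 0) (σ T) ≤ cost w T σ :=
  (iInf₂_le T σ).trans (iInf_le _ ⟨h, rfl, rfl⟩)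

/-- A path which leaves the ball has infinite cost. -/
lemma in_ball {R0 : ℝ} {v : Eu n → ℝ≥0∞} {T : ℝ} {σ : ℝ → Eu n}
    (hT : 0 < T) (hσ : Continuous σ) (hv : ∀ x, x ∉ closedBall (0 : Eu n) R0 → v x = ∞)
    (hcost : cost v T σ ≠ ∞) : ∀ t ∈ Icc 0 T, σ t ∈ closedBall (0 : Eu n) R0 := by
  intro t ht
  by_contra hcon
  have hU : IsOpen (σ ⁻¹' (closedBall (0 : Eu n) R0)ᶜ) :=
    isClosed_closedBall.isOpen_compl.preimage hσ
  have h1 : t ∈ closure (Ioo 0 T) := by rw [closure_Ioo hT.ne]; exact ht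
  have h2 := mem_closure_iff.1 h1 _ hU hcon
  have h3 : 0 < volume (σ ⁻¹' (closedBall (0 : Eu n) R0)ᶜ ∩ Ioo 0 T) :=
    (hU.inter isOpen_Ioo).measure_pos volume h2
  apply hcost
  rw [← top_le_iff]
  have hmeas : MeasurableSet (σ ⁻¹' (closedBall (0 : Eu n) R0)ᶜ ∩ Ioo 0 T) :=
    (hU.inter isOpen_Ioo).measurableSet
  calc (∞ : ℝ≥0∞) = ∞ * volume (σ ⁻¹' (closedBall (0 : Eu n) R0)ᶜ ∩ Ioo 0 T) := by
        rw [ENNReal.top_mul h3.ne']
    _ = ∫⁻ s in σ ⁻¹' (closedBall (0 : Eu n) R0)ᶜ ∩ Ioo 0 T, ∞ := by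
        rw [setLIntegral_const]
    _ = ∫⁻ s in σ ⁻¹' (closedBall (0 : Eu n) R0)ᶜ ∩ Ioo 0 T, v (σ s) :=
        setLIntegral_congr_fun hmeas fun s hs => (hv _ hs.1).symm
    _ ≤ cost v T σ := lintegral_mono_set (inter_subset_right.trans Ioo_subset_Icc_self)

/-- One-sided dichotomy. -/
lemma one_side (hMet : SpecMetric) {E : Set (Eu n)} {R0 : ℝ} {w v : Eu n → ℝ≥0∞}
    {c0 c : ℝ≥0} (hw : Measurable w) (hcw : ∀ x, (c0 : ℝ≥0∞) ≤ w x)
    (hout : ∀ x, x ∉ closedBall (0 : Eu n) R0 → w x = ∞)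
    (hwv : ∀ x, w x ≤ v x) (A : ℕ → ℕ → Finset (Eu n)) (W : ℕ → ℕ → Set (Eu n))
    (hcov : ∀ i k, ∀ z ∈ closedBall (0 : Eu n) R0, z ∉ W i k → ∃ b ∈ A i k, dd E w z b < ek k)
    (hvW : ∀ i k, ∀ x ∈ W i k, (MM c i / ek k) * w x ≤ v x)
    {T : ℝ} {σ : ℝ → Eu n} (hg : Good E T σ) (hcost : cost v T σ ≤ c) (i : ℕ) :
    σ 0 ∈ YY E w R0 A i ∨ (MM c i * c0 : ℝ≥0) * edist (σ 0) (σ T) ≤ cost v T σ := by
  obtain ⟨m1, m2, m3, m4⟩ := hMet n E w hw
  rcases eq_or_lt_of_le hg.1 with hT | hT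
  · right
    rw [← hT]; simp
  by_cases hY : σ 0 ∈ YY E w R0 A i
  · exact Or.inl hY
  right
  have hσc : Continuous σ := hg.2.1.continuous
  have hcost' : cost v T σ ≠ ∞ := ne_top_of_le_ne_top ENNReal.coe_ne_top hcost
  have hwcost : cost w T σ ≠ ∞ :=
    ne_top_of_le_ne_top hcost' (lintegral_mono fun t => hwv _)
  have hB := in_ball hT hσc hout hwcost
  have hk : ∃ k, ∀ i' ≤ i, ∀ a ∈ A i' k, 2 * ek k < dd E w (σ 0) a := by
    by_contra hcon
    push Not at hcon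
    exact hY ⟨hB 0 ⟨le_rfl, hT.le⟩, hcon⟩
  obtain ⟨k, hk⟩ := hk
  have hfar : ∀ t ∈ Icc 0 T, σ t ∉ W i k → ek k ≤ ∫⁻ s in Icc 0 t, w (σ s) := by
    intro t ht htW
    obtain ⟨b, hb, hb'⟩ := hcov i k (σ t) (hB t ht) htW
    have h1 := hk i le_rfl b hb
    have h2 := m3 (σ 0) (σ t) b
    have h3 : dd E w (σ 0) (σ t) ≤ ∫⁻ s in Icc 0 t, w (σ s) := dd_le_cost (Good.restrict hg ht)
    refine le_trans ?_ h3
    by_contra hlt
    rw [not_le] at hlt
    have h4 : dd E w (σ 0) (σ t) + dd E w (σ t) b < ek k + ek k := ENNReal.add_lt_add hlt hb'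
    rw [← two_mul] at h4
    exact absurd (h1.trans_le h2) (not_lt.2 h4.le)
  by_cases hall : ∀ t ∈ Icc 0 T, σ t ∈ W i k
  · have h1 : ∀ t ∈ Icc 0 T, (MM c i : ℝ≥0∞) * c0 ≤ v (σ t) := by
      intro t ht
      refine le_trans ?_ (hvW i k _ (hall t ht))
      gcongr
      · rw [ENNReal.le_div_iff_mul_le (Or.inl (ek_ne_zero k)) (Or.inl (ek_ne_top k))]
        exact mul_le_of_le_one_right' (ek_le_one k)
      · exact hcw _
    have h2 : edist (σ 0) (σ T) ≤ ENNReal.ofReal T := by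
      have h3 := hg.2.1 0 T
      have h4 : edist (0 : ℝ) T = ENNReal.ofReal T := by
        rw [edist_dist, Real.dist_eq, zero_sub, abs_neg, abs_of_pos hT]
      rw [ENNReal.coe_one, one_mul, h4] at h3
      exact h3
    calc ((MM c i * c0 : ℝ≥0) : ℝ≥0∞) * edist (σ 0) (σ T)
        ≤ ((MM c i : ℝ≥0∞) * c0) * ENNReal.ofReal T := by
          rw [ENNReal.coe_mul]; gcongr
      _ = ∫⁻ t in Icc 0 T, (MM c i : ℝ≥0∞) * c0 := by
          rw [setLIntegral_const, Real.volume_Icc, sub_zero]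
      _ ≤ cost v T σ := setLIntegral_mono' measurableSet_Icc h1
  · exfalso
    push Not at hall
    obtain ⟨t1, ht1, ht1W⟩ := hall
    let S : Set ℝ := {t | t ∈ Icc 0 T ∧ σ t ∉ W i k}
    have hSne : S.Nonempty := ⟨t1, ht1, ht1W⟩
    have hSbdd : BddBelow S := ⟨0, fun t ht => ht.1.1⟩
    set ts := sInf S with hts
    have hts0 : 0 ≤ ts := le_csInf hSne fun t ht => ht.1.1
    have htsT : ts ≤ T := (csInf_le hSbdd hSne.some_mem).trans hSne.some_mem.1.2
    have hbelow : ∀ t ∈ Ico 0 ts, σ t ∈ W i k := by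
      intro t ht
      by_contra hcon
      exact absurd (csInf_le hSbdd (show t ∈ S from ⟨⟨ht.1, ht.2.le.trans htsT⟩, hcon⟩))
        (not_le.2 ht.2)
    have hek : ek k ≤ ∫⁻ s in Ico 0 ts, w (σ s) := by
      refine ENNReal.le_of_forall_pos_le_add fun η hη _ => ?_
      have hη' : (η : ℝ≥0∞) ≠ 0 := by exact_mod_cast hη.ne'
      obtain ⟨δ, hδ, hδ'⟩ := exists_pos_setLIntegral_lt_of_measure_lt hwcost hη'
      obtain ⟨δ1, hδ1, hδ2⟩ : ∃ δ1 : ℝ, 0 < δ1 ∧ ENNReal.ofReal δ1 < δ := by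
        obtain ⟨q, hq1, hq2⟩ := ENNReal.lt_iff_exists_nnreal_btwn.1 hδ
        refine ⟨q, ?_, by rwa [ENNReal.ofReal_coe_nnreal]⟩
        exact_mod_cast hq1
      obtain ⟨t, htS, htlt⟩ := exists_lt_of_csInf_lt hSne (lt_add_of_pos_right (sInf S) hδ1)
      have htge : ts ≤ t := csInf_le hSbdd htS
      refine (hfar t htS.1 htS.2).trans ?_
      have hsplit : Icc 0 t ⊆ Ico 0 ts ∪ Icc ts t := by
        intro s hs
        rcases lt_or_ge s ts with h | h
        · exact Or.inl ⟨hs.1, h⟩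
        · exact Or.inr ⟨h, hs.2⟩
      calc ∫⁻ s in Icc 0 t, w (σ s) ≤ ∫⁻ s in Ico 0 ts ∪ Icc ts t, w (σ s) :=
            lintegral_mono_set hsplit
        _ ≤ (∫⁻ s in Ico 0 ts, w (σ s)) + ∫⁻ s in Icc ts t, w (σ s) := lintegral_union_le _ _ _
        _ ≤ (∫⁻ s in Ico 0 ts, w (σ s)) + η := by
            gcongr
            have h5 : Icc ts t ⊆ Icc 0 T := Icc_subset_Icc hts0 htS.1.2
            have h6 := hδ' (Icc ts t) (lt_of_le_of_lt (Measure.restrict_apply_le _ _) (by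
              rw [Real.volume_Icc]
              refine lt_of_le_of_lt (ENNReal.ofReal_le_ofReal ?_) hδ2
              linarith))
            rw [Measure.restrict_restrict measurableSet_Icc, inter_eq_left.2 h5] at h6
            exact h6.le
    have h7 : (MM c i : ℝ≥0∞) ≤ cost v T σ := by
      calc (MM c i : ℝ≥0∞) = (MM c i / ek k) * ek k :=
            (ENNReal.div_mul_cancel (ek_ne_zero k) (ek_ne_top k)).symm
        _ ≤ (MM c i / ek k) * ∫⁻ s in Ico 0 ts, w (σ s) := by gcongr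
        _ = ∫⁻ s in Ico 0 ts, (MM c i / ek k) * w (σ s) :=
            (lintegral_const_mul _ (hw.comp hσc.measurable)).symm
        _ ≤ ∫⁻ s in Ico 0 ts, v (σ s) :=
            setLIntegral_mono' measurableSet_Ico fun s hs => hvW i k _ (hbelow s hs)
        _ ≤ cost v T σ :=
            lintegral_mono_set (Ico_subset_Icc_self.trans (Icc_subset_Icc_right htsT))
    have h8 : (c : ℝ≥0∞) < MM c i := by exact_mod_cast lt_MM c i
    exact absurd (h8.trans_le (h7.trans hcost)) (lt_irrefl _)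

end BlockAux

open MeasureTheory Set Filter Metric Nrm UFun BlockAux
open scoped ENNReal NNReal Topology

/-- BLOCK. -/
theorem specBlock (hMet : SpecMetric) (hCom : SpecComplete) (hNet : SpecNet) : SpecBlock := by
  intro n hn E R0 w c0 c τ hE hE0 hw hc0 hcw hout hint hτ
  obtain ⟨τ', hτ', hτsum⟩ := ENNReal.exists_pos_sum_of_countable hτ (ℕ × ℕ)
  have hex : ∀ i k : ℕ, ∃ (A : Finset (Eu n)) (W : Set (Eu n)), MeasurableSet W ∧
      nrm ((closedBall (0 : Eu n) R0).indicator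
        (W.indicator fun x => ((MM c i : ℝ≥0∞) / ek k) * w x)) ≤ τ' (i, k) ∧
      ∀ z ∈ closedBall (0 : Eu n) R0, z ∉ W → ∃ b ∈ A, dd E w z b < ek k := by
    intro i k
    refine exists_W hn hNet hE hE0 hw hint k _ _ ?_ ?_
    · exact ENNReal.div_ne_top ENNReal.coe_ne_top (ek_ne_zero k)
    · have := (hτ' (i, k)).ne'
      exact_mod_cast this
  choose A W hWm hWn hcov using hex
  let fp : ℕ × ℕ → Eu n → ℝ≥0∞ := fun p =>
    (W p.1 p.2).indicator fun x => ((MM c p.1 : ℝ≥0∞) / ek p.2) * w x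
  have hfp : ∀ p, Measurable (fp p) := fun p => (hw.const_mul _).indicator (hWm p.1 p.2)
  let v : Eu n → ℝ≥0∞ := fun x => w x + ∑' p, fp p x
  have hwv : ∀ x, w x ≤ v x := fun x => le_self_add
  have hvm : Measurable v := hw.add (Measurable.tsum hfp)
  have hvW : ∀ i k, ∀ x ∈ W i k, ((MM c i : ℝ≥0∞) / ek k) * w x ≤ v x := by
    intro i k x hx
    have h1 : fp (i, k) x = ((MM c i : ℝ≥0∞) / ek k) * w x := indicator_of_mem hx _
    rw [← h1]
    exact (ENNReal.le_tsum (i, k)).trans le_add_self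
  have hnrm : nrm ((closedBall (0 : Eu n) R0).indicator v) ≤
        nrm ((closedBall (0 : Eu n) R0).indicator w) + τ := by
    have h1 : (closedBall (0 : Eu n) R0).indicator v = fun x =>
        (closedBall (0 : Eu n) R0).indicator w x +
          ∑' p, (closedBall (0 : Eu n) R0).indicator (fp p) x := by
      funext x
      by_cases hx : x ∈ closedBall (0 : Eu n) R0
      · simp only [indicator_of_mem hx, v]
      · simp only [indicator_of_notMem hx, tsum_zero, add_zero]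
    have hBm : MeasurableSet (closedBall (0 : Eu n) R0) := isClosed_closedBall.measurableSet
    rw [h1]
    refine (nrm_add_le hn (hw.indicator hBm)
      (Measurable.tsum fun p => (hfp p).indicator hBm)).trans ?_
    gcongr
    refine (nrm_tsum_le hn fun p => (hfp p).indicator hBm).trans (le_trans ?_ hτsum.le)
    exact ENNReal.tsum_le_tsum fun p => hWn p.1 p.2
  refine ⟨v, YY E w R0 A, fun i => MM c i * c0, hvm, hwv, hnrm, YY_mono E w R0 A,
    tendsto_MM c hc0, YY_compact hMet hCom hw hc0 hcw A, ?_⟩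
  intro T σ hg hcost i
  have h1 := one_side hMet hw hcw hout hwv A W hcov hvW hg hcost i
  have h2 := one_side hMet hw hcw hout hwv A W hcov hvW (good_reverse hg)
    (by rw [cost_reverse]; exact hcost) i
  rw [cost_reverse] at h2
  simp only [sub_zero, sub_self] at h2
  rcases h1 with h1 | h1
  · rcases h2 with h2 | h2
    · exact Or.inl ⟨h1, h2⟩
    · right
      rw [edist_comm]
      exact h2
  · exact Or.inr h1

end MPd4663a
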