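import Pool.Agent.Lib.MP_d4663a_an.Metric

/-!
# MP_d4663a_an: COMPLETE

The extended metric `dd` is complete if the weight is bounded below.
-/

namespace MPd4663a

open MeasureTheory Set Filter Metric
open scoped ENNReal NNReal Topology

namespace Compl

variable {n : ℕ}

/-- partial sums of the durations -/
noncomputable def S (T : ℕ → ℝ) (k : ℕ) : ℝ := ∑ j ∈ Finset.range k, T j

theorem S_succ (T : ℕ → ℝ) (k : ℕ) : S T (k + 1) = S T k + T k := Finset.sum_range_succ _ _

theorem S_zero (T : ℕ → ℝ) : S T 0 = 0 := rfl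

/-- a path stopped at time `T`. -/
noncomputable def stop (T : ℝ) (σ : ℝ → Eu n) : ℝ → Eu n := fun t => σ (min t T)

theorem lipschitz_stop (T : ℝ) {σ : ℝ → Eu n} (h : LipschitzWith 1 σ) :
    LipschitzWith 1 (stop T σ) := by
  apply LipschitzWith.of_dist_le_mul
  intro s t
  refine (h.dist_le_mul _ _).trans ?_
  gcongr
  rw [Real.dist_eq, Real.dist_eq]
  exact abs_min_sub_min_le_max s T t T |>.trans (by simp)

/-- the concatenation of the first `k` paths, constant after that -/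
noncomputable def P (x0 : Eu n) (T : ℕ → ℝ) (σ : ℕ → ℝ → Eu n) : ℕ → ℝ → Eu n
  | 0 => fun _ => x0
  | k + 1 => Metr.concat (S T k) (P x0 T σ k) (stop (T k) (σ k))

section

variable {x : ℕ → Eu n} {T : ℕ → ℝ} {σ : ℕ → ℝ → Eu n}

theorem S_mono (hT : ∀ k, 0 ≤ T k) : Monotone (S T) :=
  monotone_nat_of_le_succ fun k => by rw [S_succ]; linarith [hT k]

theorem P_of_ge (hT : ∀ k, 0 ≤ T k) (h0 : ∀ k, σ k 0 = x k) (h1 : ∀ k, σ k (T k) = x (k + 1))
    (k : ℕ) : ∀ {t : ℝ}, S T k ≤ t → P (x 0) T σ k t = x k := by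
  induction k with
  | zero => intro t _; rfl
  | succ k ih =>
    intro t ht
    rw [S_succ] at ht
    unfold P
    have hj : P (x 0) T σ k (S T k) = stop (T k) (σ k) 0 := by
      rw [ih le_rfl]
      simp [stop, hT k, h0]
    rw [Metr.concat_of_ge hj (by linarith [hT k])]
    unfold stop
    rw [min_eq_right (by linarith), h1]

theorem join (hT : ∀ k, 0 ≤ T k) (h0 : ∀ k, σ k 0 = x k) (h1 : ∀ k, σ k (T k) = x (k + 1))
    (k : ℕ) : P (x 0) T σ k (S T k) = stop (T k) (σ k) 0 := by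
  rw [P_of_ge hT h0 h1 k le_rfl]
  simp [stop, hT k, h0]

theorem P_lip (hT : ∀ k, 0 ≤ T k) (hσ : ∀ k, LipschitzWith 1 (σ k)) (h0 : ∀ k, σ k 0 = x k)
    (h1 : ∀ k, σ k (T k) = x (k + 1)) (k : ℕ) : LipschitzWith 1 (P (x 0) T σ k) := by
  induction k with
  | zero => exact LipschitzWith.of_dist_le_mul (by simp [P])
  | succ k ih =>
    exact Metr.lipschitz_concat ih (lipschitz_stop _ (hσ k)) (join hT h0 h1 k)

theorem P_succ_of_le (x0 : Eu n) (k : ℕ) {t : ℝ} (ht : t ≤ S T k) :
    P x0 T σ (k + 1) t = P x0 T σ k t := Metr.concat_of_le ht _ _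

theorem P_stab (hT : ∀ k, 0 ≤ T k) (x0 : Eu n) (k : ℕ) {t : ℝ} (ht : t ≤ S T k) (j : ℕ)
    (hj : k ≤ j) : P x0 T σ j t = P x0 T σ k t := by
  induction j, hj using Nat.le_induction with
  | base => rfl
  | succ j hj ih => rw [P_succ_of_le x0 j (ht.trans (S_mono hT hj)), ih]

theorem P_mid (hT : ∀ k, 0 ≤ T k) (h0 : ∀ k, σ k 0 = x k) (h1 : ∀ k, σ k (T k) = x (k + 1))
    (k : ℕ) {t : ℝ} (ht : S T k ≤ t) (ht' : t ≤ S T (k + 1)) :
    P (x 0) T σ (k + 1) t = σ k (t - S T k) := by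
  unfold P
  rw [Metr.concat_of_ge (join hT h0 h1 k) ht]
  unfold stop
  rw [S_succ] at ht'
  rw [min_eq_left (by linarith)]

/-- the infinite concatenation -/
theorem exists_limit (hT : ∀ k, 0 ≤ T k) (hσ : ∀ k, LipschitzWith 1 (σ k))
    (h0 : ∀ k, σ k 0 = x k) (h1 : ∀ k, σ k (T k) = x (k + 1)) {L : ℝ}
    (hL : Tendsto (S T) atTop (𝓝 L)) {z : Eu n} (hz : Tendsto x atTop (𝓝 z)) :
    ∃ τ : ℝ → Eu n, LipschitzWith 1 τ ∧ τ L = z ∧
      ∀ k t, S T k ≤ t → t ≤ S T (k + 1) → τ t = σ k (t - S T k) := by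
  have hconv : ∀ t : ℝ, ∃ y : Eu n, Tendsto (fun k => P (x 0) T σ k t) atTop (𝓝 y) := by
    intro t
    by_cases h : ∃ k, t ≤ S T k
    · obtain ⟨k, hk⟩ := h
      refine ⟨P (x 0) T σ k t, tendsto_const_nhds.congr' ?_⟩
      filter_upwards [eventually_ge_atTop k] with j hj
      exact (P_stab hT (x 0) k hk j hj).symm
    · push Not at h
      refine ⟨z, hz.congr fun k => ?_⟩
      exact (P_of_ge hT h0 h1 k (h k).le).symm
  choose τ hτ using hconv
  refine ⟨τ, ?_, ?_, ?_⟩
  · apply LipschitzWith.of_dist_le_mul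
    intro s t
    refine le_of_tendsto ((hτ s).dist (hτ t)) (Eventually.of_forall fun k => ?_)
    exact (P_lip hT hσ h0 h1 k).dist_le_mul s t
  · refine tendsto_nhds_unique (hτ L) (hz.congr fun k => ?_)
    exact (P_of_ge hT h0 h1 k ((S_mono hT).ge_of_tendsto hL k)).symm
  · intro k t ht ht'
    refine tendsto_nhds_unique (hτ t) (tendsto_const_nhds.congr' ?_)
    filter_upwards [eventually_ge_atTop (k + 1)] with j hj
    rw [P_stab hT (x 0) (k + 1) ht' j hj, P_mid hT h0 h1 k ht ht']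

theorem cover {L : ℝ} (hL : Tendsto (S T) atTop (𝓝 L)) (k : ℕ) :
    Icc (S T k) L ⊆ (⋃ j, Icc (S T (k + j)) (S T (k + j + 1))) ∪ {L} := by
  intro t ht
  rcases ht.2.eq_or_lt with h | h
  · right; exact h
  · left
    have hex : ∃ j, t < S T (k + j + 1) := by
      have h2 : ∀ᶠ j in atTop, t < S T j := hL.eventually (lt_mem_nhds h)
      obtain ⟨N, hN⟩ := (eventually_atTop.1 h2)
      exact ⟨N, hN _ (by omega)⟩
    classical
    have hspec := Nat.find_spec hex
    have hmin := fun m => Nat.find_min hex (m := m)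
    set j := Nat.find hex with hj
    refine mem_iUnion.2 ⟨j, ?_, hspec.le⟩
    rcases Nat.eq_zero_or_pos j with h0 | h0
    · rw [h0]; exact ht.1
    · have h3 := hmin (j - 1) (by omega)
      push Not at h3
      rw [show k + (j - 1) + 1 = k + j by omega] at h3
      exact h3

end

theorem cost_tail {E : Set (Eu n)} {w : Eu n → ℝ≥0∞} {x : ℕ → Eu n} {T : ℕ → ℝ}
    {σ : ℕ → ℝ → Eu n} (hT : ∀ k, 0 ≤ T k) (hg : ∀ k, Good E (T k) (σ k)) {L : ℝ}
    (hL : Tendsto (S T) atTop (𝓝 L)) {τ : ℝ → Eu n} (hτ : LipschitzWith 1 τ)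
    (hτσ : ∀ k t, S T k ≤ t → t ≤ S T (k + 1) → τ t = σ k (t - S T k)) (k : ℕ) :
    Good E (L - S T k) (fun t => τ (t + S T k)) ∧
      cost w (L - S T k) (fun t => τ (t + S T k)) ≤ ∑' j, cost w (T (k + j)) (σ (k + j)) := by
  have hkL : S T k ≤ L := (S_mono hT).ge_of_tendsto hL k
  refine ⟨⟨by linarith, ?_, ?_⟩, ?_⟩
  · apply LipschitzWith.of_dist_le_mul
    intro s t
    refine (hτ.dist_le_mul _ _).trans (le_of_eq ?_)
    rw [Real.dist_eq, Real.dist_eq]
    congr 2
    ring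
  · have hc : (⋃ j, (σ (k + j) '' Icc 0 (T (k + j)) ∩ E)).Countable :=
      countable_iUnion fun j => (hg (k + j)).2.2
    refine (hc.union (countable_singleton (τ L))).mono ?_
    rintro y ⟨⟨t, ht, rfl⟩, hy⟩
    have ht2 : t + S T k ∈ Icc (S T k) L := ⟨by linarith [ht.1], by linarith [ht.2]⟩
    rcases cover hL k ht2 with h | h
    · left
      obtain ⟨j, hj⟩ := mem_iUnion.1 h
      refine mem_iUnion.2 ⟨j, ⟨⟨t + S T k - S T (k + j), ⟨by linarith [hj.1], ?_⟩, ?_⟩, hy⟩⟩
      · have := hj.2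
        rw [S_succ] at this
        linarith
      · exact (hτσ (k + j) _ hj.1 hj.2).symm
    · right
      simp only [mem_singleton_iff] at h
      simp [h]
  · unfold cost
    have e1 : ∫⁻ t in Icc 0 (L - S T k), w (τ (t + S T k)) = ∫⁻ t in Icc (S T k) L, w (τ t) := by
      rw [← lintegral_indicator measurableSet_Icc, ← lintegral_indicator measurableSet_Icc,
        ← lintegral_add_right_eq_self ((Icc (S T k) L).indicator fun t => w (τ t)) (S T k)]
      apply lintegral_congr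
      intro t
      by_cases ht : t ∈ Icc (0 : ℝ) (L - S T k)
      · have ht' : t + S T k ∈ Icc (S T k) L := ⟨by linarith [ht.1], by linarith [ht.2]⟩
        rw [indicator_of_mem ht, indicator_of_mem ht']
      · have ht' : t + S T k ∉ Icc (S T k) L := by
          intro h'
          exact ht ⟨by linarith [h'.1], by linarith [h'.2]⟩
        rw [indicator_of_notMem ht, indicator_of_notMem ht']
    have e2 : ∀ j, ∫⁻ t in Icc (S T j) (S T (j + 1)), w (τ t)
        = ∫⁻ t in Icc 0 (T j), w (σ j t) := by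
      intro j
      rw [← lintegral_indicator measurableSet_Icc, ← lintegral_indicator measurableSet_Icc,
        ← lintegral_sub_right_eq_self ((Icc 0 (T j)).indicator fun t => w (σ j t)) (S T j)]
      apply lintegral_congr
      intro t
      by_cases ht : t ∈ Icc (S T j) (S T (j + 1))
      · have ht' : t - S T j ∈ Icc 0 (T j) := by
          rw [S_succ] at ht
          exact ⟨by linarith [ht.1], by linarith [ht.2]⟩
        rw [indicator_of_mem ht, indicator_of_mem ht', hτσ j t ht.1 ht.2]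
      · have ht' : t - S T j ∉ Icc 0 (T j) := by
          intro h'
          rw [S_succ] at ht
          exact ht ⟨by linarith [h'.1], by linarith [h'.2]⟩
        rw [indicator_of_notMem ht, indicator_of_notMem ht']
    rw [e1]
    calc ∫⁻ t in Icc (S T k) L, w (τ t)
        ≤ ∫⁻ t in (⋃ j, Icc (S T (k + j)) (S T (k + j + 1))) ∪ {L}, w (τ t) :=
          lintegral_mono_set (cover hL k)
      _ ≤ (∫⁻ t in ⋃ j, Icc (S T (k + j)) (S T (k + j + 1)), w (τ t))
            + ∫⁻ t in {L}, w (τ t) := lintegral_union_le _ _ _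
      _ = ∫⁻ t in ⋃ j, Icc (S T (k + j)) (S T (k + j + 1)), w (τ t) := by
          rw [setLIntegral_measure_zero {L} _ (by simp), add_zero]
      _ ≤ ∑' j, ∫⁻ t in Icc (S T (k + j)) (S T (k + j + 1)), w (τ t) :=
          lintegral_iUnion_le _ _
      _ = _ := by
          congr 1
          ext j
          exact e2 (k + j)

end Compl

/-- COMPLETE. -/
theorem specComplete : SpecComplete := by
  intro n E w c0 _ hc0 hw x hx
  choose T σ hg h0 h1 hcost using fun k => Metr.exists_of_dd_lt (hx k)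
  have hT : ∀ k, 0 ≤ T k := fun k => (hg k).1
  have hσ : ∀ k, LipschitzWith 1 (σ k) := fun k => (hg k).2.1
  -- the durations are summable
  have hTle : ∀ k, T k ≤ (1 / 2) ^ k * (c0 : ℝ)⁻¹ := by
    intro k
    have h := (Metr.cost_ge hw (T k) (σ k)).trans (hcost k).le
    have hc : (0 : ℝ) < c0 := hc0
    have h2 : (c0 : ℝ≥0∞) * ENNReal.ofReal (T k) = ENNReal.ofReal (c0 * T k) := by
      rw [ENNReal.ofReal_mul hc.le, ENNReal.ofReal_coe_nnreal]
    have h3 : ((1 / 2 : ℝ≥0∞)) ^ k = ENNReal.ofReal ((1 / 2 : ℝ) ^ k) := by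
      rw [ENNReal.ofReal_pow (by norm_num)]
      congr 1
      rw [ENNReal.ofReal_div_of_pos (by norm_num)]
      simp
    rw [h2, h3, ENNReal.ofReal_le_ofReal_iff (by positivity)] at h
    rw [← div_eq_mul_inv, le_div_iff₀ hc]
    linarith
  have hsum : Summable T := by
    refine Summable.of_nonneg_of_le hT hTle ?_
    exact (summable_geometric_of_lt_one (by norm_num) (by norm_num)).mul_right _
  have hL : Tendsto (Compl.S T) atTop (𝓝 (∑' k, T k)) := hsum.hasSum.tendsto_sum_nat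
  -- the points converge
  have hd : ∀ k, dist (x k) (x (k + 1)) ≤ T k := by
    intro k
    have h := (hσ k).dist_le_mul 0 (T k)
    rw [h0, h1, Real.dist_eq, abs_sub_comm, sub_zero, abs_of_nonneg (hT k), NNReal.coe_one,
      one_mul] at h
    exact h
  have hcau : CauchySeq x := cauchySeq_of_dist_le_of_summable T hd hsum
  obtain ⟨z, hz⟩ := cauchySeq_tendsto_of_complete hcau
  obtain ⟨τ, hτ, hτL, hτσ⟩ := Compl.exists_limit hT hσ h0 h1 hL hz
  refine ⟨z, ?_⟩
  have hle : ∀ k, dd E w (x k) z ≤ (1 / 2) ^ k * (1 - 1 / 2)⁻¹ := by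
    intro k
    obtain ⟨hgood, hc⟩ := Compl.cost_tail (w := w) (x := x) hT hg hL hτ hτσ k
    have h2 := Metr.dd_le_cost w hgood
    simp only [zero_add, sub_add_cancel] at h2
    rw [hτL, hτσ k (Compl.S T k) le_rfl (Compl.S_mono hT (Nat.le_succ k)), sub_self, h0] at h2
    refine (h2.trans hc).trans ?_
    calc ∑' j, cost w (T (k + j)) (σ (k + j)) ≤ ∑' j, (1 / 2 : ℝ≥0∞) ^ (k + j) :=
          ENNReal.tsum_le_tsum fun j => (hcost (k + j)).le
      _ = _ := by
          simp_rw [pow_add]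
          rw [ENNReal.tsum_mul_left, ENNReal.tsum_geometric]
  have hlim : Tendsto (fun k : ℕ => (1 / 2 : ℝ≥0∞) ^ k * (1 - 1 / 2)⁻¹) atTop (𝓝 0) := by
    have h1 := ENNReal.Tendsto.mul_const (b := (1 - 1 / 2 : ℝ≥0∞)⁻¹)
      (ENNReal.tendsto_pow_atTop_nhds_zero_of_lt_one (r := 1 / 2)
        (by rw [ENNReal.div_lt_iff] <;> norm_num)) (Or.inr (by
          rw [Ne, ENNReal.inv_eq_top]
          simp [ENNReal.one_sub_inv_two]))
    simpa using h1
  exact tendsto_of_tendsto_of_tendsto_of_le_of_le tendsto_const_nhds hlim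
    (fun _ => bot_le) hle

end MPd4663a
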