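import Pool.Agent.Lib.MP_d4663a_an.Spec

/-!
# MP_d4663a_an: CURVEA

A rectifiable curve has a 1-Lipschitz arc-length parametrization, all of whose fibres are null.
-/

namespace MPd4663a

open MeasureTheory Set Filter Metric
open scoped ENNReal NNReal Topology

namespace CurveAux

variable {n : ℕ}

/-- comparison of variations -/
theorem eVariationOn_le_of_edist_le {E F : Type*} [PseudoEMetricSpace E] [PseudoEMetricSpace F]
    {f : ℝ → E} {F' : ℝ → F} {s : Set ℝ}
    (h : ∀ x ∈ s, ∀ y ∈ s, x ≤ y → edist (f x) (f y) ≤ edist (F' x) (F' y)) :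
    eVariationOn f s ≤ eVariationOn F' s := by
  apply iSup_le _
  rintro ⟨n, ⟨u, hu, us⟩⟩
  calc
    (∑ i ∈ Finset.range n, edist (f (u (i + 1))) (f (u i))) ≤
        ∑ i ∈ Finset.range n, edist (F' (u (i + 1))) (F' (u i)) :=
      Finset.sum_le_sum fun i _ => by
        rw [edist_comm, edist_comm (F' (u (i + 1)))]
        exact h _ (us _) _ (us _) (hu (Nat.le_succ _))
    _ ≤ eVariationOn F' s := eVariationOn.sum_le hu us

/-- the variation function of a continuous function is continuous -/
theorem continuousOn_var {a b : ℝ} {f : ℝ → Eu n} (hf : ContinuousOn f (Icc a b))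
    (hbv : LocallyBoundedVariationOn f (Icc a b)) (hab : a ≤ b) :
    ContinuousOn (variationOnFromTo f (Icc a b) a) (Icc a b) := by
  intro x hx
  have ha : a ∈ Icc a b := left_mem_Icc.2 hab
  have hL : Tendsto (variationOnFromTo f (Icc a b) a) (𝓝[Icc a b ∩ Iio x] x)
      (𝓝 (variationOnFromTo f (Icc a b) a x)) := by
    have h := variationOnFromTo.tendsto_left (l := f x) ha hx hbv
      ((hf x hx).tendsto.mono_left (nhdsWithin_mono _ inter_subset_left))
    simpa using h
  have hR : Tendsto (variationOnFromTo f (Icc a b) a) (𝓝[Icc a b ∩ Ioi x] x)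
      (𝓝 (variationOnFromTo f (Icc a b) a x)) := by
    have h := variationOnFromTo.tendsto_right (l := f x) ha hx hbv
      ((hf x hx).tendsto.mono_left (nhdsWithin_mono _ inter_subset_left))
    simpa using h
  have hdec : Icc a b ⊆ (Icc a b ∩ Iio x) ∪ ({x} ∪ (Icc a b ∩ Ioi x)) := by
    intro y hy
    rcases lt_trichotomy y x with h | h | h
    · exact Or.inl ⟨hy, h⟩
    · exact Or.inr (Or.inl h)
    · exact Or.inr (Or.inr ⟨hy, h⟩)
  have hpt : Tendsto (variationOnFromTo f (Icc a b) a) (𝓝[{x}] x)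
      (𝓝 (variationOnFromTo f (Icc a b) a x)) := by
    rw [nhdsWithin_singleton]
    exact tendsto_pure_nhds _ _
  have : Tendsto (variationOnFromTo f (Icc a b) a)
      (𝓝[(Icc a b ∩ Iio x) ∪ ({x} ∪ (Icc a b ∩ Ioi x))] x)
      (𝓝 (variationOnFromTo f (Icc a b) a x)) := by
    rw [nhdsWithin_union, nhdsWithin_union]
    exact hL.sup (hpt.sup hR)
  exact this.mono_left (nhdsWithin_mono _ hdec)

theorem var_right {a b : ℝ} (f : ℝ → Eu n) (hab : a ≤ b) :
    variationOnFromTo f (Icc a b) a b = (eVariationOn f (Icc a b)).toReal := by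
  rw [variationOnFromTo.eq_of_le _ _ hab, inter_self]

/-- the variation function maps `[a,b]` onto `[0,L]` -/
theorem image_var {a b : ℝ} {f : ℝ → Eu n} (hf : ContinuousOn f (Icc a b))
    (hbv : LocallyBoundedVariationOn f (Icc a b)) (hab : a ≤ b) :
    variationOnFromTo f (Icc a b) a '' Icc a b = Icc 0 (eVariationOn f (Icc a b)).toReal := by
  have ha : a ∈ Icc a b := left_mem_Icc.2 hab
  have hb : b ∈ Icc a b := right_mem_Icc.2 hab
  apply subset_antisymm
  · rintro _ ⟨x, hx, rfl⟩
    refine ⟨variationOnFromTo.nonneg_of_le _ _ hx.1, ?_⟩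
    rw [← var_right f hab]
    exact variationOnFromTo.monotoneOn hbv ha hx hb hx.2
  · have h := intermediate_value_Icc hab (continuousOn_var hf hbv hab)
    rwa [variationOnFromTo.self, var_right f hab] at h

theorem natPar_var {a b : ℝ} {f : ℝ → Eu n}
    (hbv : LocallyBoundedVariationOn f (Icc a b)) {t : ℝ} (ht : t ∈ Icc a b) :
    naturalParameterization f (Icc a b) a (variationOnFromTo f (Icc a b) a t) = f t := by
  have ha : a ∈ Icc a b := ⟨le_rfl, ht.1.trans ht.2⟩
  exact edist_eq_zero.1 (edist_naturalParameterization_eq_zero hbv ha ht)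

theorem eVar_natPar {a b : ℝ} {f : ℝ → Eu n} (hf : ContinuousOn f (Icc a b))
    (hbv : LocallyBoundedVariationOn f (Icc a b)) (hab : a ≤ b) {x y : ℝ}
    (hx : x ∈ Icc 0 (eVariationOn f (Icc a b)).toReal)
    (hy : y ∈ Icc 0 (eVariationOn f (Icc a b)).toReal) :
    eVariationOn (naturalParameterization f (Icc a b) a)
      (Icc 0 (eVariationOn f (Icc a b)).toReal ∩ Icc x y) = ENNReal.ofReal (y - x) := by
  have ha : a ∈ Icc a b := left_mem_Icc.2 hab
  have h := has_unit_speed_naturalParameterization f hbv ha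
  rw [image_var hf hbv hab] at h
  simpa using h hx hy

theorem edist_natPar {a b : ℝ} {f : ℝ → Eu n} (hf : ContinuousOn f (Icc a b))
    (hbv : LocallyBoundedVariationOn f (Icc a b)) (hab : a ≤ b) {x y : ℝ}
    (hx : x ∈ Icc 0 (eVariationOn f (Icc a b)).toReal)
    (hy : y ∈ Icc 0 (eVariationOn f (Icc a b)).toReal) :
    edist (naturalParameterization f (Icc a b) a x) (naturalParameterization f (Icc a b) a y) ≤
      edist x y := by
  wlog hxy : x ≤ y generalizing x y
  · rw [edist_comm, edist_comm x]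
    exact this hy hx (le_of_not_ge hxy)
  refine (eVariationOn.edist_le (s := Icc 0 (eVariationOn f (Icc a b)).toReal ∩ Icc x y) _
    ⟨hx, le_rfl, hxy⟩ ⟨hy, hxy, le_rfl⟩).trans ?_
  rw [eVar_natPar hf hbv hab hx hy, edist_comm, edist_dist, Real.dist_eq,
    abs_of_nonneg (sub_nonneg.2 hxy)]

/-- the 1-Lipschitz extension of the arc-length parametrization -/
noncomputable def arc (a b : ℝ) (f : ℝ → Eu n) (t : ℝ) : Eu n :=
  naturalParameterization f (Icc a b) a
    (projIcc 0 (eVariationOn f (Icc a b)).toReal ENNReal.toReal_nonneg t)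

theorem arc_of_mem {a b : ℝ} {f : ℝ → Eu n} {t : ℝ}
    (ht : t ∈ Icc 0 (eVariationOn f (Icc a b)).toReal) :
    arc a b f t = naturalParameterization f (Icc a b) a t := by
  unfold arc
  rw [projIcc_of_mem _ ht]

theorem lipschitz_arc {a b : ℝ} {f : ℝ → Eu n} (hf : ContinuousOn f (Icc a b))
    (hbv : LocallyBoundedVariationOn f (Icc a b)) (hab : a ≤ b) : LipschitzWith 1 (arc a b f) := by
  intro x y
  rw [ENNReal.coe_one, one_mul]
  unfold arc
  refine (edist_natPar hf hbv hab (Subtype.coe_prop _) (Subtype.coe_prop _)).trans ?_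
  have h := (LipschitzWith.projIcc (h := ENNReal.toReal_nonneg (a := eVariationOn f (Icc a b)))) x y
  rw [ENNReal.coe_one, one_mul] at h
  exact h

/-- the fibres of a path of unit speed are null -/
theorem fibre_null {L : ℝ} (hL : 0 ≤ L) {σ : ℝ → Eu n} (hσ : LipschitzWith 1 σ)
    (hvar : eVariationOn σ (Icc 0 L) = ENNReal.ofReal L) (z : Eu n) :
    volume {t | t ∈ Icc 0 L ∧ σ t = z} = 0 := by
  set C : Set ℝ := {t | t ∈ Icc 0 L ∧ σ t = z} with hC
  have hCc : IsClosed C := isClosed_Icc.inter (isClosed_singleton.preimage hσ.continuous)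
  have hCm : MeasurableSet C := hCc.measurableSet
  have hCL : C ⊆ Icc 0 L := fun t ht => ht.1
  -- the key estimate
  have key : ∀ x ∈ Icc 0 L, ∀ y ∈ Icc 0 L, x ≤ y → edist (σ x) (σ y) ≤ volume (Ioc x y \ C) := by
    intro x hx y hy hxy
    rcases (Icc x y ∩ C).eq_empty_or_nonempty with h | h
    · have h1 : Ioc x y \ C = Ioc x y := by
        rw [sdiff_eq_left]
        exact (disjoint_iff_inter_eq_empty.2 h).mono_left Ioc_subset_Icc_self
      rw [h1, Real.volume_Ioc]
      refine (hσ x y).trans ?_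
      rw [ENNReal.coe_one, one_mul, edist_comm, edist_dist, Real.dist_eq,
        abs_of_nonneg (sub_nonneg.2 hxy)]
    · have hcpt : IsCompact (Icc x y ∩ C) := isCompact_Icc.inter_right hCc
      obtain ⟨p, hp⟩ := hcpt.exists_isLeast h
      obtain ⟨q, hq⟩ := hcpt.exists_isGreatest h
      have hpq : p ≤ q := hp.2 hq.1
      have hxp : x ≤ p := hp.1.1.1
      have hqy : q ≤ y := hq.1.1.2
      have h1 : edist (σ x) (σ y) ≤ ENNReal.ofReal (p - x) + ENNReal.ofReal (y - q) := by
        calc edist (σ x) (σ y) ≤ edist (σ x) z + edist z (σ y) := edist_triangle _ _ _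
          _ = edist (σ x) (σ p) + edist (σ q) (σ y) := by
            rw [show σ p = z from hp.1.2.2, show σ q = z from hq.1.2.2]
          _ ≤ edist x p + edist q y := by
            have e1 := hσ x p
            have e2 := hσ q y
            rw [ENNReal.coe_one, one_mul] at e1 e2
            exact add_le_add e1 e2
          _ = _ := by
            rw [edist_comm, edist_dist, Real.dist_eq, abs_of_nonneg (sub_nonneg.2 hxp),
              edist_comm q, edist_dist y, Real.dist_eq, abs_of_nonneg (sub_nonneg.2 hqy)]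
      have h2 : Ioo x p ∪ Ioc q y ⊆ Ioc x y \ C := by
        rintro t (ht | ht)
        · refine ⟨⟨ht.1, ht.2.le.trans (hpq.trans hqy)⟩, fun htC => ?_⟩
          exact absurd (hp.2 ⟨⟨ht.1.le, ht.2.le.trans (hpq.trans hqy)⟩, htC⟩) (not_le.2 ht.2)
        · refine ⟨⟨(hxp.trans hpq).trans_lt ht.1, ht.2⟩, fun htC => ?_⟩
          exact absurd (hq.2 ⟨⟨(hxp.trans hpq).trans ht.1.le, ht.2⟩, htC⟩) (not_le.2 ht.1)
      have h3 : Disjoint (Ioo x p) (Ioc q y) := by
        rw [Set.disjoint_left]
        intro t ht ht'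
        exact absurd (ht.2.trans_le (hpq.trans ht'.1.le)) (lt_irrefl _)
      calc edist (σ x) (σ y) ≤ _ := h1
        _ = volume (Ioo x p) + volume (Ioc q y) := by rw [Real.volume_Ioo, Real.volume_Ioc]
        _ = volume (Ioo x p ∪ Ioc q y) := (measure_union h3 measurableSet_Ioc).symm
        _ ≤ _ := measure_mono h2
  -- the comparison function
  set F : ℝ → ℝ := fun t => (volume (Ioc 0 t \ C)).toReal with hF
  have hfin : ∀ x y : ℝ, volume (Ioc x y \ C) ≠ ∞ := fun x y =>
    measure_ne_top_of_subset sdiff_subset (by rw [Real.volume_Ioc]; exact ENNReal.ofReal_ne_top)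
  have hadd : ∀ x y : ℝ, 0 ≤ x → x ≤ y → F y = F x + (volume (Ioc x y \ C)).toReal := by
    intro x y hx hxy
    rw [hF]
    simp only
    rw [← ENNReal.toReal_add (hfin _ _) (hfin _ _), ← measure_union _
      (measurableSet_Ioc.diff hCm), ← union_sdiff_distrib, Ioc_union_Ioc_eq_Ioc hx hxy]
    exact Disjoint.mono sdiff_subset sdiff_subset (Ioc_disjoint_Ioc_of_le le_rfl)
  have hmono : MonotoneOn F (Icc 0 L) := by
    intro x hx y _ hxy
    rw [hadd x y hx.1 hxy]
    exact le_add_of_nonneg_right ENNReal.toReal_nonneg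
  have h1 : eVariationOn σ (Icc 0 L) ≤ eVariationOn F (Icc 0 L) := by
    apply eVariationOn_le_of_edist_le
    intro x hx y hy hxy
    refine (key x hx y hy hxy).trans (le_of_eq ?_)
    rw [edist_comm, edist_dist, Real.dist_eq, hadd x y hx.1 hxy, add_sub_cancel_left,
      abs_of_nonneg ENNReal.toReal_nonneg, ENNReal.ofReal_toReal (hfin _ _)]
  have h2 : eVariationOn F (Icc 0 L) = ENNReal.ofReal (F L - F 0) := by
    have := hmono.eVariationOn_eq (left_mem_Icc.2 hL) (right_mem_Icc.2 hL)
    rwa [inter_self] at this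
  have h3 : ENNReal.ofReal L ≤ volume (Ioc 0 L \ C) := by
    rw [hvar, h2, hadd 0 L le_rfl hL, add_sub_cancel_left, ENNReal.ofReal_toReal (hfin _ _)] at h1
    exact h1
  have h4 : volume (Ioc 0 L \ C) + volume (Ioc 0 L ∩ C) = ENNReal.ofReal L := by
    rw [add_comm, measure_inter_add_sdiff _ hCm, Real.volume_Ioc, sub_zero]
  have h5 : volume (Ioc 0 L ∩ C) = 0 := by
    have h6 : volume (Ioc 0 L \ C) + volume (Ioc 0 L ∩ C) ≤ volume (Ioc 0 L \ C) + 0 := by
      rw [h4, add_zero]; exact h3
    exact le_antisymm (ENNReal.le_of_add_le_add_left (hfin _ _) h6) bot_le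
  have h6 : C ⊆ {0} ∪ (Ioc 0 L ∩ C) := by
    intro t ht
    rcases (hCL ht).1.eq_or_lt with h | h
    · exact Or.inl h.symm
    · exact Or.inr ⟨⟨h, (hCL ht).2⟩, ht⟩
  refine measure_mono_null h6 (measure_union_null ?_ h5)
  exact Real.volume_singleton

end CurveAux

open CurveAux in
/-- CURVEA. -/
theorem specCurveA : SpecCurveA := by
  intro n γ hγ
  have hbv0 : BoundedVariationOn γ.toFun (Icc γ.a γ.b) := hγ
  have hbv : LocallyBoundedVariationOn γ.toFun (Icc γ.a γ.b) := hbv0.locallyBoundedVariationOn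
  have hab := γ.hab
  have hc := γ.cont
  have hL : (0 : ℝ) ≤ γ.length.toReal := ENNReal.toReal_nonneg
  have hLip := lipschitz_arc hc hbv hab
  have h0 : (0 : ℝ) ∈ Icc 0 (eVariationOn γ.toFun (Icc γ.a γ.b)).toReal := left_mem_Icc.2 hL
  have h1 : γ.length.toReal ∈ Icc 0 (eVariationOn γ.toFun (Icc γ.a γ.b)).toReal :=
    right_mem_Icc.2 hL
  refine ⟨γ.length.toReal, arc γ.a γ.b γ.toFun, hL, hLip, ?_, ?_, ?_, ?_, ?_⟩
  · rw [arc_of_mem h0, ← variationOnFromTo.self γ.toFun (Icc γ.a γ.b) γ.a,
      natPar_var hbv (left_mem_Icc.2 hab)]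
    rfl
  · rw [arc_of_mem h1]
    have := natPar_var hbv (right_mem_Icc.2 hab)
    rw [var_right γ.toFun hab] at this
    exact this
  · have e1 : arc γ.a γ.b γ.toFun '' Icc 0 γ.length.toReal =
        naturalParameterization γ.toFun (Icc γ.a γ.b) γ.a '' Icc 0 γ.length.toReal :=
      image_congr fun t ht => arc_of_mem ht
    rw [e1]
    have e2 := image_var hc hbv hab
    change variationOnFromTo γ.toFun (Icc γ.a γ.b) γ.a '' Icc γ.a γ.b =
      Icc 0 γ.length.toReal at e2
    rw [← e2, image_image]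
    exact image_congr fun t ht => natPar_var hbv ht
  · intro z
    apply fibre_null hL hLip
    have e1 : eVariationOn (arc γ.a γ.b γ.toFun) (Icc 0 γ.length.toReal) =
        eVariationOn (naturalParameterization γ.toFun (Icc γ.a γ.b) γ.a)
          (Icc 0 γ.length.toReal) := eVariationOn.congr fun t ht => arc_of_mem ht
    rw [e1]
    have e2 := eVar_natPar hc hbv hab h0 h1
    rw [sub_zero] at e2
    rw [← e2]
    congr 1
    exact (inter_self _).symm
  · intro ρ _
    unfold Curve.lineIntegral cost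
    apply setLIntegral_congr_fun measurableSet_Icc
    intro t ht
    simp only
    rw [arc_of_mem ht]

end MPd4663a
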