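import Pool.Agent.Lib.MP_d4663a_an.CurveA

/-!
# MP_d4663a_an: CURVEB

A 1-Lipschitz path is a rectifiable curve, with line integrals at most the costs.
-/

namespace MPd4663a

open MeasureTheory Set Filter Metric
open scoped ENNReal NNReal Topology

namespace CurveAux

variable {n : ℕ}

/-- the variation function of a 1-Lipschitz function is 1-Lipschitz -/
theorem edist_var_le {a b : ℝ} {σ : ℝ → Eu n} (hσ : LipschitzWith 1 σ) {x y : ℝ}
    (hx : x ∈ Icc a b) (hy : y ∈ Icc a b) :
    edist (variationOnFromTo σ (Icc a b) a x) (variationOnFromTo σ (Icc a b) a y) ≤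
      edist x y := by
  wlog hxy : x ≤ y generalizing x y
  · rw [edist_comm, edist_comm x]
    exact this hy hx (le_of_not_ge hxy)
  have hbv : LocallyBoundedVariationOn σ (Icc a b) := hσ.locallyBoundedVariationOn _
  have ha : a ∈ Icc a b := ⟨le_rfl, hx.1.trans hx.2⟩
  have h1 := variationOnFromTo.sub_right hbv ha hy hx
  have h2 : eVariationOn σ (Icc a b ∩ Icc x y) ≤ ENNReal.ofReal (y - x) := by
    have h3 := hσ.lipschitzOnWith (s := univ) |>.comp_eVariationOn_le (g := (id : ℝ → ℝ))
      (s := Icc a b ∩ Icc x y) (mapsTo_univ _ _)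
    rw [ENNReal.coe_one, one_mul, eVariationOn_id hx hy] at h3
    exact h3
  rw [edist_comm, edist_dist, Real.dist_eq, h1, abs_of_nonneg
    (variationOnFromTo.nonneg_of_le _ _ hxy), variationOnFromTo.eq_of_le _ _ hxy,
    ENNReal.ofReal_toReal (hbv x y hx hy), edist_comm, edist_dist, Real.dist_eq,
    abs_of_nonneg (sub_nonneg.2 hxy)]
  exact h2

end CurveAux

open CurveAux in
/-- CURVEB. -/
theorem specCurveB : SpecCurveB := by
  intro n T σ hT hσ
  set γ : Curve n := ⟨0, T, hT, σ, hσ.continuous.continuousOn⟩ with hγ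
  have hbv : LocallyBoundedVariationOn σ (Icc 0 T) := hσ.locallyBoundedVariationOn _
  have h0 : (0 : ℝ) ∈ Icc 0 T := left_mem_Icc.2 hT
  have h1 : T ∈ Icc 0 T := right_mem_Icc.2 hT
  have hbv0 : BoundedVariationOn σ (Icc 0 T) := by
    have := hbv 0 T h0 h1
    rwa [inter_self] at this
  refine ⟨γ, hbv0, rfl, rfl, rfl, ?_⟩
  intro ρ hρ
  set L : ℝ := (eVariationOn σ (Icc 0 T)).toReal with hLdef
  have hL : 0 ≤ L := ENNReal.toReal_nonneg
  have hcσ : ContinuousOn σ (Icc 0 T) := hσ.continuous.continuousOn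
  -- the arc-length parametrization
  have hArc : LipschitzWith 1 (arc 0 T σ) := lipschitz_arc hcσ hbv hT
  set V : ℝ → ℝ := variationOnFromTo σ (Icc 0 T) 0 with hV
  have hVim : V '' Icc 0 T = Icc 0 L := image_var hcσ hbv hT
  have hVc : ContinuousOn V (Icc 0 T) := continuousOn_var hcσ hbv hT
  have e1 : γ.lineIntegral ρ = ∫⁻ s in Icc 0 L, ρ (arc 0 T σ s) := by
    unfold Curve.lineIntegral
    apply setLIntegral_congr_fun measurableSet_Icc
    intro t ht
    simp only
    rw [arc_of_mem ht]
  rw [e1]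
  -- measurable extension of `V`
  set V' : ℝ → ℝ := fun t => V (projIcc 0 T hT t) with hV'
  have hV'c : Continuous V' := hVc.comp_continuous
    (continuous_subtype_val.comp continuous_projIcc) fun t => (projIcc 0 T hT t).2
  have hV'm : Measurable V' := hV'c.measurable
  have hle : volume.restrict (Icc 0 L) ≤ (volume.restrict (Icc 0 T)).map V' := by
    rw [Measure.le_iff]
    intro A hA
    rw [Measure.restrict_apply hA, Measure.map_apply hV'm hA, Measure.restrict_apply (hV'm hA)]
    have h2 : A ∩ Icc 0 L ⊆ V '' (V' ⁻¹' A ∩ Icc 0 T) := by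
      rintro s ⟨hsA, hs⟩
      rw [← hVim] at hs
      obtain ⟨t, ht, rfl⟩ := hs
      refine ⟨t, ⟨?_, ht⟩, rfl⟩
      simp only [mem_preimage, hV', projIcc_of_mem _ ht]
      exact hsA
    have h3 : LipschitzOnWith 1 V (V' ⁻¹' A ∩ Icc 0 T) := by
      intro x hx y hy
      rw [ENNReal.coe_one, one_mul]
      exact edist_var_le hσ hx.2 hy.2
    have h4 := h3.hausdorffMeasure_image_le (d := 1) zero_le_one
    rw [hausdorffMeasure_real] at h4
    simp only [ENNReal.coe_one, ENNReal.one_rpow, one_mul] at h4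
    exact (measure_mono h2).trans h4
  calc ∫⁻ s in Icc 0 L, ρ (arc 0 T σ s) ≤
        ∫⁻ s, ρ (arc 0 T σ s) ∂((volume.restrict (Icc 0 T)).map V') := lintegral_mono' hle le_rfl
    _ = ∫⁻ t in Icc 0 T, ρ (arc 0 T σ (V' t)) :=
      lintegral_map (hρ.comp hArc.continuous.measurable) hV'm
    _ = cost ρ T σ := by
      unfold cost
      apply setLIntegral_congr_fun measurableSet_Icc
      intro t ht
      simp only [hV', projIcc_of_mem _ ht]
      have hm : V t ∈ Icc 0 L := by rw [← hVim]; exact mem_image_of_mem _ ht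
      rw [arc_of_mem hm, natPar_var hbv ht]

end MPd4663a
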