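import Mathlib

/-!
# MP_d4663a_an: definitions

Curves in `ℝⁿ`, line integrals, conformal modulus, the families `Γ(F₁,F₂)` and `𝓕_σ(E)`,
and CNED sets, exactly as in the problem file.
-/

namespace MPd4663a

open MeasureTheory Set
open scoped ENNReal

/-- Euclidean space `ℝⁿ`. -/
abbrev Eu (n : ℕ) : Type := EuclideanSpace ℝ (Fin n)

/-- A curve: a continuous map from a compact interval `[a, b]` into `ℝⁿ`.  (It is represented by
a function on `ℝ`, only its values on `[a, b]` are ever used.) -/
structure Curve (n : ℕ) where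
  /-- left end of the parameter interval -/
  a : ℝ
  /-- right end of the parameter interval -/
  b : ℝ
  hab : a ≤ b
  /-- the parametrization -/
  toFun : ℝ → Eu n
  cont : ContinuousOn toFun (Icc a b)

namespace Curve

variable {n : ℕ} (γ : Curve n)

/-- The trace of a curve. -/
def trace : Set (Eu n) := γ.toFun '' Icc γ.a γ.b

/-- Initial point. -/
def start : Eu n := γ.toFun γ.a

/-- Terminal point. -/
def finish : Eu n := γ.toFun γ.b

/-- The length of a curve: the supremum of the lengths of inscribed polygons. -/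
noncomputable def length : ℝ≥0∞ := eVariationOn γ.toFun (Icc γ.a γ.b)

/-- A rectifiable curve: finite length (for curves on compact intervals this is the same as
locally rectifiable). -/
def Rectifiable : Prop := γ.length ≠ ∞

/-- The line integral `∫_γ ρ ds` along a rectifiable curve: the integral of `ρ` along the
arc-length parametrization of `γ` (Mathlib's `naturalParameterization`) over `[0, length γ]`. -/
noncomputable def lineIntegral (ρ : Eu n → ℝ≥0∞) : ℝ≥0∞ :=
  ∫⁻ s in Icc 0 γ.length.toReal, ρ (naturalParameterization γ.toFun (Icc γ.a γ.b) γ.a s)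

end Curve

variable {n : ℕ}

/-- `ρ` is admissible for the curve family `Γ`: it is a Borel function with values in `[0, ∞]`
and `∫_γ ρ ds ≥ 1` for all rectifiable `γ ∈ Γ`. -/
def Admissible (Γ : Set (Curve n)) (ρ : Eu n → ℝ≥0∞) : Prop :=
  Measurable ρ ∧ ∀ γ ∈ Γ, γ.Rectifiable → 1 ≤ γ.lineIntegral ρ

/-- The conformal modulus `mod_n Γ = inf_ρ ∫ ρⁿ dx`. -/
noncomputable def modulus (Γ : Set (Curve n)) : ℝ≥0∞ :=
  ⨅ (ρ : Eu n → ℝ≥0∞) (_ : Admissible Γ ρ), ∫⁻ x, ρ x ^ n

/-- `Γ(F₁, F₂)`: the curves joining `F₁` to `F₂`. -/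
def joining (F₁ F₂ : Set (Eu n)) : Set (Curve n) := {γ | γ.start ∈ F₁ ∧ γ.finish ∈ F₂}

/-- `𝓕_σ(E)`: the curves whose trace meets `E` in a countable set. -/
def Fsigma (E : Set (Eu n)) : Set (Curve n) := {γ | (γ.trace ∩ E).Countable}

/-- `E` is CNED: for all disjoint non-empty continua `F₁, F₂` (compact connected sets),
`mod_n Γ(F₁,F₂) = mod_n (Γ(F₁,F₂) ∩ 𝓕_σ(E))`. (`IsConnected` includes non-emptiness.) -/
def CNED (E : Set (Eu n)) : Prop :=
  ∀ F₁ F₂ : Set (Eu n), IsCompact F₁ → IsConnected F₁ → IsCompact F₂ → IsConnected F₂ →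
    Disjoint F₁ F₂ → modulus (joining F₁ F₂) = modulus (joining F₁ F₂ ∩ Fsigma E)

end MPd4663a
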