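import Pool.Agent.Lib.MP_d4663a_an.DichKey

/-!
# DICH, part 4: the gau and the main estimate
-/

namespace MPd4663a

open Set Filter Metric
open scoped ENNReal NNReal Topology

namespace Dich

/-- The gau with scales `r k`. -/
noncomputable def gau (c : ℝ) (r : ℕ → ℝ) (x : ℝ) : ℝ :=
  ∑' k : ℕ, c * (1 / 2) ^ k * min 1 (max x 0 / r k)

section gauSec
variable {c : ℝ} {r : ℕ → ℝ}

lemma term_nonneg (hc : 0 ≤ c) (hr : ∀ k, 0 < r k) (x : ℝ) (k : ℕ) :
    0 ≤ c * (1 / 2) ^ k * min 1 (max x 0 / r k) := by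
  have := hr k
  have h : 0 ≤ max x 0 / r k := div_nonneg (le_max_right _ _) this.le
  positivity

lemma term_le (hc : 0 ≤ c) (x : ℝ) (k : ℕ) :
    c * (1 / 2) ^ k * min 1 (max x 0 / r k) ≤ c * (1 / 2) ^ k := by
  have h : (0 : ℝ) ≤ c * (1 / 2) ^ k := by positivity
  calc c * (1 / 2) ^ k * min 1 (max x 0 / r k) ≤ c * (1 / 2) ^ k * 1 := by
        gcongr; exact min_le_left _ _
    _ = _ := mul_one _

lemma summable_bound : Summable (fun k : ℕ => c * (1 / 2 : ℝ) ^ k) :=
  (summable_geometric_two).mul_left c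

lemma summable_term (hc : 0 ≤ c) (hr : ∀ k, 0 < r k) (x : ℝ) :
    Summable (fun k : ℕ => c * (1 / 2) ^ k * min 1 (max x 0 / r k)) :=
  Summable.of_nonneg_of_le (term_nonneg hc hr x) (term_le hc x) summable_bound

lemma gau_nonneg (hc : 0 ≤ c) (hr : ∀ k, 0 < r k) (x : ℝ) : 0 ≤ gau c r x :=
  tsum_nonneg (term_nonneg hc hr x)

lemma gau_zero : gau c r 0 = 0 := by
  unfold gau
  simp

lemma gau_mono (hc : 0 ≤ c) (hr : ∀ k, 0 < r k) : Monotone (gau c r) := by
  intro x y hxy
  refine Summable.tsum_le_tsum (fun k => ?_) (summable_term hc hr x) (summable_term hc hr y)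
  have := hr k
  have h : max x 0 / r k ≤ max y 0 / r k := by gcongr
  have h2 : (0 : ℝ) ≤ c * (1 / 2) ^ k := by positivity
  gcongr

lemma gau_continuous (hc : 0 ≤ c) (hr : ∀ k, 0 < r k) : Continuous (gau c r) := by
  refine continuous_tsum (u := fun k : ℕ => c * (1 / 2 : ℝ) ^ k) (fun k => ?_) summable_bound ?_
  · fun_prop
  · intro k x
    rw [Real.norm_of_nonneg (term_nonneg hc hr x k)]
    exact term_le hc x k

lemma gau_tendsto (hc : 0 ≤ c) (hr : ∀ k, 0 < r k) : Tendsto (gau c r) (𝓝 0) (𝓝 0) := by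
  have := (gau_continuous hc hr).tendsto 0
  rwa [gau_zero] at this

lemma gau_sub (hc : 0 ≤ c) (hr : ∀ k, 0 < r k) (x y : ℝ) (hx : 0 ≤ x) (hy : 0 ≤ y) :
    gau c r (x + y) ≤ gau c r x + gau c r y := by
  unfold gau
  rw [← Summable.tsum_add (summable_term hc hr x) (summable_term hc hr y)]
  refine Summable.tsum_le_tsum (fun k => ?_) (summable_term hc hr _)
    ((summable_term hc hr x).add (summable_term hc hr y))
  have hk := hr k
  rw [← mul_add]
  have h2 : (0 : ℝ) ≤ c * (1 / 2) ^ k := by positivity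
  refine mul_le_mul_of_nonneg_left ?_ h2
  rw [max_eq_left hx, max_eq_left hy, max_eq_left (add_nonneg hx hy), add_div]
  have h3 : 0 ≤ x / r k := by positivity
  have h4 : 0 ≤ y / r k := by positivity
  rcases le_total (x / r k) 1 with h5 | h5 <;> rcases le_total (y / r k) 1 with h6 | h6
  · rw [min_eq_right h5, min_eq_right h6]; exact min_le_right _ _
  · rw [min_eq_left h6]; exact (min_le_left _ _).trans (by linarith [le_min zero_le_one h3])
  · rw [min_eq_left h5]; exact (min_le_left _ _).trans (by linarith [le_min zero_le_one h4])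
  · rw [min_eq_left h5, min_eq_left h6]; exact (min_le_left _ _).trans (by norm_num)

/-- a family with total at least `r k` has gau sum at least `c 2^{-k}` -/
lemma gau_sum (hc : 0 ≤ c) (hr : ∀ k, 0 < r k) (k : ℕ) {ι : Type*} (S : Finset ι) (x : ι → ℝ)
    (hx : ∀ i ∈ S, 0 ≤ x i) (h : r k ≤ ∑ i ∈ S, x i) :
    c * (1 / 2) ^ k ≤ ∑ i ∈ S, gau c r (x i) := by
  have hk := hr k
  have h1 : ∀ i ∈ S, c * (1 / 2) ^ k * min 1 (x i / r k) ≤ gau c r (x i) := by
    intro i hi
    have h2 := (summable_term hc hr (x i)).le_tsum k (fun j _ => term_nonneg hc hr (x i) j)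
    rw [max_eq_left (hx i hi)] at h2
    refine h2.trans (le_of_eq ?_)
    unfold gau
    rw [max_eq_left (hx i hi)]
  have h3 : 1 ≤ ∑ i ∈ S, min 1 (x i / r k) := by
    by_cases hex : ∃ i ∈ S, 1 ≤ x i / r k
    · obtain ⟨i, hi, hi1⟩ := hex
      calc (1 : ℝ) = min 1 (x i / r k) := (min_eq_left hi1).symm
        _ ≤ ∑ i ∈ S, min 1 (x i / r k) :=
            Finset.single_le_sum (f := fun i => min 1 (x i / r k))
              (fun i hi => le_min zero_le_one (div_nonneg (hx i hi) hk.le)) hi
    · push Not at hex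
      have : ∑ i ∈ S, min 1 (x i / r k) = ∑ i ∈ S, x i / r k :=
        Finset.sum_congr rfl fun i hi => min_eq_right (hex i hi).le
      rw [this, ← Finset.sum_div, le_div_iff₀ hk]
      linarith
  have h2 : (0 : ℝ) ≤ c * (1 / 2) ^ k := by positivity
  calc c * (1 / 2) ^ k = c * (1 / 2) ^ k * 1 := (mul_one _).symm
    _ ≤ c * (1 / 2) ^ k * ∑ i ∈ S, min 1 (x i / r k) := by gcongr
    _ = ∑ i ∈ S, c * (1 / 2) ^ k * min 1 (x i / r k) := by rw [Finset.mul_sum]
    _ ≤ _ := Finset.sum_le_sum h1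

end gauSec

/-- Reachability gives chains. -/
lemma reach_chain {X Z : Type} [PseudoMetricSpace Z] {ι : X → Z} {F₁ : Set X}
    {R : X → X → ℝ≥0 → Prop} {ω : ℝ → ℝ} (hω : ω 0 = 0) (hR0 : ∀ x, R x x 0) {x : X} {t : ℝ}
    (h : Reach ι F₁ R ω x t) : ∃ (N : ℕ) (s f : ℕ → X) (m : ℕ → ℝ≥0), f 0 ∈ F₁ ∧ s (N + 1) = x ∧
      (∀ k, 1 ≤ k → k ≤ N → R (s k) (f k) (m k)) ∧
      t = ((∑ k ∈ Finset.Icc 1 N, m k : ℝ≥0) : ℝ) +
        ∑ k ∈ Finset.range (N + 1), ω (dist (ι (f k)) (ι (s (k + 1)))) := by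
  classical
  induction h with
  | base x hx => exact ⟨0, fun _ => x, fun _ => x, fun _ => 0, hx, rfl, by omega, by simp [hω]⟩
  | step x y t m0 h hR ih =>
    obtain ⟨N, s, f, m, h1, h2, h3, h4⟩ := ih
    refine ⟨N + 1, Function.update s (N + 2) y, Function.update f (N + 1) y,
      Function.update m (N + 1) m0, ?_, ?_, ?_, ?_⟩
    · rw [Function.update_of_ne (by omega)]; exact h1
    · rw [Function.update_self]
    · intro k hk1 hk2
      rcases Nat.lt_or_ge N k with hk | hk
      · obtain rfl : k = N + 1 := by omega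
        rw [Function.update_of_ne (by omega), Function.update_self, Function.update_self, h2]
        exact hR
      · rw [Function.update_of_ne (by omega), Function.update_of_ne (by omega),
          Function.update_of_ne (by omega)]
        exact h3 k hk1 hk
    · have e1 : ∑ k ∈ Finset.Icc 1 (N + 1), Function.update m (N + 1) m0 k =
          ∑ k ∈ Finset.Icc 1 N, m k + m0 := by
        have : Finset.Icc 1 (N + 1) = insert (N + 1) (Finset.Icc 1 N) := by
          ext x; simp only [Finset.mem_Icc, Finset.mem_insert]; omega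
        rw [this, Finset.sum_insert (by simp), Function.update_self, add_comm]
        congr 1
        refine Finset.sum_congr rfl fun k hk => ?_
        rw [Finset.mem_Icc] at hk
        rw [Function.update_of_ne (by omega)]
      rw [e1, Finset.sum_range_succ, Function.update_self, Function.update_self, dist_self, hω,
        add_zero, h4]
      have e2 : ∑ k ∈ Finset.range (N + 1), ω (dist (ι (Function.update f (N + 1) y k))
          (ι (Function.update s (N + 2) y (k + 1)))) =
          ∑ k ∈ Finset.range (N + 1), ω (dist (ι (f k)) (ι (s (k + 1)))) := by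
        refine Finset.sum_congr rfl fun k hk => ?_
        rw [Finset.mem_range] at hk
        rw [Function.update_of_ne (by omega), Function.update_of_ne (by omega)]
      rw [e2]
      push_cast
      ring
  | jump x y t h ih =>
    obtain ⟨N, s, f, m, h1, h2, h3, h4⟩ := ih
    refine ⟨N + 1, Function.update s (N + 2) y, Function.update f (N + 1) x,
      Function.update m (N + 1) 0, ?_, ?_, ?_, ?_⟩
    · rw [Function.update_of_ne (by omega)]; exact h1
    · rw [Function.update_self]
    · intro k hk1 hk2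
      rcases Nat.lt_or_ge N k with hk | hk
      · obtain rfl : k = N + 1 := by omega
        rw [Function.update_of_ne (by omega), Function.update_self, Function.update_self, h2]
        exact hR0 x
      · rw [Function.update_of_ne (by omega), Function.update_of_ne (by omega),
          Function.update_of_ne (by omega)]
        exact h3 k hk1 hk
    · have e1 : ∑ k ∈ Finset.Icc 1 (N + 1), Function.update m (N + 1) 0 k =
          ∑ k ∈ Finset.Icc 1 N, m k := by
        have : Finset.Icc 1 (N + 1) = insert (N + 1) (Finset.Icc 1 N) := by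
          ext x; simp only [Finset.mem_Icc, Finset.mem_insert]; omega
        rw [this, Finset.sum_insert (by simp), Function.update_self, zero_add]
        refine Finset.sum_congr rfl fun k hk => ?_
        rw [Finset.mem_Icc] at hk
        rw [Function.update_of_ne (by omega)]
      rw [e1, Finset.sum_range_succ, Function.update_self, Function.update_self, h4]
      have e2 : ∑ k ∈ Finset.range (N + 1), ω (dist (ι (Function.update f (N + 1) x k))
          (ι (Function.update s (N + 2) y (k + 1)))) =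
          ∑ k ∈ Finset.range (N + 1), ω (dist (ι (f k)) (ι (s (k + 1)))) := by
        refine Finset.sum_congr rfl fun k hk => ?_
        rw [Finset.mem_range] at hk
        rw [Function.update_of_ne (by omega), Function.update_of_ne (by omega)]
      rw [e2]
      ring

end Dich

open Dich in
/-- DICH. -/
theorem specDich : SpecDich := by
  intro X Z _ _ _ ι C hinj hL Y hY hYm Λ hΛ F₁ F₂ hF₁ hF₂ c c' hc hcc hd R hR0 hR1 hR2
  -- the parameters
  have key := fun (q : {η : ℝ≥0 // 0 < η} × ℕ) =>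
    keyU ι C hinj hL Y hY hYm Λ hΛ F₁ F₂ hF₁ hF₂ c R hR1 hR2 q.1.1 q.1.2 q.2
  choose rr ηη jj hrr hηη hkey using key
  have hpos : 0 < c' - c := tsub_pos_of_lt hcc
  let st : ℕ → {η : ℝ≥0 // 0 < η} × ℕ := fun k =>
    Nat.rec (⟨⟨c' - c, hpos⟩, 0⟩) (fun _ q => ⟨⟨ηη q, hηη q⟩, jj q⟩) k
  have hst : ∀ k, st (k + 1) = ⟨⟨ηη (st k), hηη (st k)⟩, jj (st k)⟩ := fun k => rfl
  let r : ℕ → ℝ := fun k => rr (st k)
  have hr : ∀ k, 0 < r k := fun k => hrr _
  have hc0 : (0 : ℝ) ≤ c := NNReal.coe_nonneg _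
  refine ⟨gau c r, gau_zero, gau_nonneg hc0 hr, gau_mono hc0 hr, gau_tendsto hc0 hr,
    fun x y hx hy => gau_sub hc0 hr x y hx hy, ?_⟩
  intro x hx t hreach
  obtain ⟨N, s, f, m, h1, h2, h3, rfl⟩ := reach_chain gau_zero hR0 hreach
  have hgn : 0 ≤ ∑ k ∈ Finset.range (N + 1), gau c r (dist (ι (f k)) (ι (s (k + 1)))) :=
    Finset.sum_nonneg fun _ _ => gau_nonneg hc0 hr _
  rcases le_or_gt c (∑ k ∈ Finset.Icc 1 N, m k) with hcm | hcm
  · have : (c : ℝ) ≤ ((∑ k ∈ Finset.Icc 1 N, m k : ℝ≥0) : ℝ) := by exact_mod_cast hcm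
    linarith
  have hch : IsChain F₁ F₂ R N s f m := ⟨h1, by rw [h2]; exact hx, h3⟩
  -- main induction
  have main : ∀ n k A B, B - A ≤ n → A < B → A ∈ Vis Y N s f (st k).2 →
      B ∈ Vis Y N s f (st k).2 → Ex (DD F₁ F₂ N s f) m A B (st k).1.1 →
      (c : ℝ) * (1 / 2) ^ k ≤
        ∑ i ∈ Finset.Ico A B, gau c r (dist (ι (f i)) (ι (s (i + 1)))) := by
    intro n
    induction n with
    | zero => intro k A B h1 h2; omega
    | succ n ih =>
      intro k A B hn hAB hA hB hE
      rcases lt_or_ge (∑ i ∈ Finset.Ico A B, dist (ι (f i)) (ι (s (i + 1)))) (r k) with hJ | hJ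
      · obtain ⟨a1, b1, a2, b2, ha1, hb1, ha2, hb2, g1, g2, g3, g4, g5, hE1, hE2⟩ :=
          hkey (st k) N s f m hch hcm.le A B hAB hA hB hE hJ
        have i1 := ih (k + 1) a1 b1 (by omega) g2 ha1 hb1 hE1
        have i2 := ih (k + 1) a2 b2 (by omega) g4 ha2 hb2 hE2
        have hdis : Disjoint (Finset.Ico a1 b1) (Finset.Ico a2 b2) := by
          rw [Finset.disjoint_left]
          intro x
          simp only [Finset.mem_Ico]
          omega
        calc (c : ℝ) * (1 / 2) ^ k = c * (1 / 2) ^ (k + 1) + c * (1 / 2) ^ (k + 1) := by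
              rw [pow_succ]; ring
          _ ≤ ∑ i ∈ Finset.Ico a1 b1, gau c r (dist (ι (f i)) (ι (s (i + 1)))) +
              ∑ i ∈ Finset.Ico a2 b2, gau c r (dist (ι (f i)) (ι (s (i + 1)))) :=
              add_le_add i1 i2
          _ = ∑ i ∈ Finset.Ico a1 b1 ∪ Finset.Ico a2 b2,
              gau c r (dist (ι (f i)) (ι (s (i + 1)))) := (Finset.sum_union hdis).symm
          _ ≤ _ := by
              refine Finset.sum_le_sum_of_subset_of_nonneg ?_
                (fun _ _ _ => gau_nonneg hc0 hr _)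
              intro x
              simp only [Finset.mem_Ico, Finset.mem_union]
              omega
      · exact gau_sum hc0 hr k _ _ (fun _ _ => dist_nonneg) hJ
  have h0 : Ex (DD F₁ F₂ N s f) m 0 (N + 1) (st 0).1.1 := by
    show ((Sm m 0 (N + 1) : ℝ≥0) : ℝ≥0∞) + ((c' - c : ℝ≥0) : ℝ≥0∞) ≤ DD F₁ F₂ N s f 0 (N + 1)
    have hSm : Sm m 0 (N + 1) = ∑ k ∈ Finset.Icc 1 N, m k := by
      unfold Sm
      have : Finset.Ioo 0 (N + 1) = Finset.Icc 1 N := by
        ext x
        simp only [Finset.mem_Ioo, Finset.mem_Icc]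
        omega
      rw [this]
    have h5 : (c' : ℝ≥0∞) ≤ DD F₁ F₂ N s f 0 (N + 1) := by
      unfold DD Rs Ls
      rw [if_pos rfl, if_pos rfl]
      refine le_iInf₂ fun y hy => ?_
      rw [le_infEDist]
      intro x hx
      rw [edist_comm]
      exact hd x hx y hy
    refine le_trans ?_ h5
    rw [hSm]
    have : ∑ k ∈ Finset.Icc 1 N, m k + (c' - c) ≤ c' := by
      calc ∑ k ∈ Finset.Icc 1 N, m k + (c' - c) ≤ c + (c' - c) := by gcongr
        _ = c' := add_tsub_cancel_of_le hcc.le
    exact_mod_cast this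
  have h6 := main (N + 1) 0 0 (N + 1) (by omega) (by omega) (Or.inl rfl) (Or.inr (Or.inl rfl)) h0
  rw [pow_zero, mul_one] at h6
  have h7 : Finset.Ico 0 (N + 1) = Finset.range (N + 1) := by
    ext x; simp
  rw [h7] at h6
  have h8 : (0 : ℝ) ≤ ((∑ k ∈ Finset.Icc 1 N, m k : ℝ≥0) : ℝ) := NNReal.coe_nonneg _
  linarith

end MPd4663a
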