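import Pool.Agent.Lib.MP_d4663a_an.Spec

/-!
# DICH, part 2: combinatorics of the visible steps
-/

namespace MPd4663a
namespace Dich

open Set Filter Metric
open scoped ENNReal NNReal Topology

/-- total cost strictly between `a` and `b` -/
def Sm (m : ℕ → ℝ≥0) (a b : ℕ) : ℝ≥0 := ∑ k ∈ Finset.Ioo a b, m k

lemma Sm_split {m : ℕ → ℝ≥0} {a v b : ℕ} (h1 : a < v) (h2 : v < b) :
    Sm m a b = Sm m a v + m v + Sm m v b := by
  unfold Sm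
  have h : Finset.Ioo a b = (Finset.Ioo a v ∪ {v}) ∪ Finset.Ioo v b := by
    ext x
    simp only [Finset.mem_Ioo, Finset.mem_union, Finset.mem_singleton]
    omega
  rw [h, Finset.sum_union, Finset.sum_union, Finset.sum_singleton]
  · rw [Finset.disjoint_left]
    intro x
    simp only [Finset.mem_Ioo, Finset.mem_singleton]
    omega
  · rw [Finset.disjoint_left]
    intro x
    simp only [Finset.mem_Ioo, Finset.mem_union, Finset.mem_singleton]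
    omega

/-- excess at least `η` -/
def Ex (D : ℕ → ℕ → ℝ≥0∞) (m : ℕ → ℝ≥0) (a b : ℕ) (η : ℝ≥0) : Prop :=
  (Sm m a b : ℝ≥0∞) + η ≤ D a b

variable {D : ℕ → ℕ → ℝ≥0∞} {m : ℕ → ℝ≥0} {M : ℕ}

lemma trim_left (hsub : ∀ a v b, a < v → v < b → b ≤ M → D a b ≤ D a v + m v + D v b)
    {A a B : ℕ} {θ : ℝ≥0} {ξ ζ : ℝ≥0∞} (hA : A < a) (hB : a < B) (hBM : B ≤ M)
    (h : D A a ≤ Sm m A a + θ) (hE : (Sm m A B : ℝ≥0∞) + ξ ≤ D A B + ζ) :
    (Sm m a B : ℝ≥0∞) + ξ ≤ D a B + (θ + ζ) := by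
  have h1 := hsub A a B hA hB hBM
  have h2 : (Sm m A B : ℝ≥0∞) = (Sm m A a + m a : ℝ≥0) + Sm m a B := by
    rw [Sm_split hA hB]; push_cast; ring
  have h3 : ((Sm m A a + m a : ℝ≥0) : ℝ≥0∞) + (Sm m a B + ξ) ≤
      ((Sm m A a + m a : ℝ≥0) : ℝ≥0∞) + (D a B + (θ + ζ)) := by
    calc ((Sm m A a + m a : ℝ≥0) : ℝ≥0∞) + (Sm m a B + ξ) = Sm m A B + ξ := by
          rw [h2, add_assoc]
      _ ≤ D A B + ζ := hE
      _ ≤ (D A a + m a + D a B) + ζ := by gcongr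
      _ ≤ (Sm m A a + θ + m a + D a B) + ζ := by gcongr
      _ = ((Sm m A a + m a : ℝ≥0) : ℝ≥0∞) + (D a B + (θ + ζ)) := by push_cast; ring
  exact (ENNReal.add_le_add_iff_left ENNReal.coe_ne_top).1 h3

lemma trim_right (hsub : ∀ a v b, a < v → v < b → b ≤ M → D a b ≤ D a v + m v + D v b)
    {A b B : ℕ} {θ : ℝ≥0} {ξ ζ : ℝ≥0∞} (hA : A < b) (hB : b < B) (hBM : B ≤ M)
    (h : D b B ≤ Sm m b B + θ) (hE : (Sm m A B : ℝ≥0∞) + ξ ≤ D A B + ζ) :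
    (Sm m A b : ℝ≥0∞) + ξ ≤ D A b + (θ + ζ) := by
  have h1 := hsub A b B hA hB hBM
  have h2 : (Sm m A B : ℝ≥0∞) = (Sm m b B + m b : ℝ≥0) + Sm m A b := by
    rw [Sm_split hA hB]; push_cast; ring
  have h3 : ((Sm m b B + m b : ℝ≥0) : ℝ≥0∞) + (Sm m A b + ξ) ≤
      ((Sm m b B + m b : ℝ≥0) : ℝ≥0∞) + (D A b + (θ + ζ)) := by
    calc ((Sm m b B + m b : ℝ≥0) : ℝ≥0∞) + (Sm m A b + ξ) = Sm m A B + ξ := by
          rw [h2, add_assoc]
      _ ≤ D A B + ζ := hE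
      _ ≤ (D A b + m b + D b B) + ζ := by gcongr
      _ ≤ (D A b + m b + (Sm m b B + θ)) + ζ := by gcongr
      _ = ((Sm m b B + m b : ℝ≥0) : ℝ≥0∞) + (D A b + (θ + ζ)) := by push_cast; ring
  exact (ENNReal.add_le_add_iff_left ENNReal.coe_ne_top).1 h3

lemma trim (hsub : ∀ a v b, a < v → v < b → b ≤ M → D a b ≤ D a v + m v + D v b)
    {A a b B : ℕ} {θ η : ℝ≥0} (hab : a < b) (hBM : B ≤ M)
    (hA : A = a ∨ (A < a ∧ D A a ≤ Sm m A a + θ)) (hB : b = B ∨ (b < B ∧ D b B ≤ Sm m b B + θ))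
    (hE : (Sm m A B : ℝ≥0∞) + η ≤ D A B) : (Sm m a b : ℝ≥0∞) + η ≤ D a b + 2 * θ := by
  have hE0 : (Sm m A B : ℝ≥0∞) + η ≤ D A B + 0 := by simpa using hE
  rcases hA with rfl | ⟨hA, hA'⟩ <;> rcases hB with rfl | ⟨hB, hB'⟩
  · exact hE.trans (le_self_add)
  · refine (trim_right hsub hab hB hBM hB' hE0).trans ?_
    rw [add_zero]
    gcongr
    calc (θ : ℝ≥0∞) = 1 * θ := (one_mul _).symm
      _ ≤ 2 * θ := by gcongr; norm_num
  · refine (trim_left hsub hA hab hBM hA' hE0).trans ?_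
    rw [add_zero]
    gcongr
    calc (θ : ℝ≥0∞) = 1 * θ := (one_mul _).symm
      _ ≤ 2 * θ := by gcongr; norm_num
  · have h1 := trim_left hsub hA (hab.trans hB) hBM hA' hE0
    rw [add_zero] at h1
    refine (trim_right hsub hab hB hBM hB' h1).trans (le_of_eq ?_)
    ring

/-- consecutive elements of `V` at which `P` switches on -/
lemma exists_consec (V : Set ℕ) {A B : ℕ} (hA : A ∈ V) (hB : B ∈ V) (P : ℕ → Prop)
    (hP : ∀ v, P v → A < v) (hPB : P B) :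
    ∃ a ∈ V, ∃ b ∈ V, A ≤ a ∧ a < b ∧ b ≤ B ∧ (∀ v ∈ V, a < v → v < b → False) ∧ ¬ P a ∧
      P b := by
  classical
  have hex : ∃ v, v ∈ V ∧ P v := ⟨B, hB, hPB⟩
  set b := Nat.find hex with hb
  have hbspec : b ∈ V ∧ P b := Nat.find_spec hex
  have hmin : ∀ v, v < b → ¬ (v ∈ V ∧ P v) := fun v hv => Nat.find_min hex hv
  have hbB : b ≤ B := Nat.find_min' hex ⟨hB, hPB⟩
  have hAb : A < b := hP b hbspec.2
  set a := Nat.findGreatest (fun v => v ∈ V) (b - 1) with ha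
  have haV : a ∈ V := Nat.findGreatest_spec (P := fun v => v ∈ V) (m := A) (by omega) hA
  have hAa : A ≤ a := Nat.le_findGreatest (by omega) hA
  have hab : a ≤ b - 1 := Nat.findGreatest_le _
  refine ⟨a, haV, b, hbspec.1, hAa, by omega, hbB, ?_, ?_, hbspec.2⟩
  · intro v hv h1 h2
    have := Nat.le_findGreatest (P := fun v => v ∈ V) (n := b - 1) (m := v) (by omega) hv
    omega
  · intro h
    exact hmin a (by omega) ⟨haV, h⟩

/-- The core consecutive pair. -/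
lemma core (hsub : ∀ a v b, a < v → v < b → b ≤ M → D a b ≤ D a v + m v + D v b)
    (V : Set ℕ) {A B : ℕ} (hA : A ∈ V) (hB : B ∈ V) (hAB : A < B) (hBM : B ≤ M)
    {η θ : ℝ≥0} (h3 : 3 * θ ≤ η) (hE : Ex D m A B η)
    (hno : ∀ a1 b1 a2 b2, a1 ∈ V → b1 ∈ V → a2 ∈ V → b2 ∈ V → A ≤ a1 → a1 < b1 → b1 ≤ a2 →
      a2 < b2 → b2 ≤ B → Ex D m a1 b1 θ → ¬ Ex D m a2 b2 θ) :
    ∃ a ∈ V, ∃ b ∈ V, A ≤ a ∧ a < b ∧ b ≤ B ∧ (∀ v ∈ V, a < v → v < b → False) ∧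
      (∀ a1 ∈ V, ∀ b1 ∈ V, A ≤ a1 → a1 < b1 → b1 ≤ a → D a1 b1 ≤ Sm m a1 b1 + θ) ∧
      (∀ a1 ∈ V, ∀ b1 ∈ V, b ≤ a1 → a1 < b1 → b1 ≤ B → D a1 b1 ≤ Sm m a1 b1 + θ) := by
  have hθη : θ ≤ η := le_trans (by
    calc θ = 1 * θ := (one_mul _).symm
      _ ≤ 3 * θ := by gcongr; norm_num) h3
  obtain ⟨a, haV, b, hbV, hAa, hab, hbB, hcon, hPa, hPb⟩ :=
    exists_consec V hA hB (fun v => A < v ∧ Ex D m A v θ) (fun v hv => hv.1)
      ⟨hAB, le_trans (by gcongr) hE⟩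
  have hl : A = a ∨ (A < a ∧ D A a ≤ Sm m A a + θ) := by
    rcases hAa.eq_or_lt with h | h
    · exact Or.inl h
    · refine Or.inr ⟨h, ?_⟩
      by_contra hlt
      exact hPa ⟨h, (not_le.1 hlt).le⟩
  have hr : b = B ∨ (b < B ∧ D b B ≤ Sm m b B + θ) := by
    rcases hbB.eq_or_lt with h | h
    · exact Or.inl h
    · refine Or.inr ⟨h, ?_⟩
      by_contra hlt
      exact hno A b b B hA hbV hbV hB le_rfl hPb.1 le_rfl h le_rfl hPb.2 (not_le.1 hlt).le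
  have hex := trim hsub hab hBM hl hr hE
  have hexab : Ex D m a b θ := by
    have h1 : (Sm m a b : ℝ≥0∞) + θ + 2 * θ ≤ D a b + 2 * θ := by
      calc (Sm m a b : ℝ≥0∞) + θ + 2 * θ = Sm m a b + ((3 * θ : ℝ≥0) : ℝ≥0∞) := by
            push_cast; ring
        _ ≤ Sm m a b + η := by gcongr
        _ ≤ D a b + 2 * θ := hex
    exact (ENNReal.add_le_add_iff_right (by finiteness)).1 h1
  refine ⟨a, haV, b, hbV, hAa, hab, hbB, hcon, ?_, ?_⟩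
  · intro a1 ha1 b1 hb1 h1 h2 h3
    by_contra hlt
    exact hno a1 b1 a b ha1 hb1 haV hbV h1 h2 h3 hab hbB (not_le.1 hlt).le hexab
  · intro a1 ha1 b1 hb1 h1 h2 h3
    by_contra hlt
    exact hno a b a1 b1 haV hbV ha1 hb1 hAa hab h1 h2 h3 hexab (not_le.1 hlt).le

/-- The nested approximating pairs of lower levels. -/
lemma levels (hsub : ∀ a v b, a < v → v < b → b ≤ M → D a b ≤ D a v + m v + D v b)
    (V : ℕ → Set ℕ) (hV : Monotone V) {j t : ℕ} {A B : ℕ} (hA : A ∈ V j) (hB : B ∈ V j)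
    (hjt : j ≤ t) (hAB : A < B) (hBM : B ≤ M)
    {η θ : ℝ≥0} (h3 : 3 * θ ≤ η) (hE : Ex D m A B η)
    (hno : ∀ a1 b1 a2 b2, a1 ∈ V t → b1 ∈ V t → a2 ∈ V t → b2 ∈ V t → A ≤ a1 → a1 < b1 →
      b1 ≤ a2 → a2 < b2 → b2 ≤ B → Ex D m a1 b1 θ → ¬ Ex D m a2 b2 θ) :
    ∃ a b : ℕ → ℕ, ∀ i, j ≤ i → i ≤ t → a i ∈ V i ∧ b i ∈ V i ∧ A ≤ a i ∧ a i < b i ∧ b i ≤ B ∧
      (∀ k, a i < k → k < b i → k ∉ V i) ∧ ((η : ℝ≥0∞) ≤ D (a i) (b i) + 2 * θ) ∧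
      ∀ i', i ≤ i' → i' ≤ t → a i ≤ a i' ∧ b i' ≤ b i ∧
        (a i < a i' → D (a i) (a i') ≤ Sm m (a i) (a i') + θ) ∧
        (b i' < b i → D (b i') (b i) ≤ Sm m (b i') (b i) + θ) := by
  classical
  obtain ⟨a, haV, b, hbV, hAa, hab, hbB, hcon, hL, hR⟩ :=
    core hsub (V t) (hV hjt hA) (hV hjt hB) hAB hBM h3 hE hno
  set α : ℕ → ℕ := fun i => Nat.findGreatest (fun v => v ∈ V i) a with hα
  set β : ℕ → ℕ := fun i => if h : ∃ v, v ∈ V i ∧ b ≤ v then Nat.find h else 0 with hβ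
  have hα1 : ∀ i, j ≤ i → α i ∈ V i := fun i hi =>
    Nat.findGreatest_spec (P := fun v => v ∈ V i) (m := A) hAa (hV hi hA)
  have hα2 : ∀ i, j ≤ i → A ≤ α i := fun i hi => Nat.le_findGreatest hAa (hV hi hA)
  have hα3 : ∀ i, α i ≤ a := fun i => Nat.findGreatest_le _
  have hα4 : ∀ i v, v ∈ V i → v ≤ a → v ≤ α i := fun i v hv h => Nat.le_findGreatest h hv
  have hex : ∀ i, j ≤ i → ∃ v, v ∈ V i ∧ b ≤ v := fun i hi => ⟨B, hV hi hB, hbB⟩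
  have hβeq : ∀ i (hi : j ≤ i), β i = Nat.find (hex i hi) := fun i hi => by
    simp only [hβ]; rw [dif_pos (hex i hi)]
  have hβ1 : ∀ i, j ≤ i → β i ∈ V i := fun i hi => by
    rw [hβeq i hi]; exact (Nat.find_spec (hex i hi)).1
  have hβ2 : ∀ i, j ≤ i → b ≤ β i := fun i hi => by
    rw [hβeq i hi]; exact (Nat.find_spec (hex i hi)).2
  have hβ3 : ∀ i, j ≤ i → β i ≤ B := fun i hi => by
    rw [hβeq i hi]; exact Nat.find_min' (hex i hi) ⟨hV hi hB, hbB⟩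
  have hβ4 : ∀ i v, j ≤ i → v ∈ V i → b ≤ v → β i ≤ v := fun i v hi hv h => by
    rw [hβeq i hi]; exact Nat.find_min' (hex i hi) ⟨hv, h⟩
  refine ⟨α, β, fun i hi hit => ?_⟩
  have hlt : α i < β i := lt_of_le_of_lt (hα3 i) (lt_of_lt_of_le hab (hβ2 i hi))
  refine ⟨hα1 i hi, hβ1 i hi, hα2 i hi, hlt, hβ3 i hi, ?_, ?_, ?_⟩
  · intro k h1 h2 hk
    rcases le_or_gt k a with h | h
    · exact absurd (hα4 i k hk h) (by omega)
    · rcases le_or_gt b k with h' | h'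
      · exact absurd (hβ4 i k hi hk h') (by omega)
      · exact hcon k (hV hit hk) h h'
  · have hl : A = α i ∨ (A < α i ∧ D A (α i) ≤ Sm m A (α i) + θ) := by
      rcases (hα2 i hi).eq_or_lt with h | h
      · exact Or.inl h
      · exact Or.inr ⟨h, hL A (hV hjt hA) (α i) (hV hit (hα1 i hi)) le_rfl h (hα3 i)⟩
    have hr : β i = B ∨ (β i < B ∧ D (β i) B ≤ Sm m (β i) B + θ) := by
      rcases (hβ3 i hi).eq_or_lt with h | h
      · exact Or.inl h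
      · exact Or.inr ⟨h, hR (β i) (hV hit (hβ1 i hi)) B (hV hjt hB) (hβ2 i hi) h le_rfl⟩
    exact le_trans le_add_self (trim hsub hlt hBM hl hr hE)
  · intro i' hi' hi't
    have hji' : j ≤ i' := hi.trans hi'
    refine ⟨hα4 i' _ (hV hi' (hα1 i hi)) (hα3 i), hβ4 i' _ hji' (hV hi' (hβ1 i hi)) (hβ2 i hi),
      ?_, ?_⟩
    · intro h
      exact hL _ (hV hit (hα1 i hi)) _ (hV hi't (hα1 i' hji')) (hα2 i hi) h (hα3 i')
    · intro h
      exact hR _ (hV hi't (hβ1 i' hji')) _ (hV hit (hβ1 i hi)) (hβ2 i' hji') h (hβ3 i hi)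

end Dich
end MPd4663a
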