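import Pool.Agent.Lib.MP_d4663a_an.DichSide
import Pool.Agent.Lib.MP_d4663a_an.DichComb

/-!
# DICH, part 3: the key splitting lemma
-/

namespace MPd4663a
namespace Dich

open Set Filter Metric
open scoped ENNReal NNReal Topology

variable {X Z : Type} [PseudoEMetricSpace X] [MetricSpace Z]

/-- A chain from `F₁` to `F₂` with `N` steps. -/
structure IsChain (F₁ F₂ : Set X) (R : X → X → ℝ≥0 → Prop) (N : ℕ) (s f : ℕ → X)
    (m : ℕ → ℝ≥0) : Prop where
  start : f 0 ∈ F₁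
  fin : s (N + 1) ∈ F₂
  step : ∀ k, 1 ≤ k → k ≤ N → R (s k) (f k) (m k)

/-- visible indices -/
def Vis (Y : ℕ → Set X) (N : ℕ) (s f : ℕ → X) (i : ℕ) : Set ℕ :=
  {k | k = 0 ∨ k = N + 1 ∨ (1 ≤ k ∧ k ≤ N ∧ s k ∈ Y i ∧ f k ∈ Y i)}

/-- left ends -/
def Ls (F₁ : Set X) (f : ℕ → X) (a : ℕ) : Set X := if a = 0 then F₁ else {f a}

/-- right ends -/
def Rs (F₂ : Set X) (N : ℕ) (s : ℕ → X) (b : ℕ) : Set X := if b = N + 1 then F₂ else {s b}

/-- distance between the ends -/
noncomputable def DD (F₁ F₂ : Set X) (N : ℕ) (s f : ℕ → X) (a b : ℕ) : ℝ≥0∞ :=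
  ⨅ y ∈ Rs F₂ N s b, infEDist y (Ls F₁ f a)

omit [PseudoEMetricSpace X] [MetricSpace Z] in
lemma Vis_mono {Y : ℕ → Set X} (hY : Monotone Y) (N : ℕ) (s f : ℕ → X) :
    Monotone (Vis Y N s f) := by
  intro i i' h k hk
  rcases hk with hk | hk | ⟨h1, h2, h3, h4⟩
  · exact Or.inl hk
  · exact Or.inr (Or.inl hk)
  · exact Or.inr (Or.inr ⟨h1, h2, hY h h3, hY h h4⟩)

omit [PseudoEMetricSpace X] [MetricSpace Z] in
lemma Vis_le {Y : ℕ → Set X} {N : ℕ} {s f : ℕ → X} {i k : ℕ} (hk : k ∈ Vis Y N s f i) :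
    k ≤ N + 1 := by
  rcases hk with hk | hk | ⟨h1, h2, h3, h4⟩ <;> omega

omit [MetricSpace Z] in
lemma DD_sub {F₁ F₂ : Set X} {R : X → X → ℝ≥0 → Prop} (hR1 : ∀ x y m, R x y m → edist x y ≤ m)
    {N : ℕ} {s f : ℕ → X} {m : ℕ → ℝ≥0} (hch : IsChain F₁ F₂ R N s f m) (a v b : ℕ)
    (h1 : a < v) (h2 : v < b) (h3 : b ≤ N + 1) :
    DD F₁ F₂ N s f a b ≤ DD F₁ F₂ N s f a v + m v + DD F₁ F₂ N s f v b := by
  have hv0 : v ≠ 0 := by omega
  have hvN : v ≠ N + 1 := by omega
  have hav : DD F₁ F₂ N s f a v = infEDist (s v) (Ls F₁ f a) := by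
    unfold DD Rs
    rw [if_neg hvN]
    simp
  have hstep : edist (s v) (f v) ≤ m v := hR1 _ _ _ (hch.step v (by omega) (by omega))
  rw [hav]
  rw [← tsub_le_iff_left]
  refine le_iInf₂ fun y hy => ?_
  rw [tsub_le_iff_left]
  have hLv : Ls F₁ f v = {f v} := by unfold Ls; rw [if_neg hv0]
  rw [hLv, infEDist_singleton]
  calc DD F₁ F₂ N s f a b ≤ infEDist y (Ls F₁ f a) := iInf₂_le y hy
    _ ≤ infEDist (f v) (Ls F₁ f a) + edist y (f v) := infEDist_le_infEDist_add_edist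
    _ ≤ (infEDist (s v) (Ls F₁ f a) + edist (f v) (s v)) + edist y (f v) := by
        gcongr; exact infEDist_le_infEDist_add_edist
    _ ≤ (infEDist (s v) (Ls F₁ f a) + m v) + edist y (f v) := by
        gcongr; rw [edist_comm]; exact hstep

omit [PseudoEMetricSpace X] in
lemma geo (ι : X → Z) (s f : ℕ → X) (a b : ℕ) (hab : a < b) :
    dist (ι (f a)) (ι (s b)) ≤ ∑ k ∈ Finset.Ico a b, dist (ι (f k)) (ι (s (k + 1))) +
      ∑ k ∈ Finset.Ioo a b, dist (ι (s k)) (ι (f k)) := by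
  induction b, hab using Nat.le_induction with
  | base =>
    have h1 : Finset.Ico a (a + 1) = {a} := by ext; simp
    have h2 : Finset.Ioo a (a + 1) = ∅ := by
      ext x; simp only [Finset.mem_Ioo, Finset.notMem_empty, iff_false]; omega
    have : a.succ = a + 1 := rfl
    rw [this, h1, h2]
    simp
  | succ b hab ih =>
    have h1 : Finset.Ico a (b + 1) = insert b (Finset.Ico a b) := by
      ext x; simp only [Finset.mem_Ico, Finset.mem_insert]; omega
    have h2 : Finset.Ioo a (b + 1) = insert b (Finset.Ioo a b) := by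
      ext x; simp only [Finset.mem_Ioo, Finset.mem_insert]; omega
    rw [h1, h2, Finset.sum_insert (by simp), Finset.sum_insert (by simp)]
    have h3 : dist (ι (f a)) (ι (s (b + 1))) ≤ dist (ι (f a)) (ι (s b)) +
        dist (ι (s b)) (ι (f b)) + dist (ι (f b)) (ι (s (b + 1))) := dist_triangle4 _ _ _ _
    linarith

/-- total cost of an initial or terminal segment, real valued -/
lemma sum_sub_le {m : ℕ → ℝ≥0} {N : ℕ} {c : ℝ≥0} (hc : ∑ k ∈ Finset.Icc 1 N, m k ≤ c)
    {S : Finset ℕ} (hS : S ⊆ Finset.Icc 1 N) : ∑ k ∈ S, m k ≤ c :=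
  (Finset.sum_le_sum_of_subset hS).trans hc

variable [CompleteSpace X]

/-- The key splitting lemma (U). -/
lemma keyU (ι : X → Z) (C : ℝ≥0) (hinj : Function.Injective ι) (hL : LipschitzWith C ι)
    (Y : ℕ → Set X) (hY : ∀ i, IsCompact (Y i)) (hYm : Monotone Y)
    (Λ : ℕ → ℝ≥0) (hΛ : Tendsto Λ atTop atTop)
    (F₁ F₂ : Set X) (hF₁ : IsCompact (ι '' F₁)) (hF₂ : IsCompact (ι '' F₂))
    (c : ℝ≥0) (R : X → X → ℝ≥0 → Prop)
    (hR1 : ∀ x y m, R x y m → edist x y ≤ m)
    (hR2 : ∀ x y m, R x y m → m ≤ c →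
      ∀ i, (x ∈ Y i ∧ y ∈ Y i) ∨ Λ i * dist (ι x) (ι y) ≤ m)
    (η : ℝ≥0) (hη : 0 < η) (j : ℕ) :
    ∃ (r : ℝ) (η' : ℝ≥0) (j' : ℕ), 0 < r ∧ 0 < η' ∧ ∀ (N : ℕ) (s f : ℕ → X) (m : ℕ → ℝ≥0),
      IsChain F₁ F₂ R N s f m → ∑ k ∈ Finset.Icc 1 N, m k ≤ c → ∀ A B, A < B →
      A ∈ Vis Y N s f j → B ∈ Vis Y N s f j → Ex (DD F₁ F₂ N s f) m A B η →
      ∑ k ∈ Finset.Ico A B, dist (ι (f k)) (ι (s (k + 1))) < r →
      ∃ a1 b1 a2 b2, a1 ∈ Vis Y N s f j' ∧ b1 ∈ Vis Y N s f j' ∧ a2 ∈ Vis Y N s f j' ∧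
        b2 ∈ Vis Y N s f j' ∧ A ≤ a1 ∧ a1 < b1 ∧ b1 ≤ a2 ∧ a2 < b2 ∧ b2 ≤ B ∧
        Ex (DD F₁ F₂ N s f) m a1 b1 η' ∧ Ex (DD F₁ F₂ N s f) m a2 b2 η' := by
  by_contra hcon
  -- the counterexample chains
  have hθ0 : ∀ t : ℕ, (0 : ℝ≥0) < min (η / 3) (1 / ((t : ℝ≥0) + 1)) := fun t => by positivity
  have hr0 : ∀ t : ℕ, (0 : ℝ) < 1 / ((t : ℝ) + 1) := fun t => by positivity
  have hch : ∀ t : ℕ, ∃ (N : ℕ) (s f : ℕ → X) (m : ℕ → ℝ≥0) (A B : ℕ) (a b : ℕ → ℕ),
      IsChain F₁ F₂ R N s f m ∧ ∑ k ∈ Finset.Icc 1 N, m k ≤ c ∧ A < B ∧ B ≤ N + 1 ∧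
      ∑ k ∈ Finset.Ico A B, dist (ι (f k)) (ι (s (k + 1))) < 1 / ((t : ℝ) + 1) ∧
      ∀ i, j ≤ i → i ≤ j + t → a i ∈ Vis Y N s f i ∧ b i ∈ Vis Y N s f i ∧ A ≤ a i ∧
      a i < b i ∧ b i ≤ B ∧
      (∀ k, a i < k → k < b i → k ∉ Vis Y N s f i) ∧
      ((η : ℝ≥0∞) ≤ DD F₁ F₂ N s f (a i) (b i) +
        2 * (min (η / 3) (1 / ((t : ℝ≥0) + 1)) : ℝ≥0)) ∧
      ∀ i', i ≤ i' → i' ≤ j + t → a i ≤ a i' ∧ b i' ≤ b i ∧
        (a i < a i' → DD F₁ F₂ N s f (a i) (a i') ≤ Sm m (a i) (a i') +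
          (min (η / 3) (1 / ((t : ℝ≥0) + 1)) : ℝ≥0)) ∧
        (b i' < b i → DD F₁ F₂ N s f (b i') (b i) ≤ Sm m (b i') (b i) +
          (min (η / 3) (1 / ((t : ℝ≥0) + 1)) : ℝ≥0)) := by
    intro t
    have h1 : ∃ (N : ℕ) (s f : ℕ → X) (m : ℕ → ℝ≥0),
      IsChain F₁ F₂ R N s f m ∧ ∑ k ∈ Finset.Icc 1 N, m k ≤ c ∧ ∃ A B, A < B ∧
      A ∈ Vis Y N s f j ∧ B ∈ Vis Y N s f j ∧ Ex (DD F₁ F₂ N s f) m A B η ∧
      ∑ k ∈ Finset.Ico A B, dist (ι (f k)) (ι (s (k + 1))) < 1 / ((t : ℝ) + 1) ∧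
      ¬ ∃ a1 b1 a2 b2, a1 ∈ Vis Y N s f (j + t) ∧ b1 ∈ Vis Y N s f (j + t) ∧
        a2 ∈ Vis Y N s f (j + t) ∧
        b2 ∈ Vis Y N s f (j + t) ∧ A ≤ a1 ∧ a1 < b1 ∧ b1 ≤ a2 ∧ a2 < b2 ∧ b2 ≤ B ∧
        Ex (DD F₁ F₂ N s f) m a1 b1 (min (η / 3) (1 / ((t : ℝ≥0) + 1))) ∧
        Ex (DD F₁ F₂ N s f) m a2 b2 (min (η / 3) (1 / ((t : ℝ≥0) + 1))) := by
      by_contra h
      apply hcon
      refine ⟨1 / ((t : ℝ) + 1), min (η / 3) (1 / ((t : ℝ≥0) + 1)), j + t, hr0 t, hθ0 t, ?_⟩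
      intro N s f m hc hm A B hAB hA hB hE hJ
      by_contra h2
      exact h ⟨N, s, f, m, hc, hm, A, B, hAB, hA, hB, hE, hJ, h2⟩
    obtain ⟨N, s, f, m, hc, hm, A, B, hAB, hA, hB, hE, hJ, hno⟩ := h1
    obtain ⟨a, b, hab⟩ := levels (D := DD F₁ F₂ N s f) (m := m) (M := N + 1)
      (DD_sub hR1 hc) (Vis Y N s f) (Vis_mono hYm N s f) (j := j) (t := j + t) hA hB
      (by omega) hAB (Vis_le hB) (θ := min (η / 3) (1 / ((t : ℝ≥0) + 1))) (by
        calc 3 * min (η / 3) (1 / ((t : ℝ≥0) + 1)) ≤ 3 * (η / 3) := by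
              gcongr; exact min_le_left _ _
          _ = η := by rw [mul_div_cancel₀]; norm_num) hE (by
        intro a1 b1 a2 b2 h1 h2 h3 h4 h5 h6 h7 h8 h9 h10 h11
        exact hno ⟨a1, b1, a2, b2, h1, h2, h3, h4, h5, h6, h7, h8, h9, h10, h11⟩)
    exact ⟨N, s, f, m, A, B, a, b, hc, hm, hAB, Vis_le hB, hJ, hab⟩
  choose N s f m A B a b hchain hm hAB hBN hJ hab using hch
  set θ : ℕ → ℝ≥0 := fun t => min (η / 3) (1 / ((t : ℝ≥0) + 1)) with hθdef
  set 𝒰 : Ultrafilter ℕ := hyperfilter ℕ with h𝒰def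
  have h𝒰 : (𝒰 : Filter ℕ) ≤ atTop := Nat.hyperfilter_le_atTop
  have hθle : ∀ t : ℕ, ((θ t : ℝ≥0) : ℝ) ≤ 1 / ((t : ℝ) + 1) := by
    intro t
    have : θ t ≤ 1 / ((t : ℝ≥0) + 1) := min_le_right _ _
    have h2 : ((θ t : ℝ≥0) : ℝ) ≤ ((1 / ((t : ℝ≥0) + 1) : ℝ≥0) : ℝ) := by exact_mod_cast this
    simpa using h2
  have hinv : Tendsto (fun t : ℕ => 1 / ((t : ℝ) + 1)) atTop (𝓝 0) :=
    tendsto_one_div_add_atTop_nhds_zero_nat
  have hθt : Tendsto (fun t => ((θ t : ℝ≥0) : ℝ)) atTop (𝓝 0) :=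
    squeeze_zero (fun t => (θ t).2) hθle hinv
  -- the left side
  have hleft := side ι C hL Y hY F₁ hF₁ 𝒰 h𝒰 j (fun i t => f t (a t i)) (fun t => f t 0)
    (fun t => (hchain t).start) (fun i t => a t i = 0)
    (fun i t => ((∑ k ∈ Finset.Ioc 0 (a t i), m t k : ℝ≥0) : ℝ)) (fun t => ((θ t : ℝ≥0) : ℝ)) hθt
    (c : ℝ) (fun i t => NNReal.coe_nonneg _)
    (by
      intro i t hji hit
      obtain ⟨h1, h2, h3, h4, h5, -⟩ := hab t i hji (by omega)
      have hsub : Finset.Ioc 0 (a t i) ⊆ Finset.Icc 1 (N t) := by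
        intro k hk
        rw [Finset.mem_Ioc] at hk
        rw [Finset.mem_Icc]
        have := hBN t
        omega
      exact_mod_cast sum_sub_le (hm t) hsub)
    (by
      intro i i' t hji hii hit
      obtain ⟨-, -, -, -, -, -, -, h⟩ := hab t i hji (by omega)
      obtain ⟨h1, -, -, -⟩ := h i' hii (by omega)
      have : ∑ k ∈ Finset.Ioc 0 (a t i), m t k ≤ ∑ k ∈ Finset.Ioc 0 (a t i'), m t k :=
        Finset.sum_le_sum_of_subset (Finset.Ioc_subset_Ioc_right h1)
      exact_mod_cast this)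
    (by
      intro i i' t hji hii hit h0
      obtain ⟨-, -, -, -, -, -, -, h⟩ := hab t i hji (by omega)
      obtain ⟨h1, -, -, -⟩ := h i' hii (by omega)
      omega)
    (by
      intro i t hji hit h0
      obtain ⟨h1, h2, h3, h4, h5, -⟩ := hab t i hji (by omega)
      have := hBN t
      rcases h1 with h1 | h1 | h1
      · exact absurd h1 h0
      · omega
      · exact h1.2.2.2)
    (by
      intro i t hji hit h0
      rw [h0])
    (by
      intro i i' t hji hii hit h0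
      obtain ⟨-, -, -, -, -, -, -, h⟩ := hab t i hji (by omega)
      obtain ⟨h1, -, hD, -⟩ := h i' hii (by omega)
      obtain ⟨g1, g2, g3, g4, g5, -⟩ := hab t i' (hji.trans hii) (by omega)
      have hB := hBN t
      rcases h1.eq_or_lt with heq | hlt
      · rw [heq, edist_self]; exact zero_le
      · have hD := hD hlt
        have hne : a t i' ≠ N t + 1 := by omega
        have hDD : DD F₁ F₂ (N t) (s t) (f t) (a t i) (a t i') =
            edist (s t (a t i')) (f t (a t i)) := by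
          unfold DD Rs Ls
          rw [if_neg hne, if_neg h0]
          simp
        rw [hDD] at hD
        have hstep := hR1 _ _ _ ((hchain t).step (a t i') (by omega) (by omega))
        have hsum : ∑ k ∈ Finset.Ioc 0 (a t i'), m t k =
            ∑ k ∈ Finset.Ioc 0 (a t i), m t k + (Sm (m t) (a t i) (a t i') + m t (a t i')) := by
          unfold Sm
          have : Finset.Ioc 0 (a t i') = Finset.Ioc 0 (a t i) ∪
              (Finset.Ioo (a t i) (a t i') ∪ {a t i'}) := by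
            ext x
            simp only [Finset.mem_Ioc, Finset.mem_union, Finset.mem_Ioo, Finset.mem_singleton]
            omega
          rw [this, Finset.sum_union, Finset.sum_union, Finset.sum_singleton]
          · rw [Finset.disjoint_left]
            intro x
            simp only [Finset.mem_Ioo, Finset.mem_singleton]
            omega
          · rw [Finset.disjoint_left]
            intro x
            simp only [Finset.mem_Ioc, Finset.mem_union, Finset.mem_Ioo, Finset.mem_singleton]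
            omega
        calc edist (f t (a t i)) (f t (a t i')) ≤
              edist (f t (a t i)) (s t (a t i')) + edist (s t (a t i')) (f t (a t i')) :=
              edist_triangle _ _ _
          _ ≤ (Sm (m t) (a t i) (a t i') + θ t) + m t (a t i') := by
              gcongr
              rw [edist_comm]; exact hD
          _ = ENNReal.ofReal (((∑ k ∈ Finset.Ioc 0 (a t i'), m t k : ℝ≥0) : ℝ) -
              ((∑ k ∈ Finset.Ioc 0 (a t i), m t k : ℝ≥0) : ℝ) + θ t) := by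
              rw [hsum]
              have : (((∑ k ∈ Finset.Ioc 0 (a t i), m t k + (Sm (m t) (a t i) (a t i') +
                  m t (a t i')) : ℝ≥0) : ℝ) - ((∑ k ∈ Finset.Ioc 0 (a t i), m t k : ℝ≥0) : ℝ) +
                  θ t) = ((Sm (m t) (a t i) (a t i') + m t (a t i') + θ t : ℝ≥0) : ℝ) := by
                push_cast; ring
              rw [this, ENNReal.ofReal_coe_nnreal]
              push_cast; ring)
  -- the right side
  have hright := side ι C hL Y hY F₂ hF₂ 𝒰 h𝒰 j (fun i t => s t (b t i)) (fun t => s t (N t + 1))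
    (fun t => (hchain t).fin) (fun i t => b t i = N t + 1)
    (fun i t => ((∑ k ∈ Finset.Ico (b t i) (N t + 1), m t k : ℝ≥0) : ℝ))
    (fun t => ((θ t : ℝ≥0) : ℝ)) hθt
    (c : ℝ) (fun i t => NNReal.coe_nonneg _)
    (by
      intro i t hji hit
      obtain ⟨h1, h2, h3, h4, h5, -⟩ := hab t i hji (by omega)
      have hsub : Finset.Ico (b t i) (N t + 1) ⊆ Finset.Icc 1 (N t) := by
        intro k hk
        rw [Finset.mem_Ico] at hk
        rw [Finset.mem_Icc]
        omega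
      exact_mod_cast sum_sub_le (hm t) hsub)
    (by
      intro i i' t hji hii hit
      obtain ⟨-, -, -, -, -, -, -, h⟩ := hab t i hji (by omega)
      obtain ⟨-, h1, -, -⟩ := h i' hii (by omega)
      have : ∑ k ∈ Finset.Ico (b t i) (N t + 1), m t k ≤
          ∑ k ∈ Finset.Ico (b t i') (N t + 1), m t k :=
        Finset.sum_le_sum_of_subset (Finset.Ico_subset_Ico_left h1)
      exact_mod_cast this)
    (by
      intro i i' t hji hii hit h0
      obtain ⟨-, g2, -, -, g5, -, -, h⟩ := hab t i hji (by omega)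
      obtain ⟨-, h1, -, -⟩ := h i' hii (by omega)
      have := Vis_le g2
      omega)
    (by
      intro i t hji hit h0
      obtain ⟨h1, h2, h3, h4, h5, -⟩ := hab t i hji (by omega)
      rcases h2 with h2 | h2 | h2
      · omega
      · exact absurd h2 h0
      · exact h2.2.2.1)
    (by
      intro i t hji hit h0
      rw [h0])
    (by
      intro i i' t hji hii hit h0
      obtain ⟨-, k2, -, -, -, -, -, h⟩ := hab t i hji (by omega)
      obtain ⟨-, h1, -, hD⟩ := h i' hii (by omega)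
      obtain ⟨g1, g2, g3, g4, g5, -⟩ := hab t i' (hji.trans hii) (by omega)
      have hB := hBN t
      have hkN := Vis_le k2
      rcases h1.eq_or_lt with heq | hlt
      · rw [heq, edist_self]; exact zero_le
      · have hD := hD hlt
        have hne : b t i' ≠ 0 := by omega
        have hDD : DD F₁ F₂ (N t) (s t) (f t) (b t i') (b t i) =
            edist (s t (b t i)) (f t (b t i')) := by
          unfold DD Rs Ls
          rw [if_neg h0, if_neg hne]
          simp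
        rw [hDD] at hD
        have hstep := hR1 _ _ _ ((hchain t).step (b t i') (by omega) (by omega))
        have hsum : ∑ k ∈ Finset.Ico (b t i') (N t + 1), m t k =
            ∑ k ∈ Finset.Ico (b t i) (N t + 1), m t k +
              (Sm (m t) (b t i') (b t i) + m t (b t i')) := by
          unfold Sm
          have : Finset.Ico (b t i') (N t + 1) = Finset.Ico (b t i) (N t + 1) ∪
              (Finset.Ioo (b t i') (b t i) ∪ {b t i'}) := by
            ext x
            simp only [Finset.mem_Ico, Finset.mem_union, Finset.mem_Ioo, Finset.mem_singleton]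
            omega
          rw [this, Finset.sum_union, Finset.sum_union, Finset.sum_singleton]
          · rw [Finset.disjoint_left]
            intro x
            simp only [Finset.mem_Ioo, Finset.mem_singleton]
            omega
          · rw [Finset.disjoint_left]
            intro x
            simp only [Finset.mem_Ico, Finset.mem_union, Finset.mem_Ioo, Finset.mem_singleton]
            omega
        calc edist (s t (b t i)) (s t (b t i')) ≤
              edist (s t (b t i)) (f t (b t i')) + edist (f t (b t i')) (s t (b t i')) :=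
              edist_triangle _ _ _
          _ ≤ (Sm (m t) (b t i') (b t i) + θ t) + m t (b t i') := by
              gcongr
              rw [edist_comm]; exact hstep
          _ = ENNReal.ofReal (((∑ k ∈ Finset.Ico (b t i') (N t + 1), m t k : ℝ≥0) : ℝ) -
              ((∑ k ∈ Finset.Ico (b t i) (N t + 1), m t k : ℝ≥0) : ℝ) + θ t) := by
              rw [hsum]
              have : (((∑ k ∈ Finset.Ico (b t i) (N t + 1), m t k +
                  (Sm (m t) (b t i') (b t i) +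
                  m t (b t i')) : ℝ≥0) : ℝ) -
                  ((∑ k ∈ Finset.Ico (b t i) (N t + 1), m t k : ℝ≥0) : ℝ) +
                  θ t) = ((Sm (m t) (b t i') (b t i) + m t (b t i') + θ t : ℝ≥0) : ℝ) := by
                push_cast; ring
              rw [this, ENNReal.ofReal_coe_nnreal]
              push_cast; ring)
  obtain ⟨P, hP⟩ := hleft
  obtain ⟨Q, hQ⟩ := hright
  -- displacement
  have hdisp : ∀ i, j ≤ i → ∀ t, i ≤ t →
      (Λ i : ℝ) * (dist (ι (f t (a t i))) (ι (s t (b t i))) - 1 / ((t : ℝ) + 1)) ≤ c := by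
    intro i hji t hit
    obtain ⟨h1, h2, h3, h4, h5, h6, -⟩ := hab t i hji (by omega)
    have hg := geo ι (s t) (f t) (a t i) (b t i) h4
    have hJle : ∑ k ∈ Finset.Ico (a t i) (b t i), dist (ι (f t k)) (ι (s t (k + 1))) ≤
        1 / ((t : ℝ) + 1) := by
      refine le_trans (Finset.sum_le_sum_of_subset_of_nonneg
        (Finset.Ico_subset_Ico h3 h5) (fun _ _ _ => dist_nonneg)) (hJ t).le
    have hB := hBN t
    have hsumΛ : (Λ i : ℝ) * ∑ k ∈ Finset.Ioo (a t i) (b t i), dist (ι (s t k)) (ι (f t k)) ≤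
        c := by
      rw [Finset.mul_sum]
      have h7 : ∀ k ∈ Finset.Ioo (a t i) (b t i),
          (Λ i : ℝ) * dist (ι (s t k)) (ι (f t k)) ≤ m t k := by
        intro k hk
        rw [Finset.mem_Ioo] at hk
        have hR := (hchain t).step k (by omega) (by omega)
        have hmk : m t k ≤ c := by
          refine le_trans ?_ (hm t)
          exact Finset.single_le_sum (f := fun k => m t k) (fun _ _ => zero_le)
            (Finset.mem_Icc.2 ⟨by omega, by omega⟩)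
        rcases hR2 _ _ _ hR hmk i with h8 | h8
        · exfalso
          exact h6 k hk.1 hk.2 (Or.inr (Or.inr ⟨by omega, by omega, h8.1, h8.2⟩))
        · exact h8
      refine (Finset.sum_le_sum h7).trans ?_
      have : ∑ k ∈ Finset.Ioo (a t i) (b t i), m t k ≤ c := by
        refine sum_sub_le (hm t) ?_
        intro k hk
        rw [Finset.mem_Ioo] at hk
        rw [Finset.mem_Icc]
        omega
      exact_mod_cast this
    have h9 : dist (ι (f t (a t i))) (ι (s t (b t i))) - 1 / ((t : ℝ) + 1) ≤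
        ∑ k ∈ Finset.Ioo (a t i) (b t i), dist (ι (s t k)) (ι (f t k)) := by linarith
    exact (mul_le_mul_of_nonneg_left h9 (NNReal.coe_nonneg _)).trans hsumΛ
  -- `P = Q`
  have hPQ : P = Q := by
    apply hinj
    rw [← dist_le_zero]
    refine le_of_forall_pos_le_add fun ε hε => ?_
    rw [zero_add]
    have hε4 : 0 < ε / 4 := by positivity
    obtain ⟨i₀, hi₀⟩ := hP (ε / 4) hε4
    obtain ⟨i₁, hi₁⟩ := hQ (ε / 4) hε4
    have hΛe : ∀ᶠ i in atTop, (c / (Real.toNNReal (ε / 4)) + 1 : ℝ≥0) ≤ Λ i :=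
      hΛ.eventually (eventually_ge_atTop _)
    obtain ⟨i₂, hi₂⟩ := eventually_atTop.1 hΛe
    set i := max (max i₀ i₁) (max i₂ j) with hi
    have hte : ∀ᶠ t : ℕ in (𝒰 : Filter ℕ), 1 / ((t : ℝ) + 1) ≤ ε / 4 :=
      (hinv.mono_left h𝒰).eventually (ge_mem_nhds hε4)
    obtain ⟨t, ht1, ht2, ht3, ht4⟩ := ((hi₀ i (by omega)).and ((hi₁ i (by omega)).and
      (hte.and (ev_of_le h𝒰 i)))).exists
    have h1 := hdisp i (by omega) t ht4
    have hΛi : (c / (Real.toNNReal (ε / 4)) + 1 : ℝ≥0) ≤ Λ i := hi₂ i (by omega)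
    have hΛi' : (c : ℝ) / (ε / 4) + 1 ≤ Λ i := by
      have : ((c / (Real.toNNReal (ε / 4)) + 1 : ℝ≥0) : ℝ) ≤ Λ i := by exact_mod_cast hΛi
      rw [NNReal.coe_add, NNReal.coe_div, Real.coe_toNNReal _ hε4.le] at this
      simpa using this
    have h2 : dist (ι (f t (a t i))) (ι (s t (b t i))) ≤ ε / 4 + ε / 4 := by
      by_contra h
      rw [not_le] at h
      have h3 : ε / 4 < dist (ι (f t (a t i))) (ι (s t (b t i))) - 1 / ((t : ℝ) + 1) := by
        linarith
      have h4 : ((c : ℝ) / (ε / 4) + 1) * (ε / 4) < c := by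
        have hc0 : (0 : ℝ) ≤ c := NNReal.coe_nonneg _
        calc ((c : ℝ) / (ε / 4) + 1) * (ε / 4) ≤ (Λ i : ℝ) * (ε / 4) := by gcongr
          _ < (Λ i : ℝ) * (dist (ι (f t (a t i))) (ι (s t (b t i))) - 1 / ((t : ℝ) + 1)) := by
              have : (0 : ℝ) < Λ i := lt_of_lt_of_le (by positivity) hΛi'
              gcongr
          _ ≤ c := h1
      have h5 : ((c : ℝ) / (ε / 4) + 1) * (ε / 4) = c + ε / 4 := by
        field_simp
      linarith
    calc dist (ι P) (ι Q) ≤ dist (ι P) (ι (f t (a t i))) +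
          dist (ι (f t (a t i))) (ι (s t (b t i))) + dist (ι (s t (b t i))) (ι Q) :=
          dist_triangle4 _ _ _ _
      _ ≤ ε / 4 + (ε / 4 + ε / 4) + ε / 4 := by
          gcongr
          · rw [dist_comm]; exact ht1.1
          · exact ht2.1
      _ = ε := by ring
  -- contradiction
  subst hPQ
  have hηr : (0 : ℝ) < η / 8 := by positivity
  obtain ⟨i₀, hi₀⟩ := hP (η / 8) hηr
  obtain ⟨i₁, hi₁⟩ := hQ (η / 8) hηr
  set i := max (max i₀ i₁) j with hi
  have hte : ∀ᶠ t : ℕ in (𝒰 : Filter ℕ), 1 / ((t : ℝ) + 1) ≤ η / 8 :=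
    (hinv.mono_left h𝒰).eventually (ge_mem_nhds hηr)
  obtain ⟨t, ht1, ht2, ht3, ht4⟩ := ((hi₀ i (by omega)).and ((hi₁ i (by omega)).and
    (hte.and (ev_of_le h𝒰 i)))).exists
  obtain ⟨h1, h2, h3, h4, h5, h6, h7, -⟩ := hab t i (by omega) (by omega)
  have hx : ∃ x ∈ Ls F₁ (f t) (a t i), edist x P ≤ ENNReal.ofReal (η / 8) := by
    rcases ht1.2 with ⟨h8, h9⟩ | ⟨h8, h9⟩
    · refine ⟨f t (a t i), ?_, h9⟩
      unfold Ls
      rw [if_neg h8]
      rfl
    · refine ⟨P, ?_, by rw [edist_self]; exact zero_le⟩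
      unfold Ls
      rw [if_pos h8]
      exact h9
  have hy : ∃ y ∈ Rs F₂ (N t) (s t) (b t i), edist y P ≤ ENNReal.ofReal (η / 8) := by
    rcases ht2.2 with ⟨h8, h9⟩ | ⟨h8, h9⟩
    · refine ⟨s t (b t i), ?_, h9⟩
      unfold Rs
      rw [if_neg h8]
      rfl
    · refine ⟨P, ?_, by rw [edist_self]; exact zero_le⟩
      unfold Rs
      rw [if_pos h8]
      exact h9
  obtain ⟨x, hx1, hx2⟩ := hx
  obtain ⟨y, hy1, hy2⟩ := hy
  have hD : DD F₁ F₂ (N t) (s t) (f t) (a t i) (b t i) ≤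
      ENNReal.ofReal (η / 8) + ENNReal.ofReal (η / 8) := by
    calc DD F₁ F₂ (N t) (s t) (f t) (a t i) (b t i) ≤ infEDist y (Ls F₁ (f t) (a t i)) :=
          iInf₂_le y hy1
      _ ≤ edist y x := infEDist_le_edist_of_mem hx1
      _ ≤ edist y P + edist P x := edist_triangle _ _ _
      _ ≤ _ := by
          gcongr
          rw [edist_comm]; exact hx2
  have h8 : (η : ℝ≥0∞) ≤ ENNReal.ofReal (η / 8) + ENNReal.ofReal (η / 8) +
      2 * ENNReal.ofReal (η / 8) := by
    refine h7.trans ?_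
    gcongr
    rw [← ENNReal.ofReal_coe_nnreal]
    exact ENNReal.ofReal_le_ofReal ((hθle t).trans ht3)
  have h9 : ENNReal.ofReal (η / 8) = ((η / 8 : ℝ≥0) : ℝ≥0∞) := by
    rw [← ENNReal.ofReal_coe_nnreal]; congr 1
  rw [h9] at h8
  have h10 : η ≤ η / 8 + η / 8 + 2 * (η / 8) := by exact_mod_cast h8
  have h11 : (η : ℝ) ≤ η / 8 + η / 8 + 2 * (η / 8) := by exact_mod_cast h10
  have h12 : (0 : ℝ) < η := by exact_mod_cast hη
  linarith

end Dich
end MPd4663a
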