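import Pool.Agent.Lib.MP_d4663a_an.Spec

/-!
# DICH, part 1: the limit argument on one side
-/

namespace MPd4663a
namespace Dich

open Set Filter Metric
open scoped ENNReal NNReal Topology

lemma ev_of_le {𝒰 : Ultrafilter ℕ} (h𝒰 : (𝒰 : Filter ℕ) ≤ atTop) (i : ℕ) :
    ∀ᶠ t in (𝒰 : Filter ℕ), i ≤ t := h𝒰 (eventually_ge_atTop i)

/-- The limit points of the cut points on one side. -/
lemma side {X Z : Type} [PseudoEMetricSpace X] [CompleteSpace X] [MetricSpace Z] (ι : X → Z)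
    (C : ℝ≥0) (hL : LipschitzWith C ι)
    (Y : ℕ → Set X) (hY : ∀ i, IsCompact (Y i)) (F : Set X) (hF : IsCompact (ι '' F))
    (𝒰 : Ultrafilter ℕ) (h𝒰 : (𝒰 : Filter ℕ) ≤ atTop) (j : ℕ) (p : ℕ → ℕ → X)
    (p0 : ℕ → X) (hp0 : ∀ t, p0 t ∈ F)
    (sp : ℕ → ℕ → Prop) (S : ℕ → ℕ → ℝ) (θ : ℕ → ℝ) (hθ : Tendsto θ atTop (𝓝 0)) (c : ℝ)
    (hS0 : ∀ i t, 0 ≤ S i t) (hSc : ∀ i t, j ≤ i → i ≤ t → S i t ≤ c)
    (hSm : ∀ i i' t, j ≤ i → i ≤ i' → i' ≤ t → S i t ≤ S i' t)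
    (hsp : ∀ i i' t, j ≤ i → i ≤ i' → i' ≤ t → sp i' t → sp i t)
    (hpY : ∀ i t, j ≤ i → i ≤ t → ¬ sp i t → p i t ∈ Y i)
    (hp : ∀ i t, j ≤ i → i ≤ t → sp i t → p i t = p0 t)
    (hd : ∀ i i' t, j ≤ i → i ≤ i' → i' ≤ t → ¬ sp i t →
      edist (p i t) (p i' t) ≤ ENNReal.ofReal (S i' t - S i t + θ t)) :
    ∃ P : X, ∀ ε : ℝ, 0 < ε → ∃ i₀, ∀ i ≥ i₀, ∀ᶠ t in (𝒰 : Filter ℕ),
      dist (ι (p i t)) (ι P) ≤ ε ∧
      ((¬ sp i t ∧ edist (p i t) P ≤ ENNReal.ofReal ε) ∨ (sp i t ∧ P ∈ F)) := by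
  by_cases hcase : ∀ i, j ≤ i → ∀ᶠ t in (𝒰 : Filter ℕ), sp i t
  · -- special case
    have h1 : ((𝒰.map (fun t => ι (p0 t)) : Ultrafilter Z) : Filter Z) ≤ 𝓟 (ι '' F) := by
      rw [le_principal_iff]
      exact Filter.mem_map.2 (Filter.univ_mem' (fun t => ⟨p0 t, hp0 t, rfl⟩))
    obtain ⟨z, ⟨P, hPF, rfl⟩, hz⟩ := hF.ultrafilter_le_nhds _ h1
    refine ⟨P, fun ε hε => ⟨j, fun i hi => ?_⟩⟩
    have h2 : Tendsto (fun t => ι (p0 t)) (𝒰 : Filter ℕ) (𝓝 (ι P)) := hz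
    have h3 : ∀ᶠ t in (𝒰 : Filter ℕ), dist (ι (p0 t)) (ι P) < ε :=
      (Metric.tendsto_nhds.1 h2) ε hε
    filter_upwards [hcase i hi, ev_of_le h𝒰 i, h3] with t ht hit h4
    refine ⟨?_, Or.inr ⟨ht, hPF⟩⟩
    rw [hp i t hi hit ht]
    exact h4.le
  · push Not at hcase
    obtain ⟨i₁, hi₁, hcase⟩ := hcase
    have hns1 : ∀ᶠ t in (𝒰 : Filter ℕ), ¬ sp i₁ t := hcase
    have hns : ∀ i, i₁ ≤ i → ∀ᶠ t in (𝒰 : Filter ℕ), ¬ sp i t := by
      intro i hi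
      filter_upwards [hns1, ev_of_le h𝒰 i] with t ht hit h
      exact ht (hsp i₁ i t hi₁ hi hit h)
    -- limits
    have hα : ∀ i, i₁ ≤ i → ∃ x, Tendsto (p i) (𝒰 : Filter ℕ) (𝓝 x) := by
      intro i hi
      have h1 : ((𝒰.map (p i) : Ultrafilter X) : Filter X) ≤ 𝓟 (Y i) := by
        rw [le_principal_iff]
        refine Filter.mem_map.2 ?_
        filter_upwards [hns i hi, ev_of_le h𝒰 i] with t ht hit
        exact hpY i t (hi₁.trans hi) hit ht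
      obtain ⟨x, _, hx⟩ := (hY i).ultrafilter_le_nhds _ h1
      exact ⟨x, hx⟩
    have hs : ∀ i, i₁ ≤ i → ∃ s, s ≤ c ∧ Tendsto (S i) (𝒰 : Filter ℕ) (𝓝 s) := by
      intro i hi
      have h1 : ((𝒰.map (S i) : Ultrafilter ℝ) : Filter ℝ) ≤ 𝓟 (Icc 0 c) := by
        rw [le_principal_iff]
        refine Filter.mem_map.2 ?_
        filter_upwards [ev_of_le h𝒰 i] with t hit
        exact ⟨hS0 i t, hSc i t (hi₁.trans hi) hit⟩
      obtain ⟨x, hx1, hx⟩ := isCompact_Icc.ultrafilter_le_nhds _ h1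
      exact ⟨x, hx1.2, hx⟩
    have hα' : ∀ k, ∃ x, Tendsto (p (i₁ + k)) (𝒰 : Filter ℕ) (𝓝 x) :=
      fun k => hα _ (Nat.le_add_right _ _)
    have hs' : ∀ k, ∃ s, s ≤ c ∧ Tendsto (S (i₁ + k)) (𝒰 : Filter ℕ) (𝓝 s) :=
      fun k => hs _ (Nat.le_add_right _ _)
    choose α hα using hα'
    choose s hsc hs using hs'
    have hsmono : Monotone s := by
      intro k l hkl
      refine le_of_tendsto_of_tendsto (hs k) (hs l) ?_
      filter_upwards [ev_of_le h𝒰 (i₁ + l)] with t ht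
      exact hSm _ _ t (by omega) (by omega) ht
    have hbdd : BddAbove (range s) := ⟨c, by rintro _ ⟨k, rfl⟩; exact hsc k⟩
    have hsL := tendsto_atTop_ciSup hsmono hbdd
    set L := ⨆ k, s k with hLdef
    have hsle : ∀ k, s k ≤ L := fun k => le_ciSup hbdd k
    have hθ𝒰 : Tendsto θ (𝒰 : Filter ℕ) (𝓝 0) := hθ.mono_left h𝒰
    have hed : ∀ k l, k ≤ l → edist (α k) (α l) ≤ ENNReal.ofReal (s l - s k) := by
      intro k l hkl
      have h1 : Tendsto (fun t => edist (p (i₁ + k) t) (p (i₁ + l) t)) (𝒰 : Filter ℕ)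
          (𝓝 (edist (α k) (α l))) := (hα k).edist (hα l)
      have h2 : Tendsto (fun t => ENNReal.ofReal (S (i₁ + l) t - S (i₁ + k) t + θ t))
          (𝒰 : Filter ℕ) (𝓝 (ENNReal.ofReal (s l - s k + 0))) :=
        ENNReal.tendsto_ofReal (((hs l).sub (hs k)).add hθ𝒰)
      rw [add_zero] at h2
      refine le_of_tendsto_of_tendsto h1 h2 ?_
      filter_upwards [ev_of_le h𝒰 (i₁ + l), hns (i₁ + k) (by omega)] with t ht hnt
      exact hd _ _ t (by omega) (by omega) ht hnt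
    have hcau : CauchySeq α := by
      rw [EMetric.cauchySeq_iff]
      intro ε hε
      have h1 : Tendsto (fun k => ENNReal.ofReal (L - s k)) atTop (𝓝 (ENNReal.ofReal (L - L))) :=
        ENNReal.tendsto_ofReal (tendsto_const_nhds.sub hsL)
      rw [sub_self, ENNReal.ofReal_zero] at h1
      obtain ⟨N, hN⟩ := eventually_atTop.1 (h1.eventually (gt_mem_nhds hε))
      refine ⟨N, fun k hk l hl => ?_⟩
      rcases le_total k l with h | h
      · refine (hed k l h).trans_lt (lt_of_le_of_lt ?_ (hN k hk))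
        exact ENNReal.ofReal_le_ofReal (by linarith [hsle l])
      · rw [edist_comm]
        refine (hed l k h).trans_lt (lt_of_le_of_lt ?_ (hN l hl))
        exact ENNReal.ofReal_le_ofReal (by linarith [hsle k])
    obtain ⟨P, hP⟩ := cauchySeq_tendsto_of_complete hcau
    refine ⟨P, fun ε hε => ?_⟩
    -- choose a smaller tolerance
    set δ : ℝ := ε / (C + 1) with hδ
    have hC0 : (0 : ℝ) ≤ C := C.2
    have hδ0 : 0 < δ := by positivity
    have hδε : δ ≤ ε := by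
      rw [hδ, div_le_iff₀ (by positivity)]
      nlinarith
    have hCδ : (C : ℝ) * δ ≤ ε := by
      rw [hδ, mul_div_assoc', div_le_iff₀ (by positivity)]
      nlinarith
    have hδ2 : (0 : ℝ≥0∞) < ENNReal.ofReal (δ / 2) := ENNReal.ofReal_pos.2 (by positivity)
    have h1 : Tendsto (fun k => edist (α k) P) atTop (𝓝 0) := tendsto_iff_edist_tendsto_0.1 hP
    obtain ⟨k₀, hk₀⟩ := eventually_atTop.1 (h1.eventually (gt_mem_nhds hδ2))
    refine ⟨i₁ + k₀, fun i hi => ?_⟩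
    obtain ⟨k, rfl⟩ : ∃ k, i = i₁ + k := ⟨i - i₁, by omega⟩
    have hk : k₀ ≤ k := by omega
    have h2 : Tendsto (fun t => edist (p (i₁ + k) t) (α k)) (𝒰 : Filter ℕ) (𝓝 0) :=
      tendsto_iff_edist_tendsto_0.1 (hα k)
    filter_upwards [h2.eventually (gt_mem_nhds hδ2), hns (i₁ + k) (by omega)] with t ht hnt
    have h3 : edist (p (i₁ + k) t) P ≤ ENNReal.ofReal δ := by
      calc edist (p (i₁ + k) t) P ≤ edist (p (i₁ + k) t) (α k) + edist (α k) P :=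
            edist_triangle _ _ _
        _ ≤ ENNReal.ofReal (δ / 2) + ENNReal.ofReal (δ / 2) := add_le_add ht.le (hk₀ k hk).le
        _ = ENNReal.ofReal δ := by
            rw [← ENNReal.ofReal_add (by positivity) (by positivity)]; congr 1; ring
    refine ⟨?_, Or.inl ⟨hnt, h3.trans (ENNReal.ofReal_le_ofReal hδε)⟩⟩
    have h4 : edist (ι (p (i₁ + k) t)) (ι P) ≤ ENNReal.ofReal ε := by
      calc edist (ι (p (i₁ + k) t)) (ι P) ≤ C * edist (p (i₁ + k) t) P := hL _ _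
        _ ≤ C * ENNReal.ofReal δ := by gcongr
        _ = ENNReal.ofReal (C * δ) := by
            rw [ENNReal.ofReal_mul hC0, ENNReal.ofReal_coe_nnreal]
        _ ≤ ENNReal.ofReal ε := ENNReal.ofReal_le_ofReal hCδ
    rwa [edist_dist, ENNReal.ofReal_le_ofReal_iff hε.le] at h4

end Dich
end MPd4663a
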