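import Pool.Agent.Lib.MP_d4663a_an.Spec

/-!
# MP_d4663a_an: ESC

Leaving a huge ball costs at least one, with small energy: dyadic annuli.
-/

namespace MPd4663a

open MeasureTheory Set Filter Metric
open scoped ENNReal NNReal Topology

namespace Esc

variable {n : ℕ}

/-- A 1-Lipschitz real function going from below `a` to above `b` spends at least the time `b - a`
in `[a, b)`. -/
lemma time_ge {φ : ℝ → ℝ} (hφ : LipschitzWith 1 φ) {a b T t₁ : ℝ} (h0 : φ 0 ≤ a)
    (ht₁ : t₁ ∈ Icc 0 T) (h1 : b ≤ φ t₁) :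
    ENNReal.ofReal (b - a) ≤ volume (Icc 0 T ∩ φ ⁻¹' Ico a b) := by
  have hsub : Ico a b ⊆ φ '' (Icc 0 T ∩ φ ⁻¹' Ico a b) := by
    intro y hy
    have hI : y ∈ Icc (φ 0) (φ t₁) := ⟨h0.trans hy.1, hy.2.le.trans h1⟩
    obtain ⟨t, ht, hty⟩ := intermediate_value_Icc ht₁.1 hφ.continuous.continuousOn hI
    refine ⟨t, ⟨⟨ht.1, ht.2.trans ht₁.2⟩, ?_⟩, hty⟩
    simpa [hty] using hy
  calc ENNReal.ofReal (b - a) = volume (Ico a b) := by rw [Real.volume_Ico]
    _ ≤ volume (φ '' (Icc 0 T ∩ φ ⁻¹' Ico a b)) := measure_mono hsub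
    _ ≤ volume (Icc 0 T ∩ φ ⁻¹' Ico a b) := by
        have := hφ.hausdorffMeasure_image_le (d := 1) zero_le_one (Icc 0 T ∩ φ ⁻¹' Ico a b)
        simpa using this

/-- dyadic annulus -/
def ann (n : ℕ) (R : ℝ) (i : ℕ) : Set (Eu n) := {x | 2 ^ i * R ≤ ‖x‖ ∧ ‖x‖ < 2 ^ (i + 1) * R}

lemma measurableSet_ann (R : ℝ) (i : ℕ) : MeasurableSet (ann n R i) := by
  have : ann n R i = (fun x : Eu n => ‖x‖) ⁻¹' Ico (2 ^ i * R) (2 ^ (i + 1) * R) := rfl
  rw [this]
  exact measurable_norm measurableSet_Ico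

lemma ann_disjoint {R : ℝ} (hR : 0 < R) {i j : ℕ} {x : Eu n} (hi : x ∈ ann n R i)
    (hj : x ∈ ann n R j) : i = j := by
  have key : ∀ i j : ℕ, x ∈ ann n R i → x ∈ ann n R j → ¬ i < j := by
    intro i j hi hj hij
    have h1 : (2 : ℝ) ^ (i + 1) ≤ 2 ^ j := pow_le_pow_right₀ (by norm_num) hij
    have h2 : (2 : ℝ) ^ (i + 1) * R ≤ 2 ^ j * R := by gcongr
    have := hi.2
    have := hj.1
    linarith
  have h1 := key i j hi hj
  have h2 := key j i hj hi
  omega

/-- the constants -/
noncomputable def cst (R : ℝ) (N i : ℕ) : ℝ≥0∞ := ENNReal.ofReal (1 / (N * (2 ^ i * R)))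

/-- the weight -/
noncomputable def g (n : ℕ) (R : ℝ) (N : ℕ) (x : Eu n) : ℝ≥0∞ :=
  ∑ i ∈ Finset.range N, (ann n R i).indicator (fun _ => cst R N i) x

lemma measurable_g (R : ℝ) (N : ℕ) : Measurable (g n R N) := by
  unfold g
  exact Finset.measurable_sum _ fun i _ => measurable_const.indicator (measurableSet_ann R i)

lemma g_pow_le {R : ℝ} (hR : 0 < R) (N : ℕ) (hn : n ≠ 0) (x : Eu n) :
    g n R N x ^ n ≤ ∑ i ∈ Finset.range N, (ann n R i).indicator (fun _ => cst R N i ^ n) x := by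
  unfold g
  by_cases h : ∃ i ∈ Finset.range N, x ∈ ann n R i
  · obtain ⟨i, hi, hx⟩ := h
    have h1 : ∑ j ∈ Finset.range N, (ann n R j).indicator (fun _ => cst R N j) x
        = (ann n R i).indicator (fun _ => cst R N i) x := by
      refine Finset.sum_eq_single_of_mem i hi fun j _ hji => ?_
      refine indicator_of_notMem (fun hj => hji (ann_disjoint hR hj hx)) _
    rw [h1, indicator_of_mem hx]
    have h2 : (ann n R i).indicator (fun _ => cst R N i ^ n) x = cst R N i ^ n :=
      indicator_of_mem hx _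
    rw [← h2]
    exact Finset.single_le_sum (f := fun i => (ann n R i).indicator (fun _ => cst R N i ^ n) x)
      (fun _ _ => zero_le) hi
  · push Not at h
    have h1 : ∑ j ∈ Finset.range N, (ann n R j).indicator (fun _ => cst R N j) x = 0 := by
      refine Finset.sum_eq_zero fun j hj => indicator_of_notMem (h j hj) _
    rw [h1, zero_pow hn]
    exact zero_le

lemma lintegral_g_pow_le {R : ℝ} (hR : 0 < R) {N : ℕ} (hN : 0 < N) (hn : 2 ≤ n) :
    ∫⁻ x, g n R N x ^ n ≤ 2 ^ n * volume (closedBall (0 : Eu n) 1) / N := by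
  have hN' : (0 : ℝ) < N := by exact_mod_cast hN
  set V := volume (closedBall (0 : Eu n) 1) with hV
  have hterm : ∀ i, cst R N i ^ n * volume (ann n R i) ≤ ENNReal.ofReal ((2 / N) ^ n) * V := by
    intro i
    have h1 : volume (ann n R i) ≤ ENNReal.ofReal ((2 ^ (i + 1) * R) ^ n) * V := by
      have hs : ann n R i ⊆ closedBall (0 : Eu n) (2 ^ (i + 1) * R) := by
        intro x hx
        rw [mem_closedBall_zero_iff]
        exact hx.2.le
      refine (measure_mono hs).trans ?_
      rw [Measure.addHaar_closedBall' volume _ (by positivity), finrank_euclideanSpace,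
        Fintype.card_fin]
    calc cst R N i ^ n * volume (ann n R i)
        ≤ cst R N i ^ n * (ENNReal.ofReal ((2 ^ (i + 1) * R) ^ n) * V) := by gcongr
      _ = ENNReal.ofReal ((2 / N) ^ n) * V := by
          rw [← mul_assoc, cst, ← ENNReal.ofReal_pow (by positivity),
            ← ENNReal.ofReal_mul (by positivity), ← mul_pow]
          congr 3
          rw [pow_succ]
          field_simp
  calc ∫⁻ x, g n R N x ^ n
      ≤ ∫⁻ x, ∑ i ∈ Finset.range N, (ann n R i).indicator (fun _ => cst R N i ^ n) x :=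
        lintegral_mono fun x => g_pow_le hR N (by omega) x
    _ = ∑ i ∈ Finset.range N, cst R N i ^ n * volume (ann n R i) := by
        rw [lintegral_finsetSum _ fun i _ => measurable_const.indicator (measurableSet_ann R i)]
        refine Finset.sum_congr rfl fun i _ => ?_
        rw [lintegral_indicator (measurableSet_ann R i), setLIntegral_const]
    _ ≤ ∑ _i ∈ Finset.range N, ENNReal.ofReal ((2 / N) ^ n) * V :=
        Finset.sum_le_sum fun i _ => hterm i
    _ = (N * ENNReal.ofReal ((2 / N) ^ n)) * V := by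
        rw [Finset.sum_const, Finset.card_range, nsmul_eq_mul, mul_assoc]
    _ ≤ (2 ^ n / N) * V := by
        gcongr
        obtain ⟨m, rfl⟩ : ∃ m, n = m + 2 := ⟨n - 2, by omega⟩
        have hNc : (N : ℝ≥0∞) = ENNReal.ofReal N := by simp
        have h2c : (2 : ℝ≥0∞) = ENNReal.ofReal 2 := by simp
        rw [hNc, h2c, ← ENNReal.ofReal_pow (by norm_num), ← ENNReal.ofReal_div_of_pos hN',
          ← ENNReal.ofReal_mul hN'.le]
        apply ENNReal.ofReal_le_ofReal
        rw [div_pow, mul_div_assoc', div_le_div_iff₀ (by positivity) hN']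
        have h1 : (1 : ℝ) ≤ (N : ℝ) ^ m := one_le_pow₀ (by exact_mod_cast hN)
        have h2 : (0 : ℝ) ≤ 2 ^ (m + 2) * (N * N) := by positivity
        calc (N : ℝ) * 2 ^ (m + 2) * N = 2 ^ (m + 2) * (N * N) * 1 := by ring
          _ ≤ 2 ^ (m + 2) * (N * N) * (N : ℝ) ^ m := by gcongr
          _ = 2 ^ (m + 2) * (N : ℝ) ^ (m + 2) := by ring
    _ = _ := by rw [ENNReal.div_eq_inv_mul, ENNReal.div_eq_inv_mul]; ring

end Esc

open Esc in
theorem specEsc : SpecEsc := by
  intro n hn R1 ε hR1 hε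
  set ε' : ℝ≥0∞ := min ε 1 with hε'
  have hε'0 : ε' ≠ 0 := by
    simp [hε', hε]
  have hε't : ε' ≠ ∞ := ne_top_of_le_ne_top ENNReal.one_ne_top (min_le_right _ _)
  set V := volume (closedBall (0 : Eu n) 1) with hV
  have hVt : V ≠ ∞ := (isCompact_closedBall _ _).measure_lt_top.ne
  have hfin : 2 ^ n * V / ε' ^ n ≠ ∞ := by
    refine ENNReal.div_ne_top (ENNReal.mul_ne_top (by simp) hVt) (pow_ne_zero _ hε'0)
  obtain ⟨N, hN⟩ := ENNReal.exists_nat_gt hfin
  have hN0 : 0 < N := by
    by_contra h0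
    have : N = 0 := by omega
    subst this
    simp at hN
  have hN' : (0 : ℝ) < N := by exact_mod_cast hN0
  refine ⟨2 ^ N * R1, g n R1 N, ?_, measurable_g R1 N, ?_, ?_⟩
  · have : (1 : ℝ) < 2 ^ N := one_lt_pow₀ (by norm_num) (by omega)
    nlinarith
  · have h1 : ∫⁻ x, g n R1 N x ^ n ≤ ε' ^ n := by
      refine (lintegral_g_pow_le hR1 hN0 hn).trans ?_
      rw [ENNReal.div_le_iff_le_mul (Or.inl (by simp; omega)) (Or.inl (by simp))]
      rw [ENNReal.div_lt_iff (Or.inl (pow_ne_zero _ hε'0)) (Or.inl (ENNReal.pow_ne_top hε't))] at hN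
      rw [mul_comm (ε' ^ n)]
      exact hN.le
    unfold nrm
    calc (∫⁻ x, g n R1 N x ^ n) ^ ((n : ℝ)⁻¹) ≤ (ε' ^ n) ^ ((n : ℝ)⁻¹) :=
          ENNReal.rpow_le_rpow h1 (by positivity)
      _ = ε' := by
          rw [← ENNReal.rpow_natCast, ← ENNReal.rpow_mul, mul_inv_cancel₀ (by positivity),
            ENNReal.rpow_one]
      _ ≤ ε := min_le_left _ _
  · rintro T σ hlip h0 ⟨t₁, ht₁, hout⟩
    have hφ : LipschitzWith 1 (fun t => ‖σ t‖) := by
      have := (lipschitzWith_one_norm (E := Eu n)).comp hlip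
      simpa [Function.comp_def] using this
    rw [mem_closedBall_zero_iff] at h0 hout
    push Not at hout
    have htime : ∀ i ∈ Finset.range N, ENNReal.ofReal (2 ^ i * R1) ≤
        volume (σ ⁻¹' ann n R1 i ∩ Icc 0 T) := by
      intro i hi
      rw [Finset.mem_range] at hi
      have ha : ‖σ 0‖ ≤ 2 ^ i * R1 := by
        have : (1 : ℝ) ≤ 2 ^ i := one_le_pow₀ (by norm_num)
        nlinarith
      have hb : 2 ^ (i + 1) * R1 ≤ ‖σ t₁‖ := by
        have : (2 : ℝ) ^ (i + 1) ≤ 2 ^ N := pow_le_pow_right₀ (by norm_num) hi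
        nlinarith
      have := time_ge hφ ha ht₁ hb
      rw [inter_comm] at this
      have he : (2 : ℝ) ^ (i + 1) * R1 - 2 ^ i * R1 = 2 ^ i * R1 := by ring
      rw [he] at this
      exact this
    unfold cost
    have hm : ∀ i, MeasurableSet (σ ⁻¹' ann n R1 i) := fun i =>
      hlip.continuous.measurable (measurableSet_ann R1 i)
    calc (1 : ℝ≥0∞) = ∑ _i ∈ Finset.range N, ENNReal.ofReal (1 / N) := by
          rw [Finset.sum_const, Finset.card_range, nsmul_eq_mul]
          have hNc : (N : ℝ≥0∞) = ENNReal.ofReal N := by simp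
          rw [hNc, ← ENNReal.ofReal_mul hN'.le, mul_one_div, div_self hN'.ne', ENNReal.ofReal_one]
      _ ≤ ∑ i ∈ Finset.range N, cst R1 N i * volume (σ ⁻¹' ann n R1 i ∩ Icc 0 T) := by
          refine Finset.sum_le_sum fun i hi => ?_
          calc ENNReal.ofReal (1 / N) = cst R1 N i * ENNReal.ofReal (2 ^ i * R1) := by
                rw [cst, ← ENNReal.ofReal_mul (by positivity)]
                congr 1
                field_simp
            _ ≤ _ := by gcongr; exact htime i hi
      _ = ∑ i ∈ Finset.range N, ∫⁻ t in Icc 0 T,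
            (σ ⁻¹' ann n R1 i).indicator (fun _ => cst R1 N i) t := by
          refine Finset.sum_congr rfl fun i _ => ?_
          rw [lintegral_indicator (hm i), setLIntegral_const, Measure.restrict_apply (hm i)]
      _ = ∫⁻ t in Icc 0 T, g n R1 N (σ t) := by
          rw [← lintegral_finsetSum _ fun i _ => measurable_const.indicator (hm i)]
          rfl

end MPd4663a
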