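import Pool.Agent.Lib.MP_d4663a_an.Nrm

/-!
# MP_d4663a_an, module LAYER: the totally disconnected set `K` and the gates
-/

namespace MPd4663a

namespace LayerAux

open MeasureTheory Set Filter Metric Nrm
open scoped ENNReal NNReal Topology

variable {n : ℕ}

/-- The closed set of levels. -/
lemma exists_Q (c ε : ℝ) (hε : 0 < ε) :
    ∃ Q : Set ℝ, IsClosed Q ∧ Q ⊆ Icc 0 c ∧ (∀ r : ℚ, c * (r : ℝ) ∉ Q) ∧
      ENNReal.ofReal (c - ε) ≤ volume Q := by
  obtain ⟨δ, hδ, hsum⟩ := ENNReal.exists_pos_sum_of_countable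
    (ε := ENNReal.ofReal ε) (by simpa using hε) ℚ
  let U : Set ℝ := ⋃ r : ℚ, Ioo (c * (r : ℝ) - δ r / 2) (c * (r : ℝ) + δ r / 2)
  have hUo : IsOpen U := isOpen_iUnion fun _ => isOpen_Ioo
  refine ⟨Icc 0 c \ U, isClosed_Icc.sdiff hUo, sdiff_subset, ?_, ?_⟩
  · intro r hr
    refine hr.2 (mem_iUnion.2 ⟨r, ?_⟩)
    have := hδ r
    have h' : (0 : ℝ) < δ r := by exact_mod_cast this
    constructor <;> linarith
  · have hU : volume U ≤ ENNReal.ofReal ε := by
      refine (measure_iUnion_le _).trans (le_trans (le_of_eq ?_) hsum.le)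
      refine tsum_congr fun r => ?_
      rw [Real.volume_Ioo]
      have : c * (r : ℝ) + (δ r : ℝ) / 2 - (c * (r : ℝ) - (δ r : ℝ) / 2) = (δ r : ℝ) := by ring
      rw [this, ENNReal.ofReal_coe_nnreal]
    calc ENNReal.ofReal (c - ε) = ENNReal.ofReal c - ENNReal.ofReal ε :=
          ENNReal.ofReal_sub _ hε.le
      _ ≤ volume (Icc 0 c) - volume U := by
          rw [Real.volume_Icc, sub_zero]
          exact tsub_le_tsub_left hU _
      _ ≤ volume (Icc 0 c \ U) := le_measure_sdiff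

/-- Choice of the number of gates in a window. -/
lemma exists_N (hn : 1 ≤ n) {E : Set (Eu n)} (hE : IsCompact E) (hE0 : volume E = 0)
    (w c δ0 : ℝ) (hw : 0 < w) (hδ0 : 0 < δ0) (τ : ℝ≥0∞) (hτ : τ ≠ 0) :
    ∃ N : ℕ, 0 < N ∧ w / (8 * N) ≤ δ0 ∧
      nrm ((thickening (w / (8 * N)) E).indicator fun _ => ENNReal.ofReal (8 * c / w)) ≤ τ := by
  have hn0 : (0 : ℝ) < n := by exact_mod_cast (by omega : 0 < n)
  have h1 : Tendsto (fun N : ℕ => w / (8 * (N : ℝ))) atTop (𝓝 0) := by
    have : Tendsto (fun N : ℕ => (w / 8) / (N : ℝ)) atTop (𝓝 0) :=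
      tendsto_const_div_atTop_nhds_zero_nat _
    refine this.congr fun N => ?_
    rw [div_div]
  have h2 : Tendsto (fun N : ℕ => w / (8 * (N : ℝ))) atTop (𝓝[>] 0) := by
    refine tendsto_nhdsWithin_iff.2 ⟨h1, ?_⟩
    filter_upwards [eventually_gt_atTop 0] with N hN
    have : (0 : ℝ) < N := by exact_mod_cast hN
    exact mem_Ioi.2 (by positivity)
  have h3 : Tendsto (fun r => volume (thickening r E)) (𝓝[>] 0) (𝓝 (volume E)) := by
    refine tendsto_measure_thickening_of_isClosed ⟨1, one_pos, ?_⟩ hE.isClosed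
    exact (hE.isBounded.thickening (δ := 1)).measure_lt_top.ne
  rw [hE0] at h3
  have h4 : Tendsto (fun N : ℕ => ENNReal.ofReal (8 * c / w) *
      volume (thickening (w / (8 * (N : ℝ))) E) ^ ((n : ℝ)⁻¹)) atTop (𝓝 0) := by
    have h5 : Tendsto (fun N : ℕ => volume (thickening (w / (8 * (N : ℝ))) E) ^ ((n : ℝ)⁻¹))
        atTop (𝓝 ((0 : ℝ≥0∞) ^ ((n : ℝ)⁻¹))) :=
      (ENNReal.continuous_rpow_const.tendsto _).comp (h3.comp h2)
    rw [ENNReal.zero_rpow_of_pos (inv_pos.2 hn0)] at h5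
    simpa using ENNReal.Tendsto.const_mul h5 (Or.inr ENNReal.ofReal_ne_top)
  have h6 : ∀ᶠ N : ℕ in atTop, ENNReal.ofReal (8 * c / w) *
      volume (thickening (w / (8 * (N : ℝ))) E) ^ ((n : ℝ)⁻¹) ≤ τ :=
    (h4.eventually (gt_mem_nhds (pos_iff_ne_zero.2 hτ))).mono fun _ h => h.le
  have h7 : ∀ᶠ N : ℕ in atTop, w / (8 * (N : ℝ)) ≤ δ0 :=
    (h1.eventually (gt_mem_nhds hδ0)).mono fun _ h => h.le
  obtain ⟨N, hN1, hN2, hN3⟩ := (h6.and (h7.and (eventually_gt_atTop 0))).exists
  refine ⟨N, hN3, hN2, ?_⟩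
  rw [nrm_indicator_const hn _ isOpen_thickening.measurableSet]
  exact hN1

/-- The windows. -/
abbrev Win (n : ℕ) : Type := Fin n × ℚ × {w : ℚ // 0 < w}

/-- Position of gate `l`. -/
noncomputable def pos (m : Win n) (N l : ℕ) : ℝ :=
  (m.2.1 : ℝ) + (m.2.2 : ℚ) * ((l : ℝ) + 1 / 2) / N

/-- Half-width of the gates. -/
noncomputable def rad (m : Win n) (N : ℕ) : ℝ := ((m.2.2 : ℚ) : ℝ) / (8 * N)

/-- The open gate. -/
def gate (m : Win n) (N l : ℕ) : Set (Eu n) := {x | |x m.1 - pos m N l| < rad m N}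

/-- The open interval of levels. -/
def lev (c : ℝ) (N l : ℕ) : Set ℝ := Ioo (l * c / N) ((l + 1) * c / N)

lemma isOpen_gate (m : Win n) (N l : ℕ) : IsOpen (gate m N l) := by
  unfold gate
  refine isOpen_lt ?_ continuous_const
  fun_prop

/-- The set `K`. -/
def KK (E : Set (Eu n)) (u : Eu n → ℝ) (c : ℝ) (Q : Set ℝ) (N : Win n → ℕ) : Set (Eu n) :=
  E ∩ u ⁻¹' Q ∩ (⋃ (m : Win n) (l : ℕ) (_ : l < N m), u ⁻¹' (lev c (N m) l) ∩ gate m (N m) l)ᶜ

lemma isClosed_KK {E : Set (Eu n)} {u : Eu n → ℝ} {c : ℝ} {Q : Set ℝ} {N : Win n → ℕ}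
    (hE : IsClosed E) (hu : Continuous u) (hQ : IsClosed Q) : IsClosed (KK E u c Q N) := by
  unfold KK
  refine (hE.inter (hQ.preimage hu)).inter (IsOpen.isClosed_compl ?_)
  refine isOpen_iUnion fun m => isOpen_iUnion fun l => isOpen_iUnion fun _ => ?_
  exact (isOpen_Ioo.preimage hu).inter (isOpen_gate _ _ _)

/-- Every level of `Q` is in exactly one level interval. -/
lemma exists_lev {c : ℝ} (hc : 0 < c) {Q : Set ℝ} (hQ : Q ⊆ Icc 0 c)
    (hQr : ∀ r : ℚ, c * (r : ℝ) ∉ Q) {N : ℕ} (hN : 0 < N) {q : ℝ} (hq : q ∈ Q) :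
    ∃ l < N, q ∈ lev c N l := by
  have hN' : (0 : ℝ) < N := by exact_mod_cast hN
  obtain ⟨h0, h1⟩ := hQ hq
  have hne : ∀ l : ℕ, q ≠ l * c / N := by
    intro l h
    apply hQr ((l : ℚ) / N)
    have : c * (((l : ℚ) / N : ℚ) : ℝ) = q := by
      rw [h]; push_cast; ring
    rw [this]; exact hq
  have hx : 0 ≤ q * N / c := by positivity
  refine ⟨⌊q * N / c⌋₊, ?_, ?_, ?_⟩
  · rw [Nat.floor_lt hx, div_lt_iff₀ hc]
    have : q ≠ c := by
      have := hne N
      intro h
      apply this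
      rw [h]; field_simp
    have : q < c := lt_of_le_of_ne h1 this
    nlinarith
  · have h2 := Nat.floor_le hx
    rw [le_div_iff₀ hc] at h2
    have h3 : (⌊q * N / c⌋₊ : ℝ) * c / N ≤ q := by
      rw [div_le_iff₀ hN']; exact h2
    exact lt_of_le_of_ne h3 (hne _).symm
  · have h2 := Nat.lt_floor_add_one (q * N / c)
    rw [div_lt_iff₀ hc] at h2
    rw [lt_div_iff₀ hN']
    exact h2

lemma totallyDisconnected_KK {E : Set (Eu n)} {u : Eu n → ℝ} {c : ℝ} (hc : 0 < c) {Q : Set ℝ}
    {N : Win n → ℕ} (hu : Continuous u) (hQ : Q ⊆ Icc 0 c) (hQr : ∀ r : ℚ, c * (r : ℝ) ∉ Q)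
    (hN : ∀ m, 0 < N m) : IsTotallyDisconnected (KK E u c Q N) := by
  intro C hC hpre
  have hconst : ∀ x ∈ C, ∀ y ∈ C, u x = u y := by
    have aux : ∀ x ∈ C, ∀ y ∈ C, ¬ u x < u y := by
      intro x hx y hy hlt
      have h1 : u x / c < u y / c := div_lt_div_of_pos_right hlt hc
      obtain ⟨r, hr1, hr2⟩ := exists_rat_btwn h1
      rw [div_lt_iff₀ hc] at hr1
      rw [lt_div_iff₀ hc] at hr2
      have h2 := hpre.intermediate_value hx hy hu.continuousOn
      have h3 : c * (r : ℝ) ∈ u '' C := h2 ⟨by linarith, by linarith⟩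
      obtain ⟨z, hz, hzr⟩ := h3
      apply hQr r
      rw [← hzr]
      exact (hC hz).1.2
    intro x hx y hy
    exact le_antisymm (not_lt.1 (aux y hy x hx)) (not_lt.1 (aux x hx y hy))
  have aux2 : ∀ x ∈ C, ∀ y ∈ C, ∀ i, ¬ x i < y i := by
    intro x hx y hy i hlt
    obtain ⟨p, hp1, hp2⟩ := exists_rat_btwn hlt
    obtain ⟨p', hp1', hp2'⟩ := exists_rat_btwn hp2
    have hpp : p < p' := by exact_mod_cast hp1'
    let m : Win n := (i, p, ⟨p' - p, sub_pos.2 hpp⟩)
    have hNm := hN m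
    have hN' : (0 : ℝ) < N m := by exact_mod_cast hNm
    obtain ⟨l, hl, hlev⟩ := exists_lev hc hQ hQr hNm (hC hx).1.2
    have hpos : pos m (N m) l ∈ Icc (x i) (y i) := by
      have hl' : (l : ℝ) + 1 ≤ N m := by exact_mod_cast hl
      have h1 : 0 ≤ ((l : ℝ) + 1 / 2) / N m := by positivity
      have h2 : ((l : ℝ) + 1 / 2) / N m ≤ 1 := by
        rw [div_le_one hN']; linarith
      have hw : (0 : ℝ) < ((p' - p : ℚ) : ℝ) := by exact_mod_cast sub_pos.2 hpp
      have h3 : pos m (N m) l = (p : ℝ) + ((p' - p : ℚ) : ℝ) * (((l : ℝ) + 1 / 2) / N m) := by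
        simp only [pos, m]; ring
      have h4 : ((p' - p : ℚ) : ℝ) = p' - p := by push_cast; ring
      rw [h3]
      constructor
      · have := mul_nonneg hw.le h1
        linarith
      · have := mul_le_mul_of_nonneg_left h2 hw.le
        rw [mul_one] at this
        linarith
    have hcont : ContinuousOn (fun z : Eu n => z i) C := by fun_prop
    obtain ⟨z, hz, hzi⟩ := hpre.intermediate_value hx hy hcont hpos
    apply (hC hz).2
    refine mem_iUnion.2 ⟨m, mem_iUnion.2 ⟨l, mem_iUnion.2 ⟨hl, ?_, ?_⟩⟩⟩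
    · have := hconst z hz x hx
      simp only [mem_preimage]
      rw [this]; exact hlev
    · show |z m.1 - pos m (N m) l| < rad m (N m)
      have hzi' : z m.1 = pos m (N m) l := hzi
      rw [hzi', sub_self, abs_zero]
      have hw : (0 : ℝ) < ((p' - p : ℚ) : ℝ) := by exact_mod_cast sub_pos.2 hpp
      simp only [rad, m]
      positivity
  intro x hx y hy
  ext i
  exact le_antisymm (not_lt.1 (aux2 y hy x hx i)) (not_lt.1 (aux2 x hx y hy i))

/-- The part of the interval `[0, T]` within distance `< r` of `t`. -/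
lemma volume_near {T r t : ℝ} (hr : 0 < r) (hrT : r ≤ T) (ht : t ∈ Icc 0 T) :
    ENNReal.ofReal r ≤ volume (Ioo (t - r) (t + r) ∩ Icc 0 T) := by
  have hsub : Ioo (max (t - r) 0) (min (t + r) T) ⊆ Ioo (t - r) (t + r) ∩ Icc 0 T := by
    intro s hs
    obtain ⟨h1, h2⟩ := hs
    rw [max_lt_iff] at h1
    rw [lt_min_iff] at h2
    exact ⟨⟨h1.1, h2.1⟩, h1.2.le, h2.2.le⟩
  refine le_trans ?_ (measure_mono hsub)
  rw [Real.volume_Ioo]
  refine ENNReal.ofReal_le_ofReal ?_
  obtain ⟨ht0, htT⟩ := ht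
  rcases le_total (t - r) 0 with h1 | h1 <;> rcases le_total (t + r) T with h2 | h2 <;>
    simp only [h1, h2, max_eq_right, max_eq_left, min_eq_left, min_eq_right] <;> linarith

/-- The set of the gates of window `m` met by the path inside `E`. -/
def hit (E : Set (Eu n)) (T : ℝ) (σ : ℝ → Eu n) (m : Win n) (N l : ℕ) : Prop :=
  ∃ t ∈ Icc 0 T, σ t ∈ E ∧ σ t ∈ gate m N l

open Classical in
/-- The gates which are hit are paid by the weight of the window. -/
lemma pay {E : Set (Eu n)} {T c : ℝ} {σ : ℝ → Eu n} (hσ : LipschitzWith 1 σ) (m : Win n)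
    {N : ℕ} (hN : 0 < N) (hc : 0 < c) (hrT : rad m N ≤ T) :
    ∑ l ∈ (Finset.range N).filter (fun l => hit E T σ m N l), ENNReal.ofReal (c / N) ≤
      ∫⁻ t in Icc 0 T, (thickening (rad m N) E).indicator
        (fun _ => ENNReal.ofReal (8 * c / ((m.2.2 : ℚ) : ℝ))) (σ t) := by
  have hN' : (0 : ℝ) < N := by exact_mod_cast hN
  have hw : (0 : ℝ) < ((m.2.2 : ℚ) : ℝ) := by exact_mod_cast m.2.2.2
  have hr : 0 < rad m N := by unfold rad; positivity
  set F := (Finset.range N).filter (fun l => hit E T σ m N l) with hF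
  have hhit : ∀ l : ℕ, ∃ t : ℝ, l ∈ F → t ∈ Icc 0 T ∧ σ t ∈ E ∧ σ t ∈ gate m N l := by
    intro l
    by_cases hl : l ∈ F
    · obtain ⟨t, h1, h2, h3⟩ := (Finset.mem_filter.1 hl).2
      exact ⟨t, fun _ => ⟨h1, h2, h3⟩⟩
    · exact ⟨0, fun h => absurd h hl⟩
  choose t ht using hhit
  set r := rad m N with hrdef
  let S : ℕ → Set ℝ := fun l => Ioo (t l - r) (t l + r) ∩ Icc 0 T
  have hSm : ∀ l, MeasurableSet (S l) := fun l => measurableSet_Ioo.inter measurableSet_Icc
  have hcoord : ∀ s s' : ℝ, |σ s m.1 - σ s' m.1| ≤ |s - s'| := by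
    intro s s'
    have h1 := hσ.dist_le_mul s s'
    have h2 : |σ s m.1 - σ s' m.1| ≤ dist (σ s) (σ s') := by
      have := PiLp.norm_apply_le (σ s - σ s') m.1
      rw [dist_eq_norm]
      simpa [Real.norm_eq_abs] using this
    simp only [NNReal.coe_one, one_mul, Real.dist_eq] at h1
    exact h2.trans h1
  have hdisj : (F : Set ℕ).PairwiseDisjoint S := by
    intro l hl l' hl' hne
    refine Set.disjoint_left.2 ?_
    intro s hs hs'
    obtain ⟨h1, h2, h3⟩ := ht l hl
    obtain ⟨h1', h2', h3'⟩ := ht l' hl'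
    have a1 : |σ s m.1 - pos m N l| < 2 * r := by
      have b1 := hcoord s (t l)
      have b2 : |s - t l| < r := by
        rw [abs_lt]; constructor <;> [linarith [hs.1.1]; linarith [hs.1.2]]
      have b3 : |σ (t l) m.1 - pos m N l| < r := h3
      have b4 := abs_add_le (σ s m.1 - σ (t l) m.1) (σ (t l) m.1 - pos m N l)
      have b5 : σ s m.1 - σ (t l) m.1 + (σ (t l) m.1 - pos m N l) = σ s m.1 - pos m N l := by ring
      rw [b5] at b4
      linarith
    have a2 : |σ s m.1 - pos m N l'| < 2 * r := by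
      have b1 := hcoord s (t l')
      have b2 : |s - t l'| < r := by
        rw [abs_lt]; constructor <;> [linarith [hs'.1.1]; linarith [hs'.1.2]]
      have b3 : |σ (t l') m.1 - pos m N l'| < r := h3'
      have b4 := abs_add_le (σ s m.1 - σ (t l') m.1) (σ (t l') m.1 - pos m N l')
      have b5 : σ s m.1 - σ (t l') m.1 + (σ (t l') m.1 - pos m N l')
        = σ s m.1 - pos m N l' := by ring
      rw [b5] at b4
      linarith
    have a3 : |pos m N l - pos m N l'| < 4 * r := by
      have b4 := abs_sub_le (pos m N l) (σ s m.1) (pos m N l')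
      rw [abs_sub_comm (pos m N l) (σ s m.1)] at b4
      linarith
    have a4 : pos m N l - pos m N l' = ((m.2.2 : ℚ) : ℝ) / N * ((l : ℝ) - l') := by
      simp only [pos]; ring
    rw [a4, abs_mul, abs_of_pos (by positivity)] at a3
    have a5 : (1 : ℝ) ≤ |(l : ℝ) - l'| := by
      have : (1 : ℤ) ≤ |(l : ℤ) - l'| := by
        apply Int.one_le_abs
        intro h
        apply hne
        have : (l : ℤ) = l' := by linarith
        exact_mod_cast this
      exact_mod_cast this
    have a6 : ((m.2.2 : ℚ) : ℝ) / N = 8 * r := by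
      rw [hrdef]; unfold rad; field_simp
    rw [a6] at a3
    nlinarith
  have hpt : ∀ l ∈ F, ∀ s ∈ S l, (thickening r E).indicator
      (fun _ => ENNReal.ofReal (8 * c / ((m.2.2 : ℚ) : ℝ))) (σ s)
        = ENNReal.ofReal (8 * c / ((m.2.2 : ℚ) : ℝ)) := by
    intro l hl s hs
    obtain ⟨h1, h2, h3⟩ := ht l hl
    rw [indicator_of_mem]
    rw [mem_thickening_iff]
    refine ⟨σ (t l), h2, ?_⟩
    have h4 := hσ.dist_le_mul s (t l)
    simp only [NNReal.coe_one, one_mul, Real.dist_eq] at h4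
    refine lt_of_le_of_lt h4 ?_
    rw [abs_lt]; constructor <;> [linarith [hs.1.1]; linarith [hs.1.2]]
  calc ∑ l ∈ F, ENNReal.ofReal (c / N)
      ≤ ∑ l ∈ F, ∫⁻ s in S l, (thickening r E).indicator
        (fun _ => ENNReal.ofReal (8 * c / ((m.2.2 : ℚ) : ℝ))) (σ s) := by
        refine Finset.sum_le_sum fun l hl => ?_
        rw [setLIntegral_congr_fun (hSm l) (hpt l hl), setLIntegral_const]
        have h1 := volume_near hr hrT (ht l hl).1
        calc ENNReal.ofReal (c / N)
            = ENNReal.ofReal (8 * c / ((m.2.2 : ℚ) : ℝ)) * ENNReal.ofReal r := by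
              rw [← ENNReal.ofReal_mul (by positivity)]
              congr 1
              rw [hrdef]; unfold rad; field_simp
          _ ≤ _ := by gcongr
    _ = ∫⁻ s in ⋃ l ∈ F, S l, (thickening r E).indicator
        (fun _ => ENNReal.ofReal (8 * c / ((m.2.2 : ℚ) : ℝ))) (σ s) :=
        (lintegral_biUnion_finset hdisj (fun l _ => hSm l) _).symm
    _ ≤ _ := lintegral_mono_set (iUnion₂_subset fun l _ => inter_subset_right)

end LayerAux

open MeasureTheory Set Filter Metric Nrm LayerAux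
open scoped ENNReal NNReal Topology

/-- LAYER. -/
theorem specLayer (hLvl : SpecLvl) : SpecLayer := by
  classical
  intro n hn E u c ε δ0 τ hE hE0 hu hc huc hε hδ0 hτ
  obtain ⟨Q, hQcl, hQsub, hQr, hQvol⟩ := exists_Q c ε hε
  obtain ⟨τ', hτ', hτsum⟩ := ENNReal.exists_pos_sum_of_countable hτ (Win n)
  have hNex : ∀ m : Win n, ∃ N : ℕ, 0 < N ∧ rad m N ≤ δ0 ∧
      nrm ((thickening (rad m N) E).indicator
        fun _ => ENNReal.ofReal (8 * c / ((m.2.2 : ℚ) : ℝ))) ≤ τ' m := by
    intro m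
    have hw : (0 : ℝ) < ((m.2.2 : ℚ) : ℝ) := by exact_mod_cast m.2.2.2
    have h1 : ((τ' m : ℝ≥0) : ℝ≥0∞) ≠ 0 := by
      have := hτ' m
      simpa using this.ne'
    obtain ⟨N, h2, h3, h4⟩ := exists_N hn hE hE0 _ c δ0 hw hδ0 _ h1
    exact ⟨N, h2, h3, h4⟩
  choose N hN hNδ hNτ using hNex
  let gm : Win n → Eu n → ℝ≥0∞ := fun m => (thickening (rad m (N m)) E).indicator
        fun _ => ENNReal.ofReal (8 * c / ((m.2.2 : ℚ) : ℝ))
  have hgm : ∀ m, Measurable (gm m) := fun m =>
    measurable_const.indicator isOpen_thickening.measurableSet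
  refine ⟨KK E u c Q N, fun x => ∑' m, gm m x, ?_, isClosed_KK hE.isClosed hu hQcl,
    totallyDisconnected_KK hc hu hQsub hQr hN, Measurable.tsum hgm, ?_, ?_⟩
  · intro x hx
    exact hx.1.1
  · refine (nrm_tsum_le hn hgm).trans (le_trans ?_ hτsum.le)
    exact ENNReal.tsum_le_tsum fun m => hNτ m
  · intro v T σ hv hT hσ hcount h0 h1 hE'
    have hT0 : 0 < T := lt_of_lt_of_le hδ0 hT
    have hσc : Continuous σ := hσ.continuous
    let f : ℝ → ℝ := fun t => u (σ t)
    have hf : Continuous f := hu.comp hσc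
    let O : Set ℝ := Ioo 0 T ∩ σ ⁻¹' Eᶜ
    have hO : IsOpen O := isOpen_Ioo.inter (hE.isClosed.isOpen_compl.preimage hσc)
    have hL : volume (f '' O) ≤ ∫⁻ t in O, v (σ t) := by
      refine hLvl f (fun t => v (σ t)) O hf (hv.comp hσc.measurable) hO ?_
      intro a b hab hsub
      refine hE' a b (hsub (left_mem_Icc.2 hab)).1.1.le hab (hsub (right_mem_Icc.2 hab)).1.2.le ?_
      intro t ht
      exact (hsub ht).2
    have hcover : Q ⊆ f '' O ∪ {0, c} ∪ u '' (σ '' Icc 0 T ∩ KK E u c Q N) ∪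
        ⋃ m : Win n, ⋃ l ∈ (Finset.range (N m)).filter (fun l => hit E T σ m (N m) l),
          lev c (N m) l := by
      intro q hq
      have hqc := hQsub hq
      have h2 : q ∈ f '' Icc 0 T := by
        have h3 := intermediate_value_Icc hT0.le hf.continuousOn
        apply h3
        have h4 : f 0 = 0 := h0
        have h5 : f T = c := h1
        rw [h4, h5]; exact hqc
      obtain ⟨t, ht, htq⟩ := h2
      by_cases hmem : σ t ∈ E
      · by_cases hK : σ t ∈ KK E u c Q N
        · left; right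
          exact ⟨σ t, ⟨⟨t, ht, rfl⟩, hK⟩, htq⟩
        · right
          have h3 : σ t ∈ ⋃ (m : Win n) (l : ℕ) (_ : l < N m),
              u ⁻¹' (lev c (N m) l) ∩ gate m (N m) l := by
            by_contra hcon
            apply hK
            refine ⟨⟨hmem, ?_⟩, hcon⟩
            simp only [mem_preimage]
            have : u (σ t) = q := htq
            rw [this]; exact hq
          simp only [mem_iUnion] at h3
          obtain ⟨m, l, hl, h4, h5⟩ := h3
          refine mem_iUnion.2 ⟨m, mem_iUnion.2 ⟨l, mem_iUnion.2 ⟨?_, ?_⟩⟩⟩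
          · rw [Finset.mem_filter, Finset.mem_range]
            exact ⟨hl, t, ht, hmem, h5⟩
          · have h6 : u (σ t) ∈ lev c (N m) l := h4
            have : u (σ t) = q := htq
            rwa [this] at h6
      · left; left
        rcases eq_or_lt_of_le ht.1 with h3 | h3
        · right
          left
          rw [← htq, ← h3]; exact h0
        · rcases eq_or_lt_of_le ht.2 with h4 | h4
          · right
            right
            have : q = c := by rw [← htq, h4]; exact h1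
            exact this
          · left
            exact ⟨t, ⟨⟨h3, h4⟩, hmem⟩, htq⟩
    have hv1 : volume ({0, c} : Set ℝ) = 0 :=
      (Set.Finite.measure_zero (by simp) _)
    have hv2 : volume (u '' (σ '' Icc 0 T ∩ KK E u c Q N)) = 0 :=
      (hcount.image u).measure_zero _
    have hv3 : volume (⋃ m : Win n, ⋃ l ∈ (Finset.range (N m)).filter
        (fun l => hit E T σ m (N m) l), lev c (N m) l) ≤
          ∑' m : Win n, ∫⁻ t in Icc 0 T, gm m (σ t) := by
      refine (measure_iUnion_le _).trans (ENNReal.tsum_le_tsum fun m => ?_)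
      refine (measure_biUnion_finset_le _ _).trans ?_
      refine le_trans (le_of_eq ?_) (pay hσ m (hN m) hc ((hNδ m).trans hT))
      refine Finset.sum_congr rfl fun l _ => ?_
      rw [lev, Real.volume_Ioo]
      congr 1
      have hN' : (0 : ℝ) < N m := by exact_mod_cast hN m
      field_simp
      ring
    calc ENNReal.ofReal (c - ε) ≤ volume Q := hQvol
      _ ≤ volume (f '' O ∪ {0, c} ∪ u '' (σ '' Icc 0 T ∩ KK E u c Q N) ∪
        ⋃ m : Win n, ⋃ l ∈ (Finset.range (N m)).filter (fun l => hit E T σ m (N m) l),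
          lev c (N m) l) := measure_mono hcover
      _ ≤ ((volume (f '' O) + volume ({0, c} : Set ℝ)) +
          volume (u '' (σ '' Icc 0 T ∩ KK E u c Q N))) +
          volume (⋃ m : Win n, ⋃ l ∈ (Finset.range (N m)).filter
            (fun l => hit E T σ m (N m) l), lev c (N m) l) :=
          (measure_union_le _ _).trans (add_le_add
            ((measure_union_le _ _).trans (add_le_add (measure_union_le _ _) le_rfl)) le_rfl)
      _ ≤ (∫⁻ t in Icc 0 T, v (σ t)) + ∑' m : Win n, ∫⁻ t in Icc 0 T, gm m (σ t) := by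
          rw [hv1, hv2, add_zero, add_zero]
          refine add_le_add (hL.trans (lintegral_mono_set ?_)) hv3
          exact inter_subset_left.trans Ioo_subset_Icc_self
      _ = cost (fun x => v x + ∑' m, gm m x) T σ := by
          have e1 : ∫⁻ t in Icc 0 T, (v (σ t) + ∑' m, gm m (σ t))
              = (∫⁻ t in Icc 0 T, v (σ t)) + ∫⁻ t in Icc 0 T, ∑' m, gm m (σ t) :=
            lintegral_add_left (hv.comp hσc.measurable) _
          have e2 : ∫⁻ t in Icc 0 T, ∑' m, gm m (σ t)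
              = ∑' m : Win n, ∫⁻ t in Icc 0 T, gm m (σ t) :=
            lintegral_tsum fun m => ((hgm m).comp hσc.measurable).aemeasurable
          rw [← e2, ← e1]
          rfl

end MPd4663a
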