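import Pool.Agent.Lib.MP_d4663a_an.Spec

/-!
# MP_d4663a_an: module LVL
-/

namespace MPd4663a

open MeasureTheory Set Filter Metric
open scoped ENNReal NNReal Topology

namespace Lvl

/-- the dyadic interval of level `j` containing `x` -/
noncomputable def lo (j : ℕ) (k : ℤ) : ℝ := (k : ℝ) / 2 ^ j

/-- the union of the dyadic intervals of level `j` whose closure is contained in `O` -/
def D (O : Set ℝ) (j : ℕ) : Set ℝ := {x | Icc (lo j ⌊2 ^ j * x⌋) (lo j (⌊2 ^ j * x⌋ + 1)) ⊆ O}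

theorem lo_mem (j : ℕ) (x : ℝ) : x ∈ Ico (lo j ⌊2 ^ j * x⌋) (lo j (⌊2 ^ j * x⌋ + 1)) := by
  have hp : (0 : ℝ) < 2 ^ j := by positivity
  unfold lo
  constructor
  · rw [div_le_iff₀ hp, mul_comm x]
    exact Int.floor_le _
  · rw [lt_div_iff₀ hp, mul_comm x]
    push_cast
    exact Int.lt_floor_add_one _

theorem floor_of_mem {j : ℕ} {k : ℤ} {x : ℝ} (hx : x ∈ Ico (lo j k) (lo j (k + 1))) :
    ⌊2 ^ j * x⌋ = k := by
  have hp : (0 : ℝ) < 2 ^ j := by positivity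
  unfold lo at hx
  obtain ⟨h1, h2⟩ := hx
  rw [div_le_iff₀ hp, mul_comm x] at h1
  rw [lt_div_iff₀ hp, mul_comm x] at h2
  push_cast at h2
  rw [Int.floor_eq_iff]
  exact ⟨h1, h2⟩

theorem D_mono (O : Set ℝ) : Monotone (D O) := by
  apply monotone_nat_of_le_succ
  intro j x hx
  refine Subset.trans (Icc_subset_Icc ?_ ?_) hx
  · unfold lo
    have hp : (0 : ℝ) < 2 ^ j := by positivity
    rw [div_le_div_iff₀ hp (by positivity)]
    have h1 : (2 * ⌊2 ^ j * x⌋ : ℤ) ≤ ⌊2 ^ (j + 1) * x⌋ := by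
      rw [Int.le_floor]
      have := Int.floor_le (2 ^ j * x)
      push_cast
      rw [pow_succ]
      linarith
    have h2 : ((2 * ⌊2 ^ j * x⌋ : ℤ) : ℝ) ≤ (⌊2 ^ (j + 1) * x⌋ : ℝ) := by exact_mod_cast h1
    push_cast at h2
    calc (⌊2 ^ j * x⌋ : ℝ) * 2 ^ (j + 1) = 2 * (⌊2 ^ j * x⌋ : ℝ) * 2 ^ j := by ring
      _ ≤ (⌊2 ^ (j + 1) * x⌋ : ℝ) * 2 ^ j := mul_le_mul_of_nonneg_right h2 hp.le
  · unfold lo
    have hp : (0 : ℝ) < 2 ^ j := by positivity
    rw [div_le_div_iff₀ (by positivity) hp]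
    have h1 : ⌊2 ^ (j + 1) * x⌋ < 2 * (⌊2 ^ j * x⌋ + 1) := by
      rw [Int.floor_lt]
      have := Int.lt_floor_add_one (2 ^ j * x)
      push_cast
      rw [pow_succ]
      linarith
    have h3 : ⌊2 ^ (j + 1) * x⌋ + 1 ≤ 2 * (⌊2 ^ j * x⌋ + 1) := h1
    have h2 : ((⌊2 ^ (j + 1) * x⌋ + 1 : ℤ) : ℝ) ≤ ((2 * (⌊2 ^ j * x⌋ + 1) : ℤ) : ℝ) := by
      exact_mod_cast h3
    push_cast at h2 ⊢
    calc ((⌊2 ^ (j + 1) * x⌋ : ℝ) + 1) * 2 ^ j ≤ 2 * ((⌊2 ^ j * x⌋ : ℝ) + 1) * 2 ^ j :=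
          mul_le_mul_of_nonneg_right h2 hp.le
      _ = ((⌊2 ^ j * x⌋ : ℝ) + 1) * 2 ^ (j + 1) := by ring

theorem D_union {O : Set ℝ} (hO : IsOpen O) : O = ⋃ j, D O j := by
  apply Subset.antisymm
  · intro x hx
    rw [Metric.isOpen_iff] at hO
    obtain ⟨ε, hε, h⟩ := hO x hx
    obtain ⟨j, hj⟩ := exists_pow_lt_of_lt_one hε (by norm_num : (1 / 2 : ℝ) < 1)
    refine mem_iUnion.2 ⟨j, Subset.trans ?_ h⟩
    intro y hy
    have h1 := lo_mem j x
    have h2 : lo j (⌊2 ^ j * x⌋ + 1) = lo j ⌊2 ^ j * x⌋ + (1 / 2) ^ j := by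
      unfold lo
      push_cast
      rw [add_div, one_div_pow]
    rw [mem_ball, Real.dist_eq, abs_lt]
    rw [h2] at h1 hy
    constructor <;> linarith [h1.1, h1.2, hy.1, hy.2]
  · apply iUnion_subset
    intro j x hx
    exact hx ⟨(lo_mem j x).1, (lo_mem j x).2.le⟩

theorem image_Icc {f : ℝ → ℝ} {h : ℝ → ℝ≥0∞} {O : Set ℝ} (hf : Continuous f)
    (H : ∀ a b, a ≤ b → Icc a b ⊆ O → ENNReal.ofReal |f a - f b| ≤ ∫⁻ t in Icc a b, h t)
    {a b : ℝ} (hab : a ≤ b) (hI : Icc a b ⊆ O) :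
    volume (f '' Icc a b) ≤ ∫⁻ t in Icc a b, h t := by
  have hne : (Icc a b).Nonempty := nonempty_Icc.2 hab
  obtain ⟨s, hs, hsmin⟩ := isCompact_Icc.exists_isMinOn hne hf.continuousOn
  obtain ⟨t, ht, htmax⟩ := isCompact_Icc.exists_isMaxOn hne hf.continuousOn
  have hsub : f '' Icc a b ⊆ Icc (f s) (f t) := by
    rintro _ ⟨x, hx, rfl⟩
    exact ⟨hsmin hx, htmax hx⟩
  have key : ∀ p q, p ∈ Icc a b → q ∈ Icc a b → p ≤ q →
      ENNReal.ofReal |f p - f q| ≤ ∫⁻ t in Icc a b, h t := by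
    intro p q hp hq hpq
    have hsub2 : Icc p q ⊆ Icc a b := Icc_subset_Icc hp.1 hq.2
    exact (H p q hpq (hsub2.trans hI)).trans (lintegral_mono_set hsub2)
  calc volume (f '' Icc a b) ≤ volume (Icc (f s) (f t)) := measure_mono hsub
    _ = ENNReal.ofReal (f t - f s) := Real.volume_Icc
    _ ≤ ENNReal.ofReal |f s - f t| := by
        apply ENNReal.ofReal_le_ofReal
        rw [abs_sub_comm]
        exact le_abs_self _
    _ ≤ ∫⁻ t in Icc a b, h t := by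
        rcases le_total s t with hst | hst
        · exact key s t hs ht hst
        · rw [abs_sub_comm]
          exact key t s ht hs hst

theorem level {f : ℝ → ℝ} {h : ℝ → ℝ≥0∞} {O : Set ℝ} (hf : Continuous f)
    (H : ∀ a b, a ≤ b → Icc a b ⊆ O → ENNReal.ofReal |f a - f b| ≤ ∫⁻ t in Icc a b, h t)
    (j : ℕ) : volume (f '' D O j) ≤ ∫⁻ t in O, h t := by
  let S : Set ℤ := {k | Icc (lo j k) (lo j (k + 1)) ⊆ O}
  have hlo : ∀ k, lo j k ≤ lo j (k + 1) := by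
    intro k
    unfold lo
    have : (k : ℝ) ≤ ((k + 1 : ℤ) : ℝ) := by push_cast; linarith
    gcongr
  have hD : D O j ⊆ ⋃ k : S, Ico (lo j k) (lo j (k + 1)) := by
    intro x hx
    exact mem_iUnion.2 ⟨⟨⌊2 ^ j * x⌋, hx⟩, lo_mem j x⟩
  have h1 : f '' D O j ⊆ ⋃ k : S, f '' Icc (lo j k) (lo j (k + 1)) := by
    rintro _ ⟨x, hx, rfl⟩
    obtain ⟨k, hk⟩ := mem_iUnion.1 (hD hx)
    exact mem_iUnion.2 ⟨k, x, ⟨hk.1, hk.2.le⟩, rfl⟩
  have hdisj : Pairwise (Function.onFun Disjoint fun k : S => Ico (lo j k) (lo j (k + 1))) := by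
    intro k k' hne
    rw [Function.onFun, Set.disjoint_left]
    intro x hx hx'
    apply hne
    apply Subtype.ext
    rw [← floor_of_mem hx, ← floor_of_mem hx']
  calc volume (f '' D O j) ≤ volume (⋃ k : S, f '' Icc (lo j k) (lo j (k + 1))) := measure_mono h1
    _ ≤ ∑' k : S, volume (f '' Icc (lo j k) (lo j (k + 1))) := measure_iUnion_le _
    _ ≤ ∑' k : S, ∫⁻ t in Icc (lo j k) (lo j (k + 1)), h t := by
        gcongr with k
        exact image_Icc hf H (hlo k) k.2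
    _ = ∑' k : S, ∫⁻ t in Ico (lo j k) (lo j (k + 1)), h t := by
        congr 1
        funext k
        rw [Measure.restrict_congr_set Ico_ae_eq_Icc]
    _ = ∫⁻ t in ⋃ k : S, Ico (lo j k) (lo j (k + 1)), h t :=
        (lintegral_iUnion (fun k => measurableSet_Ico) hdisj h).symm
    _ ≤ ∫⁻ t in O, h t := by
        apply lintegral_mono_set
        apply iUnion_subset
        intro k x hx
        exact k.2 ⟨hx.1, hx.2.le⟩

end Lvl

theorem specLvl : SpecLvl := by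
  intro f h O hf _ hO H
  have hU : f '' O = ⋃ j, f '' Lvl.D O j := by
    conv_lhs => rw [Lvl.D_union hO]
    rw [image_iUnion]
  have hmono : Monotone fun j => f '' Lvl.D O j := fun i j hij => image_mono (Lvl.D_mono O hij)
  rw [hU, hmono.measure_iUnion]
  exact iSup_le fun j => Lvl.level hf H j

end MPd4663a
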