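import Pool.Agent.Lib.MP_d4663a_an.Spec

/-!
# MP_d4663a_an: METRIC

`dd` is an extended pseudometric, with the comparison to the Euclidean distance.
General lemmas: `Good.reverse`, `cost_reverse`, `Good.concat`, `cost_concat`.
-/

namespace MPd4663a

open MeasureTheory Set Filter Metric
open scoped ENNReal NNReal Topology

namespace Metr

variable {n : ℕ}

/-- concatenation of two paths, the first one of duration `T`. -/
noncomputable def concat (T : ℝ) (σ τ : ℝ → Eu n) : ℝ → Eu n :=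
  fun t => if t ≤ T then σ t else τ (t - T)

/-- the reversed path. -/
def rev (T : ℝ) (σ : ℝ → Eu n) : ℝ → Eu n := fun t => σ (T - t)

theorem rev_zero (T : ℝ) (σ : ℝ → Eu n) : rev T σ 0 = σ T := by simp [rev]

theorem rev_end (T : ℝ) (σ : ℝ → Eu n) : rev T σ T = σ 0 := by simp [rev]

theorem rev_image (T : ℝ) (σ : ℝ → Eu n) : rev T σ '' Icc 0 T = σ '' Icc 0 T := by
  ext x
  constructor
  · rintro ⟨t, ht, rfl⟩
    exact ⟨T - t, ⟨by linarith [ht.2], by linarith [ht.1]⟩, rfl⟩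
  · rintro ⟨t, ht, rfl⟩
    exact ⟨T - t, ⟨by linarith [ht.2], by linarith [ht.1]⟩, by simp [rev]⟩

theorem lipschitz_rev {T : ℝ} {σ : ℝ → Eu n} (h : LipschitzWith 1 σ) :
    LipschitzWith 1 (rev T σ) := by
  apply LipschitzWith.of_dist_le_mul
  intro s t
  have h1 := h.dist_le_mul (T - s) (T - t)
  have h2 : dist (T - s) (T - t) = dist s t := by
    rw [Real.dist_eq, Real.dist_eq, abs_sub_comm s t]
    congr 1
    ring
  rw [h2] at h1
  exact h1

theorem _root_.MPd4663a.Good.reverse {E : Set (Eu n)} {T : ℝ} {σ : ℝ → Eu n} (h : Good E T σ) :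
    Good E T (rev T σ) := by
  refine ⟨h.1, lipschitz_rev h.2.1, ?_⟩
  rw [rev_image]
  exact h.2.2

theorem cost_reverse (w : Eu n → ℝ≥0∞) (T : ℝ) (σ : ℝ → Eu n) :
    cost w T (rev T σ) = cost w T σ := by
  unfold cost
  rw [← lintegral_indicator measurableSet_Icc, ← lintegral_indicator measurableSet_Icc,
    ← lintegral_sub_left_eq_self ((Icc (0 : ℝ) T).indicator fun t => w (σ t)) T]
  apply lintegral_congr
  intro t
  by_cases ht : t ∈ Icc (0 : ℝ) T
  · have ht' : T - t ∈ Icc (0 : ℝ) T := ⟨by linarith [ht.2], by linarith [ht.1]⟩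
    rw [indicator_of_mem ht, indicator_of_mem ht']
    rfl
  · have ht' : T - t ∉ Icc (0 : ℝ) T := by
      intro h
      exact ht ⟨by linarith [h.2], by linarith [h.1]⟩
    rw [indicator_of_notMem ht, indicator_of_notMem ht']

theorem concat_zero {T : ℝ} (hT : 0 ≤ T) (σ τ : ℝ → Eu n) : concat T σ τ 0 = σ 0 := by
  simp [concat, hT]

theorem concat_end {T S : ℝ} (hS : 0 ≤ S) {σ τ : ℝ → Eu n} (h : σ T = τ 0) :
    concat T σ τ (T + S) = τ S := by
  unfold concat
  by_cases h' : T + S ≤ T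
  · have : S = 0 := le_antisymm (by linarith) hS
    subst this
    simp [h]
  · rw [if_neg h']
    congr 1
    ring

theorem concat_of_le {T t : ℝ} (h : t ≤ T) (σ τ : ℝ → Eu n) : concat T σ τ t = σ t := by
  simp [concat, h]

theorem concat_of_ge {T t : ℝ} {σ τ : ℝ → Eu n} (h : σ T = τ 0) (ht : T ≤ t) :
    concat T σ τ t = τ (t - T) := by
  rcases ht.eq_or_lt with rfl | h'
  · simp [concat, h]
  · simp [concat, not_le.2 h']

theorem lipschitz_concat {T : ℝ} {σ τ : ℝ → Eu n} (hσ : LipschitzWith 1 σ)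
    (hτ : LipschitzWith 1 τ) (h : σ T = τ 0) : LipschitzWith 1 (concat T σ τ) := by
  have key : ∀ s t : ℝ, s ≤ t → dist (concat T σ τ s) (concat T σ τ t) ≤ t - s := by
    intro s t hst
    rcases le_total t T with ht | ht
    · rw [concat_of_le ht, concat_of_le (hst.trans ht)]
      have h1 := hσ.dist_le_mul s t
      rw [Real.dist_eq, abs_sub_comm, abs_of_nonneg (by linarith)] at h1
      simpa using h1
    · rcases le_total T s with hs | hs
      · rw [concat_of_ge h ht, concat_of_ge h hs]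
        have h1 := hτ.dist_le_mul (s - T) (t - T)
        rw [Real.dist_eq, abs_sub_comm, abs_of_nonneg (by linarith)] at h1
        simp only [NNReal.coe_one, one_mul] at h1
        linarith
      · rw [concat_of_ge h ht, concat_of_le hs]
        have h1 := hσ.dist_le_mul s T
        have h2 := hτ.dist_le_mul 0 (t - T)
        rw [Real.dist_eq, abs_sub_comm, abs_of_nonneg (by linarith)] at h1 h2
        simp only [NNReal.coe_one, one_mul] at h1 h2
        have h3 := dist_triangle (σ s) (σ T) (τ (t - T))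
        rw [h] at h3 h1
        linarith
  apply LipschitzWith.of_dist_le_mul
  intro s t
  rw [NNReal.coe_one, one_mul, Real.dist_eq]
  rcases le_total s t with hst | hst
  · rw [abs_sub_comm, abs_of_nonneg (by linarith)]
    exact key s t hst
  · rw [abs_of_nonneg (by linarith), dist_comm]
    exact key t s hst

theorem concat_image {T S : ℝ} {σ τ : ℝ → Eu n} (h : σ T = τ 0) :
    concat T σ τ '' Icc 0 (T + S) ⊆ σ '' Icc 0 T ∪ τ '' Icc 0 S := by
  rintro x ⟨t, ht, rfl⟩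
  rcases le_total t T with h1 | h1
  · left
    exact ⟨t, ⟨ht.1, h1⟩, (concat_of_le h1 σ τ).symm⟩
  · right
    exact ⟨t - T, ⟨by linarith, by linarith [ht.2]⟩, (concat_of_ge h h1).symm⟩

theorem _root_.MPd4663a.Good.concat {E : Set (Eu n)} {T S : ℝ} {σ τ : ℝ → Eu n} (h : Good E T σ)
    (h' : Good E S τ) (hj : σ T = τ 0) : Good E (T + S) (Metr.concat T σ τ) := by
  refine ⟨add_nonneg h.1 h'.1, lipschitz_concat h.2.1 h'.2.1 hj, ?_⟩
  refine (h.2.2.union h'.2.2).mono ?_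
  rw [← union_inter_distrib_right]
  exact inter_subset_inter_left _ (concat_image hj)

theorem cost_concat (w : Eu n → ℝ≥0∞) {T S : ℝ} (hT : 0 ≤ T) (hS : 0 ≤ S) {σ τ : ℝ → Eu n}
    (h : σ T = τ 0) :
    cost w (T + S) (concat T σ τ) = cost w T σ + cost w S τ := by
  unfold cost
  have h1 : Icc (0 : ℝ) (T + S) = Icc 0 T ∪ Ioc T (T + S) :=
    (Icc_union_Ioc_eq_Icc hT (by linarith)).symm
  rw [h1, lintegral_union measurableSet_Ioc]
  · congr 1
    · apply setLIntegral_congr_fun measurableSet_Icc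
      intro t ht
      simp only
      rw [concat_of_le ht.2]
    · rw [setLIntegral_congr (Ioc_ae_eq_Icc (μ := volume)).symm,
        ← lintegral_indicator measurableSet_Ioc, ← lintegral_indicator measurableSet_Ioc,
        ← lintegral_sub_right_eq_self ((Ioc (0 : ℝ) S).indicator fun t => w (τ t)) T]
      apply lintegral_congr
      intro t
      by_cases ht : t ∈ Ioc T (T + S)
      · have ht' : t - T ∈ Ioc (0 : ℝ) S := ⟨by linarith [ht.1], by linarith [ht.2]⟩
        rw [indicator_of_mem ht, indicator_of_mem ht', concat_of_ge h ht.1.le]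
      · have ht' : t - T ∉ Ioc (0 : ℝ) S := by
          intro h'
          exact ht ⟨by linarith [h'.1], by linarith [h'.2]⟩
        rw [indicator_of_notMem ht, indicator_of_notMem ht']
  · rw [Set.disjoint_left]
    intro t ht ht'
    exact absurd ht.2 (not_le.2 ht'.1)

theorem exists_of_dd_lt {E : Set (Eu n)} {w : Eu n → ℝ≥0∞} {x y : Eu n} {a : ℝ≥0∞}
    (h : dd E w x y < a) :
    ∃ (T : ℝ) (σ : ℝ → Eu n), Good E T σ ∧ σ 0 = x ∧ σ T = y ∧ cost w T σ < a := by
  unfold dd at h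
  simp only [iInf_lt_iff] at h
  obtain ⟨T, σ, ⟨h1, h2, h3⟩, h4⟩ := h
  exact ⟨T, σ, h1, h2, h3, h4⟩

theorem dd_le_cost {E : Set (Eu n)} (w : Eu n → ℝ≥0∞) {T : ℝ} {σ : ℝ → Eu n}
    (h : Good E T σ) : dd E w (σ 0) (σ T) ≤ cost w T σ := by
  unfold dd
  exact iInf_le_of_le T (iInf_le_of_le σ (iInf_le_of_le ⟨h, rfl, rfl⟩ le_rfl))

theorem good_const (E : Set (Eu n)) (x : Eu n) : Good E 0 (fun _ => x) := by
  refine ⟨le_rfl, LipschitzWith.of_dist_le_mul (by simp), ?_⟩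
  refine (countable_singleton x).mono ?_
  rintro y ⟨⟨t, _, rfl⟩, _⟩
  rfl

theorem cost_zero (w : Eu n → ℝ≥0∞) (σ : ℝ → Eu n) : cost w 0 σ = 0 := by
  unfold cost
  rw [Icc_self]
  exact setLIntegral_measure_zero _ _ (by simp)

theorem dd_self (E : Set (Eu n)) (w : Eu n → ℝ≥0∞) (x : Eu n) : dd E w x x = 0 := by
  have := dd_le_cost w (good_const E x)
  rw [cost_zero] at this
  exact le_antisymm this bot_le

theorem dd_comm_le (E : Set (Eu n)) (w : Eu n → ℝ≥0∞) (x y : Eu n) :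
    dd E w x y ≤ dd E w y x := by
  apply le_of_forall_gt
  intro a ha
  obtain ⟨T, σ, h1, h2, h3, h4⟩ := exists_of_dd_lt ha
  have h5 := dd_le_cost w h1.reverse
  rw [rev_zero, rev_end, h2, h3, cost_reverse] at h5
  exact h5.trans_lt h4

theorem dd_comm (E : Set (Eu n)) (w : Eu n → ℝ≥0∞) (x y : Eu n) :
    dd E w x y = dd E w y x := le_antisymm (dd_comm_le E w x y) (dd_comm_le E w y x)

theorem dd_triangle (E : Set (Eu n)) (w : Eu n → ℝ≥0∞) (x y z : Eu n) :
    dd E w x z ≤ dd E w x y + dd E w y z := by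
  apply ENNReal.le_of_forall_pos_le_add
  intro ε hε hfin
  have hxy : dd E w x y ≠ ∞ := fun h => by simp [h] at hfin
  have hyz : dd E w y z ≠ ∞ := fun h => by simp [h] at hfin
  have he : (0 : ℝ≥0∞) < (ε / 2 : ℝ≥0) := by
    rw [ENNReal.coe_pos]
    exact half_pos hε
  obtain ⟨T, σ, h1, h2, h3, h4⟩ := exists_of_dd_lt (ENNReal.lt_add_right hxy he.ne')
  obtain ⟨S, τ, g1, g2, g3, g4⟩ := exists_of_dd_lt (ENNReal.lt_add_right hyz he.ne')
  have hj : σ T = τ 0 := by rw [h3, g2]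
  have h5 := dd_le_cost w (h1.concat g1 hj)
  rw [concat_zero h1.1, concat_end g1.1 hj, h2, g3, cost_concat w h1.1 g1.1 hj] at h5
  refine h5.trans ((add_le_add h4.le g4.le).trans (le_of_eq ?_))
  have h6 : ((ε / 2 : ℝ≥0) : ℝ≥0∞) + (ε / 2 : ℝ≥0) = (ε : ℝ≥0∞) := by
    rw [← ENNReal.coe_add, add_halves]
  calc dd E w x y + ((ε / 2 : ℝ≥0) : ℝ≥0∞) + (dd E w y z + ((ε / 2 : ℝ≥0) : ℝ≥0∞))
      = dd E w x y + dd E w y z + (((ε / 2 : ℝ≥0) : ℝ≥0∞) + (ε / 2 : ℝ≥0)) := by ring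
    _ = _ := by rw [h6]

theorem cost_ge {w : Eu n → ℝ≥0∞} {c0 : ℝ≥0} (hw : ∀ x, (c0 : ℝ≥0∞) ≤ w x) (T : ℝ)
    (σ : ℝ → Eu n) : (c0 : ℝ≥0∞) * ENNReal.ofReal T ≤ cost w T σ := by
  unfold cost
  calc (c0 : ℝ≥0∞) * ENNReal.ofReal T = ∫⁻ _ in Icc (0 : ℝ) T, (c0 : ℝ≥0∞) := by
        rw [setLIntegral_const, Real.volume_Icc, sub_zero]
    _ ≤ _ := lintegral_mono fun t => hw _

theorem edist_le {T : ℝ} (hT : 0 ≤ T) {σ : ℝ → Eu n} (hσ : LipschitzWith 1 σ) :
    edist (σ 0) (σ T) ≤ ENNReal.ofReal T := by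
  have h1 := hσ.dist_le_mul 0 T
  rw [Real.dist_eq, abs_sub_comm, sub_zero, abs_of_nonneg hT, NNReal.coe_one, one_mul] at h1
  rw [edist_dist]
  exact ENNReal.ofReal_le_ofReal h1

theorem le_cost {w : Eu n → ℝ≥0∞} {c0 : ℝ≥0} (hw : ∀ x, (c0 : ℝ≥0∞) ≤ w x) {T : ℝ}
    (hT : 0 ≤ T) {σ : ℝ → Eu n} (hσ : LipschitzWith 1 σ) :
    (c0 : ℝ≥0∞) * edist (σ 0) (σ T) ≤ cost w T σ :=
  (mul_le_mul_right (edist_le hT hσ) _).trans (cost_ge hw T σ)

theorem le_dd (E : Set (Eu n)) {w : Eu n → ℝ≥0∞} {c0 : ℝ≥0} (hw : ∀ x, (c0 : ℝ≥0∞) ≤ w x)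
    (x y : Eu n) : (c0 : ℝ≥0∞) * edist x y ≤ dd E w x y := by
  unfold dd
  refine le_iInf fun T => le_iInf fun σ => le_iInf fun h => ?_
  obtain ⟨h1, rfl, rfl⟩ := h
  exact le_cost hw h1.1 h1.2.1

end Metr

/-- METRIC. -/
theorem specMetric : SpecMetric := by
  intro n E w _
  exact ⟨Metr.dd_self E w, Metr.dd_comm E w, Metr.dd_triangle E w,
    fun c0 hw x y => Metr.le_dd E hw x y⟩

end MPd4663a
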