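import Pool.Agent.Lib.MP_d4663a_an.Spec

/-!
# MP_d4663a_an: MODLOW, a lower bound for the modulus of a cube
-/

namespace MPd4663a

open MeasureTheory Set Filter Metric
open scoped ENNReal NNReal Topology

namespace ModLow

variable {n : ℕ}

/-- The unit vector. -/
noncomputable def ev (i : Fin n) : Eu n := EuclideanSpace.single i (1 : ℝ)

theorem norm_ev (i : Fin n) : ‖ev i‖ = 1 := by
  simp [ev]

theorem ev_same (i : Fin n) : (ev i) i = 1 := by
  simp [ev]

theorem ev_ne {i j : Fin n} (h : j ≠ i) : (ev i) j = 0 := by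
  simp [ev, h]

theorem add_smul_apply (z : Eu n) (t : ℝ) (i j : Fin n) :
    (z + t • ev i) j = z j + t * (ev i) j := by
  simp

theorem measurableSet_cube (x : Eu n) (h : ℝ) : MeasurableSet (cube x h) := by
  have : cube x h = ⋂ i, {y : Eu n | |y i - x i| ≤ h / 2} := by
    ext y; simp [cube]
  rw [this]
  refine MeasurableSet.iInter fun i => ?_
  refine measurableSet_le ?_ measurable_const
  have h1 : Measurable fun y : Eu n => y i := by fun_prop
  exact (h1.sub measurable_const).abs

theorem volume_cube (x : Eu n) (h : ℝ) : volume (cube x h) = ENNReal.ofReal h ^ n := by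
  have h1 := (PiLp.volume_preserving_ofLp (Fin n)).measure_preimage
    (s := Set.pi Set.univ fun i => Icc (x i - h / 2) (x i + h / 2))
    (MeasurableSet.univ_pi fun i => measurableSet_Icc).nullMeasurableSet
  have h2 : (WithLp.ofLp ⁻¹' (Set.pi Set.univ fun i => Icc (x i - h / 2) (x i + h / 2)) :
      Set (Eu n)) = cube x h := by
    ext y
    simp only [mem_preimage, Set.mem_pi, mem_univ, forall_true_left, cube, mem_ofPred_eq, mem_Icc,
      abs_le]
    refine forall_congr' fun i => ?_
    constructor
    · rintro ⟨h1, h2⟩; constructor <;> linarith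
    · rintro ⟨h1, h2⟩; constructor <;> linarith
  rw [h2] at h1
  rw [h1, volume_pi_pi]
  have h3 : ∀ i : Fin n, x i + h / 2 - (x i - h / 2) = h := fun i => by ring
  simp only [Real.volume_Icc, h3, Finset.prod_const, Finset.card_univ, Fintype.card_fin]

/-- The lower bound for the integral along a line. -/
theorem line_bound (hB : SpecCurveB) (x : Eu n) {h : ℝ} (hh : 0 < h) (i : Fin n)
    {ρ : Eu n → ℝ≥0∞} (hρ : Admissible (joining (face x h i (-1)) (face x h i 1)) ρ)
    {z : Eu n} (hz : z ∈ cube x h) :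
    1 ≤ ∫⁻ t : ℝ, (cube x h).indicator ρ (z + t • ev i) := by
  set a : ℝ := z i - x i + h / 2 with ha
  set σ : ℝ → Eu n := fun t => z + (t - a) • ev i with hσ
  have hL : LipschitzWith 1 σ := by
    refine LipschitzWith.of_dist_le_mul fun s t => ?_
    simp only [hσ, dist_add_left, NNReal.coe_one, one_mul]
    rw [dist_eq_norm, ← sub_smul, norm_smul, norm_ev, mul_one, Real.norm_eq_abs, Real.dist_eq]
    have : s - a - (t - a) = s - t := by ring
    rw [this]
  obtain ⟨γ, hr, hs, hf, -, hint⟩ := hB n h σ hh.le hL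
  have hcoord : ∀ t j, (σ t) j = z j + (t - a) * (ev i) j := fun t j => add_smul_apply z (t - a) i j
  have hzc : ∀ j, |z j - x j| ≤ h / 2 := hz
  have hmem : ∀ t, t ∈ Icc 0 h → σ t ∈ cube x h := by
    intro t ht j
    rw [hcoord]
    by_cases hj : j = i
    · subst hj
      rw [ev_same, ha, abs_le]
      constructor <;> [linarith [ht.1]; linarith [ht.2]]
    · rw [ev_ne hj, mul_zero, add_zero]
      exact hzc j
  have h0 : σ 0 ∈ face x h i (-1) := by
    refine ⟨hmem 0 ⟨le_refl _, hh.le⟩, ?_⟩
    rw [hcoord, ev_same, ha]; ring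
  have h1 : σ h ∈ face x h i 1 := by
    refine ⟨hmem h ⟨hh.le, le_refl _⟩, ?_⟩
    rw [hcoord, ev_same, ha]; ring
  have h2 : 1 ≤ cost ρ h σ := by
    refine le_trans (hρ.2 γ ⟨?_, ?_⟩ hr) (hint ρ hρ.1)
    · rw [hs]; exact h0
    · rw [hf]; exact h1
  refine le_trans h2 ?_
  unfold cost
  rw [← lintegral_add_right_eq_self (μ := (volume : Measure ℝ))
    (fun t => (cube x h).indicator ρ (z + t • ev i)) (-a)]
  rw [← lintegral_indicator measurableSet_Icc]
  refine lintegral_mono fun t => ?_
  by_cases ht : t ∈ Icc 0 h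
  · have h3 := hmem t ht
    rw [indicator_of_mem ht]
    have h4 : z + (t + -a) • ev i = σ t := by simp only [hσ, sub_eq_add_neg]
    rw [h4, indicator_of_mem h3]
  · rw [indicator_of_notMem ht]
    exact bot_le

/-- Integral over the cube. -/
theorem cube_bound (hB : SpecCurveB) (x : Eu n) {h : ℝ} (hh : 0 < h) (i : Fin n)
    {ρ : Eu n → ℝ≥0∞} (hρ : Admissible (joining (face x h i (-1)) (face x h i 1)) ρ) :
    volume (cube x h) ≤ ∫⁻ z in cube x h, ENNReal.ofReal h * ρ z := by
  set Q := cube x h with hQ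
  have hQm : MeasurableSet Q := measurableSet_cube x h
  have hf : Measurable (Q.indicator ρ) := hρ.1.indicator hQm
  have hg : Measurable (Q.indicator (fun _ => (1 : ℝ≥0∞))) := measurable_const.indicator hQm
  have hev : Measurable fun p : Eu n × ℝ => p.1 + p.2 • ev i := by fun_prop
  have hev' : Measurable fun p : Eu n × ℝ => p.1 - p.2 • ev i := by fun_prop
  calc volume Q = ∫⁻ z, Q.indicator (fun _ => (1 : ℝ≥0∞)) z := by
        rw [lintegral_indicator hQm]; simp
    _ ≤ ∫⁻ z, ∫⁻ t : ℝ, Q.indicator (fun _ => (1 : ℝ≥0∞)) z * Q.indicator ρ (z + t • ev i) := by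
        refine lintegral_mono fun z => ?_
        by_cases hz : z ∈ Q
        · simp only [indicator_of_mem hz, one_mul]
          exact line_bound hB x hh i hρ hz
        · rw [indicator_of_notMem hz]
          exact bot_le
    _ = ∫⁻ t : ℝ, ∫⁻ z, Q.indicator (fun _ => (1 : ℝ≥0∞)) z * Q.indicator ρ (z + t • ev i) := by
        refine lintegral_lintegral_swap ?_
        refine Measurable.aemeasurable ?_
        exact (hg.comp measurable_fst).mul (hf.comp hev)
    _ = ∫⁻ t : ℝ, ∫⁻ z, Q.indicator (fun _ => (1 : ℝ≥0∞)) (z - t • ev i) * Q.indicator ρ z := by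
        refine lintegral_congr fun t => ?_
        rw [← lintegral_add_right_eq_self (μ := (volume : Measure (Eu n)))
          (fun z => Q.indicator (fun _ => (1 : ℝ≥0∞)) (z - t • ev i) * Q.indicator ρ z) (t • ev i)]
        simp only [add_sub_cancel_right]
    _ = ∫⁻ z, ∫⁻ t : ℝ, Q.indicator (fun _ => (1 : ℝ≥0∞)) (z - t • ev i) * Q.indicator ρ z := by
        refine lintegral_lintegral_swap ?_
        refine Measurable.aemeasurable ?_
        exact (hg.comp (hev'.comp measurable_swap)).mul (hf.comp measurable_snd)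
    _ = ∫⁻ z in Q, ENNReal.ofReal h * ρ z := by
        rw [← lintegral_indicator hQm]
        refine lintegral_congr fun z => ?_
        by_cases hz : z ∈ Q
        · have hz' : ∀ j, |z j - x j| ≤ h / 2 := hz
          rw [indicator_of_mem hz]
          simp only [indicator_of_mem hz]
          have hgm : Measurable fun t : ℝ => Q.indicator (fun _ => (1 : ℝ≥0∞)) (z - t • ev i) :=
            hg.comp (by fun_prop : Measurable fun t : ℝ => z - t • ev i)
          rw [lintegral_mul_const (ρ z) hgm]
          congr 1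
          · have h5 : ∀ t : ℝ, Q.indicator (fun _ => (1 : ℝ≥0∞)) (z - t • ev i) =
                (Icc (z i - x i - h / 2) (z i - x i + h / 2)).indicator (fun _ => (1 : ℝ≥0∞)) t := by
              intro t
              have h6 : z - t • ev i ∈ Q ↔ t ∈ Icc (z i - x i - h / 2) (z i - x i + h / 2) := by
                have hc : ∀ j, (z - t • ev i) j = z j - t * (ev i) j := fun j => by simp
                constructor
                · intro h7
                  have h8 := h7 i
                  rw [hc, ev_same, abs_le] at h8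
                  constructor <;> linarith [h8.1, h8.2]
                · rintro ⟨h7, h8⟩ j
                  rw [hc]
                  by_cases hj : j = i
                  · subst hj
                    rw [ev_same, abs_le]
                    constructor <;> linarith
                  · rw [ev_ne hj, mul_zero, sub_zero]
                    exact hz' j
              by_cases h7 : z - t • ev i ∈ Q
              · rw [indicator_of_mem h7, indicator_of_mem (h6.1 h7)]
              · rw [indicator_of_notMem h7, indicator_of_notMem (fun h8 => h7 (h6.2 h8))]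
            simp only [h5]
            rw [lintegral_indicator measurableSet_Icc]
            simp only [lintegral_const, one_mul, Measure.restrict_apply MeasurableSet.univ,
              univ_inter, Real.volume_Icc]
            congr 1; ring
        · simp only [indicator_of_notMem hz, mul_zero, lintegral_zero]

/-- Bernoulli's inequality in `ℝ≥0∞`. -/
theorem bernoulli (a : ℝ≥0∞) (n : ℕ) (hn : 1 ≤ n) : n * a ≤ a ^ n + ((n - 1 : ℕ) : ℝ≥0∞) := by
  by_cases ha : a = ∞
  · subst ha
    rw [ENNReal.top_pow (by omega), top_add]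
    exact le_top
  · lift a to ℝ≥0 using ha
    have h1 : (n : ℝ≥0) * a ≤ a ^ n + ((n - 1 : ℕ) : ℝ≥0) := by
      rw [← NNReal.coe_le_coe]
      have h2 := one_add_mul_sub_le_pow (a := (a : ℝ)) (by linarith [a.2]) n
      have h3 : (((n - 1 : ℕ) : ℝ≥0) : ℝ) = (n : ℝ) - 1 := by
        rw [NNReal.coe_natCast, Nat.cast_sub hn, Nat.cast_one]
      rw [NNReal.coe_add, h3, NNReal.coe_mul, NNReal.coe_pow, NNReal.coe_natCast]
      nlinarith [h2]
    exact_mod_cast h1

end ModLow

open ModLow in
/-- MODLOW. -/
theorem specModLow (hB : SpecCurveB) : SpecModLow := by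
  intro n hn x h i hh
  refine le_iInf fun ρ => le_iInf fun hρ => ?_
  have h1 := cube_bound hB x hh i hρ
  have hV := volume_cube x h
  set V := volume (cube x h) with hVdef
  have hofr : ENNReal.ofReal h ≠ 0 := by
    rw [Ne, ENNReal.ofReal_eq_zero, not_le]; exact hh
  have hV0 : V ≠ 0 := by
    rw [hV]; exact pow_ne_zero _ hofr
  have hVt : V ≠ ∞ := by
    rw [hV]; exact ENNReal.pow_ne_top ENNReal.ofReal_ne_top
  have h2 : (n : ℝ≥0∞) * ∫⁻ z in cube x h, ENNReal.ofReal h * ρ z ≤
      (∫⁻ z in cube x h, (ENNReal.ofReal h * ρ z) ^ n) + ((n - 1 : ℕ) : ℝ≥0∞) * V := by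
    rw [← lintegral_const_mul _ (hρ.1.const_mul _)]
    have h3 : ((n - 1 : ℕ) : ℝ≥0∞) * V = ∫⁻ z in cube x h, ((n - 1 : ℕ) : ℝ≥0∞) := by
      rw [lintegral_const, Measure.restrict_apply MeasurableSet.univ, univ_inter]
    rw [h3, ← lintegral_add_right _ measurable_const]
    exact lintegral_mono fun z => bernoulli _ n hn
  have h4 : V ≤ ∫⁻ z in cube x h, (ENNReal.ofReal h * ρ z) ^ n := by
    have h5 : (n : ℝ≥0∞) * V ≤
        (∫⁻ z in cube x h, (ENNReal.ofReal h * ρ z) ^ n) + ((n - 1 : ℕ) : ℝ≥0∞) * V :=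
      le_trans (mul_le_mul_right h1 _) h2
    have h6 : (n : ℝ≥0∞) * V = V + ((n - 1 : ℕ) : ℝ≥0∞) * V := by
      have : (n : ℝ≥0∞) = 1 + ((n - 1 : ℕ) : ℝ≥0∞) := by
        have h7 : n = 1 + (n - 1) := by omega
        exact_mod_cast congrArg (Nat.cast : ℕ → ℝ≥0∞) h7
      rw [this]; ring
    rw [h6] at h5
    exact (ENNReal.add_le_add_iff_right (ENNReal.mul_ne_top (ENNReal.natCast_ne_top _) hVt)).1 h5
  have h7 : (∫⁻ z in cube x h, (ENNReal.ofReal h * ρ z) ^ n) ≤ V * ∫⁻ z, ρ z ^ n := by
    rw [hV]
    simp only [mul_pow]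
    rw [lintegral_const_mul _ (hρ.1.pow_const n)]
    exact mul_le_mul_right (setLIntegral_le_lintegral _ _) _
  have h8 : V * 1 ≤ V * ∫⁻ z, ρ z ^ n := by rw [mul_one]; exact le_trans h4 h7
  exact (ENNReal.mul_le_mul_iff_right hV0 hVt).1 h8

end MPd4663a
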