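import Pool.Agent.Lib.MP_d4663a_an.Spec

/-!
# MP_d4663a_an: module NET
-/

namespace MPd4663a

open MeasureTheory Set Filter Metric
open scoped ENNReal NNReal Topology

namespace Net

/-! ### Jensen -/

theorem jensen {α : Type*} [MeasurableSpace α] (μ : Measure α) [IsProbabilityMeasure μ]
    (f : α → ℝ≥0∞) (hf : Measurable f) (p : ℕ) (hp : 1 ≤ p) :
    (∫⁻ s, f s ∂μ) ^ p ≤ ∫⁻ s, f s ^ p ∂μ := by
  have hp0 : (0 : ℝ) < p := by exact_mod_cast hp
  have h := eLpNorm'_le_eLpNorm'_of_exponent_le (f := f) (p := 1) (q := (p : ℝ)) one_pos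
    (by exact_mod_cast hp) μ hf.aestronglyMeasurable
  rw [eLpNorm'_eq_lintegral_enorm, eLpNorm'_eq_lintegral_enorm] at h
  simp only [enorm_eq_self, ENNReal.rpow_one, one_div, inv_one, ENNReal.rpow_natCast] at h
  calc (∫⁻ s, f s ∂μ) ^ p
      ≤ ((∫⁻ s, f s ^ p ∂μ) ^ ((p : ℝ)⁻¹)) ^ p := by gcongr
    _ = _ := by
      rw [← ENNReal.rpow_natCast, ← ENNReal.rpow_mul, inv_mul_cancel₀ hp0.ne', ENNReal.rpow_one]

/-- Jensen on a set. -/
theorem jensen_set {α : Type*} [MeasurableSpace α] (μ : Measure α) (Q : Set α)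
    (h0 : μ Q ≠ 0) (h1 : μ Q ≠ ∞) (f : α → ℝ≥0∞) (hf : Measurable f) (p : ℕ) (hp : 1 ≤ p) :
    ((μ Q)⁻¹ * ∫⁻ s in Q, f s ∂μ) ^ p ≤ (μ Q)⁻¹ * ∫⁻ s in Q, f s ^ p ∂μ := by
  have hprob : IsProbabilityMeasure ((μ Q)⁻¹ • μ.restrict Q) := by
    constructor
    rw [Measure.smul_apply, Measure.restrict_apply_univ, smul_eq_mul,
      ENNReal.inv_mul_cancel h0 h1]
  have h := jensen ((μ Q)⁻¹ • μ.restrict Q) f hf p hp
  rwa [lintegral_smul_measure, lintegral_smul_measure, smul_eq_mul, smul_eq_mul] at h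

/-! ### The segment inequality -/

variable {n : ℕ}

/-- Scaling towards a point of a convex set. -/
theorem scale {K : Set (Eu n)} (hK : Convex ℝ K) (hKm : MeasurableSet K) (g : Eu n → ℝ≥0∞)
    (hg : Measurable g) {s : ℝ} (hs0 : 0 ≤ s) (hs : s ≤ 1 / 2) {x : Eu n} (hx : x ∈ K) :
    ∫⁻ y in K, g ((1 - s) • y + s • x) ≤ 2 ^ n * ∫⁻ y in K, g y := by
  have hs1 : (1 - s) ≠ 0 := by linarith
  have hs2 : 0 < 1 - s := by linarith
  have hfr : Module.finrank ℝ (Eu n) = n := by simp
  have h1 : ∫⁻ y in K, g ((1 - s) • y + s • x) ≤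
      ∫⁻ y, K.indicator g ((1 - s) • y + s • x) := by
    rw [← lintegral_indicator hKm]
    refine lintegral_mono fun y => ?_
    by_cases hy : y ∈ K
    · rw [indicator_of_mem hy, indicator_of_mem]
      exact hK hy hx (by linarith) hs0 (by ring)
    · rw [indicator_of_notMem hy]
      exact bot_le
  refine h1.trans ?_
  have h2 : ∫⁻ y, K.indicator g ((1 - s) • y + s • x) =
      ∫⁻ z, K.indicator g (z + s • x) ∂(Measure.map ((1 - s) • ·) volume) := by
    rw [lintegral_map]
    · exact (hg.indicator hKm).comp (measurable_id.add_const _)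
    · exact measurable_const_smul (1 - s)
  rw [h2, Measure.map_addHaar_smul volume hs1, lintegral_smul_measure,
    lintegral_add_right_eq_self (fun z => K.indicator g z) (s • x), lintegral_indicator hKm,
    smul_eq_mul, hfr]
  gcongr
  rw [abs_of_nonneg (by positivity : (0 : ℝ) ≤ ((1 - s) ^ n)⁻¹), ← inv_pow]
  calc ENNReal.ofReal ((1 - s)⁻¹ ^ n)
      ≤ ENNReal.ofReal (2 ^ n) := by
        refine ENNReal.ofReal_le_ofReal (pow_le_pow_left₀ (by positivity) ?_ _)
        rw [inv_le_comm₀ (by linarith) (by norm_num)]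
        linarith
    _ = _ := by rw [ENNReal.ofReal_pow (by norm_num)]; simp

/-- the cost of the segment from `y` to `x` -/
noncomputable def S (w : Eu n → ℝ≥0∞) (x y : Eu n) : ℝ≥0∞ :=
  edist x y * ∫⁻ s in Icc (0 : ℝ) 1, w (y + s • (x - y))

theorem S_inner_meas {w : Eu n → ℝ≥0∞} (hw : Measurable w) :
    Measurable fun q : Eu n × Eu n => ∫⁻ s in Icc (0 : ℝ) 1, w (q.2 + s • (q.1 - q.2)) := by
  refine Measurable.lintegral_prod_right'
    (f := fun q : (Eu n × Eu n) × ℝ => w (q.1.2 + q.2 • (q.1.1 - q.1.2))) ?_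
  exact hw.comp (by fun_prop)

theorem S_meas {w : Eu n → ℝ≥0∞} (hw : Measurable w) :
    Measurable fun q : Eu n × Eu n => S w q.1 q.2 :=
  (measurable_fst.edist measurable_snd).mul (S_inner_meas hw)

theorem S_meas_right {w : Eu n → ℝ≥0∞} (hw : Measurable w) (x : Eu n) :
    Measurable fun y => S w x y := by
  have h : Measurable fun y : Eu n => (x, y) := measurable_prodMk_left
  show Measurable ((fun q : Eu n × Eu n => S w q.1 q.2) ∘ fun y : Eu n => (x, y))
  exact (S_meas hw).comp h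

theorem double {w : Eu n → ℝ≥0∞} (hw : Measurable w) {K : Set (Eu n)} (hK : Convex ℝ K)
    (hKm : MeasurableSet K) {d : ℝ≥0∞} (hd : ∀ x ∈ K, ∀ y ∈ K, edist x y ≤ d) :
    ∫⁻ x in K, ∫⁻ y in K, S w x y ≤ d * (2 ^ n * volume K * ∫⁻ x in K, w x) := by
  have hs : ∀ s ∈ Icc (0 : ℝ) 1, ∫⁻ x in K, (∫⁻ y in K, w (y + s • (x - y))) ≤
      2 ^ n * volume K * ∫⁻ x in K, w x := by
    intro s hs
    have hmeas : Measurable (Function.uncurry fun x y : Eu n => w (y + s • (x - y))) := by
      refine hw.comp ?_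
      fun_prop
    rcases le_total s (1 / 2) with h | h
    · calc ∫⁻ x in K, (∫⁻ y in K, w (y + s • (x - y)))
          ≤ ∫⁻ _x in K, (2 ^ n * ∫⁻ y in K, w y) := by
            refine setLIntegral_mono' hKm fun x hx => ?_
            have h1 := scale hK hKm w hw hs.1 h hx
            refine le_trans (le_of_eq ?_) h1
            refine lintegral_congr fun y => ?_
            congr 1
            module
        _ = 2 ^ n * volume K * ∫⁻ x in K, w x := by
            rw [lintegral_const, Measure.restrict_apply_univ]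
            ring
    · rw [lintegral_lintegral_swap hmeas.aemeasurable]
      calc ∫⁻ y in K, (∫⁻ x in K, w (y + s • (x - y)))
          ≤ ∫⁻ _x in K, (2 ^ n * ∫⁻ y in K, w y) := by
            refine setLIntegral_mono' hKm fun y hy => ?_
            have h1 := scale hK hKm w hw (s := 1 - s) (by linarith [hs.2]) (by linarith) hy
            refine le_trans (le_of_eq ?_) h1
            refine lintegral_congr fun x => ?_
            congr 1
            module
        _ = 2 ^ n * volume K * ∫⁻ x in K, w x := by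
            rw [lintegral_const, Measure.restrict_apply_univ]
            ring
  calc ∫⁻ x in K, (∫⁻ y in K, S w x y)
      ≤ ∫⁻ x in K, (∫⁻ y in K, (d * ∫⁻ s in Icc (0 : ℝ) 1, w (y + s • (x - y)))) := by
        refine setLIntegral_mono' hKm fun x hx => setLIntegral_mono' hKm fun y hy => ?_
        unfold S
        gcongr
        exact hd x hx y hy
    _ = d * ∫⁻ x in K, (∫⁻ y in K, (∫⁻ s in Icc (0 : ℝ) 1, w (y + s • (x - y)))) := by
        have hm1 : ∀ x : Eu n, Measurable fun y : Eu n =>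
            ∫⁻ s in Icc (0 : ℝ) 1, w (y + s • (x - y)) := by
          intro x
          have h : Measurable fun y : Eu n => (x, y) := measurable_prodMk_left
          exact (S_inner_meas hw).comp h
        have hm2 : Measurable fun x : Eu n => ∫⁻ y in K,
            (∫⁻ s in Icc (0 : ℝ) 1, w (y + s • (x - y))) := by
          refine Measurable.lintegral_prod_right'
            (f := fun q : Eu n × Eu n => ∫⁻ s in Icc (0 : ℝ) 1, w (q.2 + s • (q.1 - q.2))) ?_
          exact S_inner_meas hw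
        rw [← lintegral_const_mul _ hm2]
        refine lintegral_congr fun x => ?_
        rw [lintegral_const_mul _ (hm1 x)]
    _ = d * ∫⁻ s in Icc (0 : ℝ) 1, (∫⁻ x in K, (∫⁻ y in K, w (y + s • (x - y)))) := by
        congr 1
        have h1 : ∀ x : Eu n, ∫⁻ y in K, (∫⁻ s in Icc (0 : ℝ) 1, w (y + s • (x - y))) =
            ∫⁻ s in Icc (0 : ℝ) 1, (∫⁻ y in K, w (y + s • (x - y))) := by
          intro x
          refine lintegral_lintegral_swap (Measurable.aemeasurable ?_)
          exact hw.comp (by fun_prop)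
        simp_rw [h1]
        refine lintegral_lintegral_swap (Measurable.aemeasurable ?_)
        refine Measurable.lintegral_prod_right'
          (f := fun q : (Eu n × ℝ) × Eu n => w (q.2 + q.1.2 • (q.1.1 - q.2))) ?_
        exact hw.comp (by fun_prop)
    _ ≤ d * ∫⁻ _s in Icc (0 : ℝ) 1, (2 ^ n * volume K * ∫⁻ x in K, w x) := by
        exact mul_le_mul_right (setLIntegral_mono' measurableSet_Icc hs) _
    _ = d * (2 ^ n * volume K * ∫⁻ x in K, w x) := by
        rw [lintegral_const, Measure.restrict_apply_univ, Real.volume_Icc]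
        simp only [sub_zero, ENNReal.ofReal_one, mul_one]

/-! ### Segments are good paths -/

theorem dd_le_S {E : Set (Eu n)} {w : Eu n → ℝ≥0∞} (hw : Measurable w) {Q : Set (Eu n)}
    (hQ : Convex ℝ Q) (hQE : Disjoint Q E) {x y : Eu n} (hx : x ∈ Q) (hy : y ∈ Q) :
    dd E w y x ≤ S w x y := by
  by_cases hxy : x = y
  · subst hxy
    have hG : Good E 0 (fun _ : ℝ => x) := by
      refine ⟨le_rfl, LipschitzWith.const' x, ?_⟩
      refine (Set.countable_singleton x).mono ?_
      rintro _ ⟨⟨t, _, rfl⟩, _⟩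
      rfl
    refine (iInf_le_of_le 0 (iInf_le_of_le (fun _ => x) (iInf_le_of_le ⟨hG, rfl, rfl⟩ ?_)))
    unfold cost
    rw [Icc_self, Measure.restrict_singleton]
    simp
  · have hT : 0 < ‖x - y‖ := norm_pos_iff.2 (sub_ne_zero.2 hxy)
    set T : ℝ := ‖x - y‖ with hTdef
    let σ : ℝ → Eu n := fun t => y + (T⁻¹ * t) • (x - y)
    have hG : Good E T σ := by
      refine ⟨hT.le, ?_, ?_⟩
      · refine LipschitzWith.of_dist_le_mul fun a b => ?_
        rw [dist_eq_norm, Real.dist_eq, NNReal.coe_one, one_mul]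
        have e : σ a - σ b = (T⁻¹ * (a - b)) • (x - y) := by
          show (y + (T⁻¹ * a) • (x - y)) - (y + (T⁻¹ * b) • (x - y)) = _
          module
        rw [e, norm_smul, norm_mul, norm_inv, Real.norm_of_nonneg hT.le, ← hTdef,
          Real.norm_eq_abs]
        have : T⁻¹ * |a - b| * T = |a - b| := by field_simp
        rw [this]
      · have hempty : σ '' Icc 0 T ∩ E = ∅ := by
          rw [Set.eq_empty_iff_forall_notMem]
          rintro _ ⟨⟨t, ht, rfl⟩, hE⟩
          refine Set.disjoint_left.1 hQE ?_ hE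
          have h0 : 0 ≤ T⁻¹ * t := by have := ht.1; positivity
          have h1 : T⁻¹ * t ≤ 1 := by
            rw [inv_mul_le_iff₀ hT, mul_one]; exact ht.2
          have e : σ t = (1 - T⁻¹ * t) • y + (T⁻¹ * t) • x := by
            show y + (T⁻¹ * t) • (x - y) = _
            module
          rw [e]
          exact hQ hy hx (by linarith) h0 (by ring)
        rw [hempty]
        exact countable_empty
    have hσ0 : σ 0 = y := by
      show y + (T⁻¹ * 0) • (x - y) = y
      simp
    have hσT : σ T = x := by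
      show y + (T⁻¹ * T) • (x - y) = x
      rw [inv_mul_cancel₀ hT.ne', one_smul]
      abel
    refine (iInf_le_of_le T (iInf_le_of_le σ (iInf_le_of_le ⟨hG, hσ0, hσT⟩ ?_)))
    unfold cost S
    have hTi : T⁻¹ ≠ 0 := inv_ne_zero hT.ne'
    have hf : Measurable ((Icc (0 : ℝ) 1).indicator fun s => w (y + s • (x - y))) :=
      (hw.comp (by fun_prop)).indicator measurableSet_Icc
    have key : ∫⁻ t in Icc 0 T, w (σ t) =
        ∫⁻ t, ((Icc (0 : ℝ) 1).indicator fun s => w (y + s • (x - y))) (T⁻¹ * t) := by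
      rw [← lintegral_indicator measurableSet_Icc]
      refine lintegral_congr fun t => ?_
      by_cases ht : t ∈ Icc 0 T
      · rw [indicator_of_mem ht, indicator_of_mem]
        constructor
        · have := ht.1; positivity
        · rw [inv_mul_le_iff₀ hT, mul_one]; exact ht.2
      · rw [indicator_of_notMem ht, indicator_of_notMem]
        intro h
        apply ht
        have e : t = T * (T⁻¹ * t) := by field_simp
        rw [e]
        exact ⟨mul_nonneg hT.le h.1, by nlinarith [h.2]⟩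
    rw [key, ← lintegral_map hf (measurable_const_mul T⁻¹), Real.map_volume_mul_left hTi,
      lintegral_smul_measure, inv_inv, abs_of_pos hT, lintegral_indicator measurableSet_Icc,
      smul_eq_mul, edist_dist, dist_eq_norm]

/-! ### One ball -/

theorem one_ball (hn : 1 ≤ n) {w : Eu n → ℝ≥0∞} (hw : Measurable w) (θ ε : ℝ≥0∞) (hε : ε ≠ 0)
    (hε' : ε ≠ ∞) (z : Eu n) {r : ℝ} (hr : 0 < r)
    (hη : (2 ^ (n + 1)) ^ n * (volume (ball (0 : Eu n) 1))⁻¹ * ∫⁻ x in closedBall z r, w x ^ n ≤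
      (θ * ε) ^ n) :
    ∃ a ∈ closedBall z r,
      volume {y | y ∈ closedBall z r ∧ ε ≤ S w a y} ≤ θ * volume (closedBall z r) := by
  have : Nonempty (Fin n) := ⟨⟨0, hn⟩⟩
  set Q := closedBall z r with hQ
  have hfr : Module.finrank ℝ (Eu n) = n := by simp
  have hQ0 : volume Q ≠ 0 := (measure_closedBall_pos volume z hr).ne'
  have hQ1 : volume Q ≠ ∞ := (isCompact_closedBall z r).measure_lt_top.ne
  have hQv : volume Q = ENNReal.ofReal r ^ n * volume (ball (0 : Eu n) 1) := by
    rw [hQ, Measure.addHaar_closedBall volume z hr.le, hfr, ENNReal.ofReal_pow hr.le]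
  have hconv : Convex ℝ Q := convex_closedBall z r
  have hd : ∀ x ∈ Q, ∀ y ∈ Q, edist x y ≤ ENNReal.ofReal (2 * r) := by
    intro x hx y hy
    rw [edist_dist]
    apply ENNReal.ofReal_le_ofReal
    have h1 := dist_triangle_right x y z
    rw [hQ, mem_closedBall] at hx hy
    linarith
  have hdouble := double hw hconv measurableSet_closedBall hd
  have hm : Measurable fun x => ∫⁻ y in Q, S w x y :=
    Measurable.lintegral_prod_right' (f := fun q : Eu n × Eu n => S w q.1 q.2) (S_meas hw)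
  obtain ⟨a, ha, hle⟩ := exists_le_setLAverage (μ := volume) hQ0 hQ1
    (f := fun x => ∫⁻ y in Q, S w x y) hm.aemeasurable
  refine ⟨a, ha, ?_⟩
  rw [setLAverage_eq] at hle
  set I := ∫⁻ x in Q, w x with hI
  have h1 : ∫⁻ y in Q, S w a y ≤ ENNReal.ofReal (2 * r) * (2 ^ n * I) := by
    refine hle.trans ?_
    rw [ENNReal.div_le_iff hQ0 hQ1]
    refine hdouble.trans (le_of_eq ?_)
    ring
  -- the average is small
  have h2 : ENNReal.ofReal (2 * r) * (2 ^ n * ((volume Q)⁻¹ * I)) ≤ θ * ε := by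
    have hn0 : n ≠ 0 := by omega
    rw [← ENNReal.pow_le_pow_left_iff hn0]
    refine le_trans ?_ hη
    have hj := jensen_set volume Q hQ0 hQ1 w hw n hn
    have e1 : ENNReal.ofReal (2 * r) = 2 * ENNReal.ofReal r := by
      rw [ENNReal.ofReal_mul (by norm_num)]; simp
    have hr0 : ENNReal.ofReal r ≠ 0 := by simpa using hr
    have hr1 : ENNReal.ofReal r ^ n ≠ 0 := pow_ne_zero _ hr0
    have hr2 : ENNReal.ofReal r ^ n ≠ ∞ := ENNReal.pow_ne_top ENNReal.ofReal_ne_top
    calc (ENNReal.ofReal (2 * r) * (2 ^ n * ((volume Q)⁻¹ * I))) ^ n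
        = (2 ^ (n + 1)) ^ n * ENNReal.ofReal r ^ n * ((volume Q)⁻¹ * I) ^ n := by
          rw [e1]
          ring
      _ ≤ (2 ^ (n + 1)) ^ n * ENNReal.ofReal r ^ n * ((volume Q)⁻¹ * ∫⁻ x in Q, w x ^ n) := by
          gcongr
      _ = (2 ^ (n + 1)) ^ n * (volume (ball (0 : Eu n) 1))⁻¹ * ∫⁻ x in Q, w x ^ n := by
          rw [hQv, ENNReal.mul_inv (Or.inl hr1) (Or.inl hr2)]
          calc (2 ^ (n + 1)) ^ n * ENNReal.ofReal r ^ n *
                ((ENNReal.ofReal r ^ n)⁻¹ * (volume (ball (0 : Eu n) 1))⁻¹ * ∫⁻ x in Q, w x ^ n)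
              = (2 ^ (n + 1)) ^ n * (ENNReal.ofReal r ^ n * (ENNReal.ofReal r ^ n)⁻¹) *
                (volume (ball (0 : Eu n) 1))⁻¹ * ∫⁻ x in Q, w x ^ n := by ring
            _ = _ := by rw [ENNReal.mul_inv_cancel hr1 hr2, mul_one]
  have h3 : ENNReal.ofReal (2 * r) * (2 ^ n * I) ≤ θ * ε * volume Q := by
    calc ENNReal.ofReal (2 * r) * (2 ^ n * I)
        = ENNReal.ofReal (2 * r) * (2 ^ n * ((volume Q)⁻¹ * volume Q * I)) := by
          rw [ENNReal.inv_mul_cancel hQ0 hQ1, one_mul]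
      _ = ENNReal.ofReal (2 * r) * (2 ^ n * ((volume Q)⁻¹ * I)) * volume Q := by ring
      _ ≤ θ * ε * volume Q := by gcongr
  -- Markov
  have h4 := meas_ge_le_lintegral_div (μ := volume.restrict Q)
    (S_meas_right hw a).aemeasurable hε hε'
  have h5 : volume {y | y ∈ Q ∧ ε ≤ S w a y} = volume.restrict Q {y | ε ≤ S w a y} := by
    rw [Measure.restrict_apply (measurableSet_le measurable_const (S_meas_right hw a))]
    congr 1
    ext y
    exact and_comm
  rw [h5]
  refine h4.trans ?_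
  rw [ENNReal.div_le_iff hε hε']
  exact (h1.trans h3).trans (le_of_eq (by ring))

end Net

theorem specNet : SpecNet := by
  classical
  intro n hn E R0 w hE hE0 hw hfin ε₀ δ₀ hε₀ hδ₀
  have hFin : Nonempty (Fin n) := ⟨⟨0, hn⟩⟩
  have hfr : Module.finrank ℝ (Eu n) = n := by simp
  have hn0 : n ≠ 0 := by omega
  -- finite parameters
  set ε : ℝ≥0∞ := min ε₀ 1 with hεdef
  set δ : ℝ≥0∞ := min δ₀ 1 with hδdef
  have hε : ε ≠ 0 := (lt_min (pos_iff_ne_zero.2 hε₀) one_pos).ne'
  have hε' : ε ≠ ∞ := (lt_of_le_of_lt (min_le_right _ _) ENNReal.one_lt_top).ne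
  have hδ : δ ≠ 0 := (lt_min (pos_iff_ne_zero.2 hδ₀) one_pos).ne'
  have hδ' : δ ≠ ∞ := (lt_of_le_of_lt (min_le_right _ _) ENNReal.one_lt_top).ne
  set B : Set (Eu n) := closedBall 0 R0 with hB
  have hBv : volume B ≠ ∞ := (isCompact_closedBall (0 : Eu n) R0).measure_lt_top.ne
  set ω : ℝ≥0∞ := volume (ball (0 : Eu n) 1) with hω
  have hω0 : ω ≠ 0 := (measure_ball_pos volume (0 : Eu n) one_pos).ne'
  have hω1 : ω ≠ ∞ := measure_ball_lt_top.ne
  set θ : ℝ≥0∞ := δ / 2 / (volume B + 1) with hθ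
  have hBv1 : volume B + 1 ≠ 0 := by simp
  have hBv2 : volume B + 1 ≠ ∞ := by simp [hBv]
  have hδ2 : δ / 2 ≠ 0 := by simp [hδ]
  have hδ3 : δ / 2 ≠ ∞ := ENNReal.div_ne_top hδ' (by simp)
  have hθ0 : θ ≠ 0 := ENNReal.div_ne_zero.2 ⟨hδ2, hBv2⟩
  have hθB : θ * volume B ≤ δ / 2 := by
    calc θ * volume B ≤ θ * (volume B + 1) := by gcongr; exact le_self_add
      _ = δ / 2 := ENNReal.div_mul_cancel hBv1 hBv2
  set c : ℝ≥0∞ := (2 ^ (n + 1)) ^ n * ω⁻¹ with hc
  have hc0 : c ≠ 0 := mul_ne_zero (by positivity) (ENNReal.inv_ne_zero.2 hω1)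
  have hc1 : c ≠ ∞ := ENNReal.mul_ne_top (ENNReal.pow_ne_top (ENNReal.pow_ne_top (by simp)))
    (ENNReal.inv_ne_top.2 hω0)
  set η : ℝ≥0∞ := (θ * ε) ^ n / c with hη
  have hη0 : η ≠ 0 := ENNReal.div_ne_zero.2 ⟨pow_ne_zero _ (mul_ne_zero hθ0 hε), hc1⟩
  obtain ⟨κ, hκ, hac⟩ := exists_pos_setLIntegral_lt_of_measure_lt hfin hη0
  -- small radii
  have hcont : Tendsto (fun r : ℝ => ENNReal.ofReal r ^ n * ω) (𝓝 0)
      (𝓝 (ENNReal.ofReal 0 ^ n * ω)) := by
    refine ENNReal.Tendsto.mul_const ?_ (Or.inr hω1)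
    exact (ENNReal.continuous_pow n).continuousAt.tendsto.comp
      (ENNReal.continuous_ofReal.tendsto 0)
  have hzero : ENNReal.ofReal 0 ^ n * ω = 0 := by
    rw [ENNReal.ofReal_zero, zero_pow hn0, zero_mul]
  rw [hzero] at hcont
  obtain ⟨r0, hr0, hsmall⟩ := Metric.eventually_nhds_iff.1 (hcont.eventually_lt_const hκ)
  have hvol : ∀ (x : Eu n) (r : ℝ), 0 < r → r < r0 → volume (closedBall x r) < κ := by
    intro x r hr hrr
    rw [Measure.addHaar_closedBall volume x hr.le, hfr, ENNReal.ofReal_pow hr.le]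
    apply hsmall
    rw [dist_zero_right, Real.norm_of_nonneg hr.le]
    exact hrr
  -- the open set
  set U : Set (Eu n) := ball 0 R0 \ E with hU
  have hUo : IsOpen U := isOpen_ball.sdiff hE
  choose! ρ hρ0 hρ using fun x (hx : x ∈ U) => Metric.isOpen_iff.1 hUo x hx
  obtain ⟨t, r, htc, htU, hr, hcov, hdisj⟩ :=
    Besicovitch.exists_disjoint_closedBall_covering_ae (volume : Measure (Eu n))
      (fun _ => univ) U
      (fun x _ δ hδ => ⟨δ / 2, mem_univ _, by constructor <;> linarith⟩)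
      (fun x => min r0 (ρ x)) (fun x hx => lt_min hr0 (hρ0 x hx))
  have hrpos : ∀ x ∈ t, 0 < r x := fun x hx => (hr x hx).2.1
  have hQU : ∀ x ∈ t, closedBall x (r x) ⊆ U := by
    intro x hx
    refine Subset.trans ?_ (hρ x (htU hx))
    apply closedBall_subset_ball
    exact (hr x hx).2.2.trans_le (min_le_right _ _)
  have hUB : U ⊆ B := fun x hx => ball_subset_closedBall hx.1
  have hint : ∀ x ∈ t, c * ∫⁻ y in closedBall x (r x), w y ^ n ≤ (θ * ε) ^ n := by
    intro x hx
    have hsub : closedBall x (r x) ⊆ B := (hQU x hx).trans hUB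
    have h1 : (volume.restrict B) (closedBall x (r x)) < κ := by
      rw [Measure.restrict_apply measurableSet_closedBall, inter_eq_left.2 hsub]
      exact hvol x (r x) (hrpos x hx) ((hr x hx).2.2.trans_le (min_le_left _ _))
    have h2 := hac _ h1
    rw [Measure.restrict_restrict measurableSet_closedBall, inter_eq_left.2 hsub] at h2
    calc c * ∫⁻ y in closedBall x (r x), w y ^ n ≤ c * η := by gcongr
      _ = (θ * ε) ^ n := ENNReal.mul_div_cancel hc0 hc1
  have hone : ∀ x ∈ t, ∃ a ∈ closedBall x (r x),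
      volume {y | y ∈ closedBall x (r x) ∧ ε ≤ Net.S w a y} ≤ θ * volume (closedBall x (r x)) :=
    fun x hx => Net.one_ball hn hw θ ε hε hε' x (hrpos x hx) (hint x hx)
  choose! a ha hbad using hone
  -- the sum of the volumes
  have hsum : ∑' x : t, volume (closedBall (x : Eu n) (r x)) ≤ volume B := by
    rw [← measure_biUnion htc hdisj (fun x _ => measurableSet_closedBall)]
    exact measure_mono (iUnion₂_subset fun x hx => (hQU x hx).trans hUB)
  have htail := ENNReal.tendsto_tsum_compl_atTop_zero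
    (f := fun x : t => volume (closedBall (x : Eu n) (r x))) (ne_top_of_le_ne_top hBv hsum)
  obtain ⟨F, hF⟩ := (htail.eventually_lt_const (pos_iff_ne_zero.2 hδ2)).exists
  set bad : Eu n → Set (Eu n) := fun x => {y | y ∈ closedBall x (r x) ∧ ε ≤ Net.S w (a x) y}
    with hbaddef
  have hbadm : ∀ x, MeasurableSet (bad x) := fun x =>
    measurableSet_closedBall.inter (measurableSet_le measurable_const (Net.S_meas_right hw _))
  set W1 : Set (Eu n) := B \ ⋃ x ∈ F, closedBall (x : Eu n) (r x) with hW1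
  set W2 : Set (Eu n) := ⋃ x ∈ F, bad (x : Eu n) with hW2
  have hW1m : MeasurableSet W1 := measurableSet_closedBall.diff
    (Finset.measurableSet_biUnion F fun x _ => measurableSet_closedBall)
  have hW2m : MeasurableSet W2 := Finset.measurableSet_biUnion F fun x _ => hbadm _
  have hv1 : volume W1 ≤ δ / 2 := by
    have hsub : W1 ⊆ (sphere (0 : Eu n) R0 ∪ E) ∪ ((U \ ⋃ x ∈ t, closedBall x (r x)) ∪
        ⋃ x : {x // x ∉ F}, closedBall ((x : t) : Eu n) (r (x : t))) := by
      rintro z ⟨hzB, hzF⟩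
      by_cases hzU : z ∈ U
      · right
        by_cases hzt : z ∈ ⋃ x ∈ t, closedBall x (r x)
        · right
          obtain ⟨x, hx, hz⟩ := mem_iUnion₂.1 hzt
          refine mem_iUnion.2 ⟨⟨⟨x, hx⟩, fun hxF => hzF ?_⟩, hz⟩
          exact mem_iUnion₂.2 ⟨⟨x, hx⟩, hxF, hz⟩
        · left
          exact ⟨hzU, hzt⟩
      · left
        by_cases hzE : z ∈ E
        · right; exact hzE
        · left
          rw [mem_sphere]
          refine le_antisymm (mem_closedBall.1 hzB) (not_lt.1 fun hlt => hzU ⟨?_, hzE⟩)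
          exact mem_ball.2 hlt
    have hs0 : volume (sphere (0 : Eu n) R0) = 0 := Measure.addHaar_sphere volume 0 R0
    calc volume W1 ≤ volume (sphere (0 : Eu n) R0 ∪ E) +
          (volume (U \ ⋃ x ∈ t, closedBall x (r x)) +
          volume (⋃ x : {x // x ∉ F}, closedBall ((x : t) : Eu n) (r (x : t)))) :=
          (measure_mono hsub).trans ((measure_union_le _ _).trans (by
            gcongr; exact measure_union_le _ _))
      _ ≤ (volume (sphere (0 : Eu n) R0) + volume E) + (0 +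
          ∑' x : {x // x ∉ F}, volume (closedBall ((x : t) : Eu n) (r (x : t)))) := by
          rw [hcov]
          have hc2 : Countable t := htc.to_subtype
          gcongr
          · exact measure_union_le _ _
          · exact measure_iUnion_le _
      _ = ∑' x : {x // x ∉ F}, volume (closedBall ((x : t) : Eu n) (r (x : t))) := by
          rw [hs0, hE0]; simp
      _ ≤ δ / 2 := hF.le
  have hv2 : volume W2 ≤ δ / 2 := by
    calc volume W2 ≤ ∑ x ∈ F, volume (bad (x : Eu n)) := measure_biUnion_finset_le F _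
      _ ≤ ∑ x ∈ F, θ * volume (closedBall (x : Eu n) (r x)) :=
          Finset.sum_le_sum fun x _ => hbad x x.2
      _ = θ * ∑ x ∈ F, volume (closedBall (x : Eu n) (r x)) := by rw [Finset.mul_sum]
      _ ≤ θ * ∑' x : t, volume (closedBall (x : Eu n) (r x)) := by
          gcongr
          exact ENNReal.sum_le_tsum F
      _ ≤ θ * volume B := by gcongr
      _ ≤ δ / 2 := hθB
  refine ⟨F.image (fun x : t => a (x : Eu n)), W1 ∪ W2, hW1m.union hW2m, ?_, ?_⟩
  · calc volume (W1 ∪ W2) ≤ volume W1 + volume W2 := measure_union_le _ _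
      _ ≤ δ / 2 + δ / 2 := add_le_add hv1 hv2
      _ = δ := ENNReal.add_halves δ
      _ ≤ δ₀ := min_le_left _ _
  · intro z hz hzW
    have hz1 : z ∈ ⋃ x ∈ F, closedBall (x : Eu n) (r x) := by
      by_contra hcon
      exact hzW (Or.inl ⟨hz, hcon⟩)
    obtain ⟨x, hx, hzx⟩ := mem_iUnion₂.1 hz1
    refine ⟨a x, Finset.mem_image.2 ⟨x, hx, rfl⟩, ?_⟩
    have hz2 : ¬ ε ≤ Net.S w (a x) z := by
      intro hcon
      exact hzW (Or.inr (mem_iUnion₂.2 ⟨x, hx, hzx, hcon⟩))
    have hQE : Disjoint (closedBall (x : Eu n) (r x)) E := by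
      rw [Set.disjoint_left]
      intro y hy hyE
      exact (hQU x x.2 hy).2 hyE
    have h1 := Net.dd_le_S (E := E) hw (convex_closedBall (x : Eu n) (r x)) hQE (ha x x.2) hzx
    exact lt_of_le_of_lt h1 ((not_le.1 hz2).trans_le (min_le_left _ _))

end MPd4663a
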