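import Pool.Agent.Lib.MP_d4663a_an.Spec

/-!
# MP_d4663a_an: the `Lⁿ` norm `nrm`

General lemmas: monotonicity, Minkowski inequality for countable sums, indicators.
-/

namespace MPd4663a

namespace Nrm

open MeasureTheory Set Filter Metric
open scoped ENNReal NNReal Topology

variable {n : ℕ}

lemma nrm_eq_rpow (f : Eu n → ℝ≥0∞) :
    nrm f = (∫⁻ x, f x ^ (n : ℝ)) ^ ((n : ℝ)⁻¹) := by
  simp [nrm, ENNReal.rpow_natCast]

lemma nrm_mono {f g : Eu n → ℝ≥0∞} (h : ∀ x, f x ≤ g x) : nrm f ≤ nrm g := by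
  unfold nrm
  refine ENNReal.rpow_le_rpow (lintegral_mono fun x => ?_) (by positivity)
  exact pow_le_pow_left' (h x) n

lemma nrm_mono_ae {f g : Eu n → ℝ≥0∞} (h : ∀ᵐ x ∂(volume : Measure (Eu n)), f x ≤ g x) :
    nrm f ≤ nrm g := by
  unfold nrm
  refine ENNReal.rpow_le_rpow (lintegral_mono_ae ?_) (by positivity)
  filter_upwards [h] with x hx
  exact pow_le_pow_left' hx n

lemma nrm_add_le (hn : 1 ≤ n) {f g : Eu n → ℝ≥0∞} (hf : Measurable f) (hg : Measurable g) :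
    nrm (fun x => f x + g x) ≤ nrm f + nrm g := by
  rw [nrm_eq_rpow, nrm_eq_rpow, nrm_eq_rpow]
  have h := ENNReal.lintegral_Lp_add_le (μ := (volume : Measure (Eu n))) (p := (n : ℝ))
    hf.aemeasurable hg.aemeasurable (by exact_mod_cast hn)
  simpa [one_div] using h

lemma nrm_zero (hn : 1 ≤ n) : nrm (fun _ : Eu n => (0 : ℝ≥0∞)) = 0 := by
  have h0 : n ≠ 0 := by omega
  have h1 : (0 : ℝ) < n := by exact_mod_cast (by omega : 0 < n)
  simp [nrm, h0, h1]

lemma nrm_sum_le (hn : 1 ≤ n) {ι : Type*} (s : Finset ι) {f : ι → Eu n → ℝ≥0∞}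
    (hf : ∀ i, Measurable (f i)) :
    nrm (fun x => ∑ i ∈ s, f i x) ≤ ∑ i ∈ s, nrm (f i) := by
  classical
  induction s using Finset.induction_on with
  | empty => simp [nrm_zero hn]
  | insert a s ha ih =>
    simp only [Finset.sum_insert ha]
    exact (nrm_add_le hn (hf a) (Finset.measurable_sum s fun i _ => hf i)).trans
      (add_le_add le_rfl ih)

lemma nrm_tsum_le (hn : 1 ≤ n) {ι : Type*} [Countable ι] {f : ι → Eu n → ℝ≥0∞}
    (hf : ∀ i, Measurable (f i)) :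
    nrm (fun x => ∑' i, f i x) ≤ ∑' i, nrm (f i) := by
  classical
  have hn0 : (0 : ℝ) < n := by exact_mod_cast (by omega : 0 < n)
  have key : (∫⁻ x, (∑' i, f i x) ^ (n : ℝ))
      = ⨆ s : Finset ι, ∫⁻ x, (∑ i ∈ s, f i x) ^ (n : ℝ) := by
    rw [← lintegral_iSup_directed]
    · refine lintegral_congr fun x => ?_
      rw [ENNReal.tsum_eq_iSup_sum]
      exact (ENNReal.orderIsoRpow (n : ℝ) hn0).map_iSup _
    · intro s
      exact ((Finset.measurable_sum s fun i _ => hf i).pow_const _).aemeasurable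
    · refine directed_of_isDirected_le ?_
      intro s t hst x
      exact ENNReal.rpow_le_rpow (Finset.sum_le_sum_of_subset hst) hn0.le
  rw [nrm_eq_rpow, key]
  have h2 : (⨆ s : Finset ι, ∫⁻ x, (∑ i ∈ s, f i x) ^ (n : ℝ)) ^ ((n : ℝ)⁻¹)
      = ⨆ s : Finset ι, (∫⁻ x, (∑ i ∈ s, f i x) ^ (n : ℝ)) ^ ((n : ℝ)⁻¹) :=
    (ENNReal.orderIsoRpow ((n : ℝ)⁻¹) (inv_pos.2 hn0)).map_iSup _
  rw [h2]
  refine iSup_le fun s => ?_
  have h3 := nrm_sum_le hn s hf
  rw [nrm_eq_rpow] at h3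
  exact h3.trans (ENNReal.sum_le_tsum s)

lemma nrm_const_mul (hn : 1 ≤ n) (a : ℝ≥0∞) {f : Eu n → ℝ≥0∞} (hf : Measurable f) :
    nrm (fun x => a * f x) = a * nrm f := by
  have hn0 : (0 : ℝ) < n := by exact_mod_cast (by omega : 0 < n)
  unfold nrm
  simp only [mul_pow]
  rw [lintegral_const_mul _ (hf.pow_const n), ENNReal.mul_rpow_of_nonneg _ _ (by positivity),
    ← ENNReal.rpow_natCast, ← ENNReal.rpow_mul, mul_inv_cancel₀ hn0.ne', ENNReal.rpow_one]

lemma nrm_indicator_const (hn : 1 ≤ n) (a : ℝ≥0∞) {S : Set (Eu n)} (hS : MeasurableSet S) :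
    nrm (S.indicator fun _ => a) = a * volume S ^ ((n : ℝ)⁻¹) := by
  have hn0 : (0 : ℝ) < n := by exact_mod_cast (by omega : 0 < n)
  unfold nrm
  have : ∀ x, (S.indicator (fun _ => a) x) ^ n = S.indicator (fun _ => a ^ n) x := by
    intro x
    by_cases hx : x ∈ S
    · simp [hx]
    · simp [hx]; omega
  simp only [this]
  rw [lintegral_indicator_const hS, ENNReal.mul_rpow_of_nonneg _ _ (by positivity),
    ← ENNReal.rpow_natCast, ← ENNReal.rpow_mul, mul_inv_cancel₀ hn0.ne', ENNReal.rpow_one]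

end Nrm

end MPd4663a
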