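import Pool.Agent.Lib.MP_d4663a_an.Spec

/-!
# MP_d4663a_an: POSK

A closed set of positive measure contains a compact totally disconnected set of positive measure:
take a compact set of positive measure inside the points with irrational coordinates.
-/

namespace MPd4663a

open MeasureTheory Set Filter Metric
open scoped ENNReal NNReal Topology

namespace PosK

variable {n : ℕ}

/-- The hyperplane `x i = q` is a null set. -/
lemma volume_hyperplane (i : Fin n) (q : ℝ) : volume {x : Eu n | x i = q} = 0 := by
  have h := (EuclideanSpace.volume_preserving_symm_measurableEquiv_toLp (Fin n))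
  have h2 : volume ((fun x : Fin n → ℝ => x i) ⁻¹' {q}) = 0 := by
    have := Measure.pi_hyperplane (μ := fun _ : Fin n => (volume : Measure ℝ)) i q
    simpa [volume_pi, Set.preimage] using this
  have hm : MeasurableSet ((fun x : Fin n → ℝ => x i) ⁻¹' {q}) :=
    (measurable_pi_apply i) (measurableSet_singleton q)
  have h3 := h.measure_preimage hm.nullMeasurableSet
  rw [h2] at h3
  exact h3

/-- Points with irrational coordinates. -/
def irr (n : ℕ) : Set (Eu n) := {x | ∀ i (q : ℚ), x i ≠ (q : ℝ)}

lemma measurableSet_irr : MeasurableSet (irr n) := by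
  have : irr n = ⋂ (i : Fin n) (q : ℚ), {x : Eu n | x i = (q : ℝ)}ᶜ := by
    ext x; simp [irr]
  rw [this]
  refine MeasurableSet.iInter fun i => MeasurableSet.iInter fun q => ?_
  refine MeasurableSet.compl ?_
  exact (EuclideanSpace.proj i).continuous.measurable (measurableSet_singleton _)

lemma volume_compl_irr : volume (irr n)ᶜ = 0 := by
  have : (irr n)ᶜ = ⋃ (i : Fin n) (q : ℚ), {x : Eu n | x i = (q : ℝ)} := by
    ext x; simp [irr]
  rw [this]
  refine measure_iUnion_null fun i => measure_iUnion_null fun q => volume_hyperplane i q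

lemma isTotallyDisconnected {K : Set (Eu n)} (hK : K ⊆ irr n) : IsTotallyDisconnected K := by
  intro C hC hpre x hx y hy
  by_contra hne
  have : ∃ i, x i ≠ y i := by
    by_contra hall
    push Not at hall
    exact hne (by ext i; exact hall i)
  obtain ⟨i, hi⟩ := this
  have key : ∀ x ∈ C, ∀ y ∈ C, ¬ x i < y i := by
    intro x hx y hy hlt
    obtain ⟨q, hq1, hq2⟩ := exists_rat_btwn hlt
    have hcont : ContinuousOn (fun z : Eu n => z i) C :=
      (EuclideanSpace.proj (𝕜 := ℝ) i).continuous.continuousOn
    have := hpre.intermediate_value hx hy hcont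
    obtain ⟨z, hz, hzq⟩ := this ⟨hq1.le, hq2.le⟩
    exact hK (hC hz) i q hzq
  rcases lt_or_gt_of_ne hi with h | h
  · exact key x hx y hy h
  · exact key y hy x hx h

end PosK

theorem specPosK : SpecPosK := by
  intro n hn E hE hE0
  have hpos : 0 < volume (E ∩ PosK.irr n) := by
    have h1 : volume E ≤ volume (E ∩ PosK.irr n) + volume (PosK.irr n)ᶜ := by
      refine (measure_mono ?_).trans (measure_union_le _ _)
      intro x hx
      by_cases h : x ∈ PosK.irr n
      · exact Or.inl ⟨hx, h⟩
      · exact Or.inr h
    rw [PosK.volume_compl_irr, add_zero] at h1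
    exact (pos_iff_ne_zero.mpr hE0).trans_le h1
  obtain ⟨K, hKs, hKc, hKpos⟩ :=
    (hE.measurableSet.inter PosK.measurableSet_irr).exists_lt_isCompact hpos
  exact ⟨K, hKs.trans inter_subset_left, hKc,
    PosK.isTotallyDisconnected (hKs.trans inter_subset_right), hKpos.ne'⟩

end MPd4663a
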