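import Pool.Agent.Lib.MP_d4663a_an.CurveA
import Pool.Agent.Lib.MP_d4663a_an.CurveB
import Pool.Agent.Lib.MP_d4663a_an.Metric
import Pool.Agent.Lib.MP_d4663a_an.Complete
import Pool.Agent.Lib.MP_d4663a_an.Net
import Pool.Agent.Lib.MP_d4663a_an.Block
import Pool.Agent.Lib.MP_d4663a_an.Dich
import Pool.Agent.Lib.MP_d4663a_an.UFun
import Pool.Agent.Lib.MP_d4663a_an.Lvl
import Pool.Agent.Lib.MP_d4663a_an.Layer
import Pool.Agent.Lib.MP_d4663a_an.Esc
import Pool.Agent.Lib.MP_d4663a_an.PosK
import Pool.Agent.Lib.MP_d4663a_an.PosMod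
import Pool.Agent.Lib.MP_d4663a_an.ModLow
import Pool.Agent.Lib.MP_d4663a_an.Nrm

/-!
# MP_d4663a_an: assembly
-/

namespace MPd4663a

open MeasureTheory Set Filter Metric
open scoped ENNReal NNReal Topology

/-! ### positive measure -/

lemma face_compact {n : ℕ} (x : Eu n) (h : ℝ) (i : Fin n) (s : ℝ) :
    IsCompact (face x h i s) := by
  have hcl : IsClosed (face x h i s) := by
    have h1 : face x h i s = (⋂ j : Fin n, {y : Eu n | |y j - x j| ≤ h / 2}) ∩
        {y : Eu n | y i = x i + s * (h / 2)} := by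
      ext y
      simp [face, cube]
    rw [h1]
    refine IsClosed.inter (isClosed_iInter fun j => ?_) ?_
    · exact isClosed_le (by fun_prop) continuous_const
    · exact isClosed_eq (by fun_prop) continuous_const
  refine Metric.isCompact_of_isClosed_isBounded hcl ?_
  refine (Metric.isBounded_closedBall (x := x) (r := Real.sqrt (n * (h / 2) ^ 2))).subset ?_
  intro y hy
  rw [mem_closedBall, EuclideanSpace.dist_eq]
  refine Real.sqrt_le_sqrt ?_
  calc ∑ j, dist (y j) (x j) ^ 2 ≤ ∑ _j : Fin n, (h / 2) ^ 2 := by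
        refine Finset.sum_le_sum fun j _ => ?_
        rw [Real.dist_eq]
        exact pow_le_pow_left₀ (abs_nonneg _) (hy.1 j) 2
    _ = n * (h / 2) ^ 2 := by simp

lemma face_connected {n : ℕ} (x : Eu n) {h : ℝ} (hh : 0 < h) (i : Fin n) {s : ℝ}
    (hs : |s| ≤ 1) : IsConnected (face x h i s) := by
  constructor
  · refine ⟨x + EuclideanSpace.single i (s * (h / 2)), ?_, ?_⟩
    · intro j
      by_cases hj : j = i
      · subst hj
        simp only [PiLp.add_apply, PiLp.single_apply, if_true, add_sub_cancel_left, abs_mul]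
        rw [abs_of_pos (by positivity : (0 : ℝ) < h / 2)]
        nlinarith
      · simp only [PiLp.add_apply, PiLp.single_apply, if_neg hj, add_zero, sub_self, abs_zero]
        positivity
    · simp
  · have hconv : Convex ℝ (face x h i s) := by
      intro y hy z hz a b ha hb hab
      refine ⟨fun j => ?_, ?_⟩
      · have h1 : (a • y + b • z) j - x j = a * (y j - x j) + b * (z j - x j) := by
          have : x j = (a + b) * x j := by rw [hab, one_mul]
          simp only [PiLp.add_apply, PiLp.smul_apply, smul_eq_mul]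
          linear_combination (-1) * this
        rw [h1]
        calc |a * (y j - x j) + b * (z j - x j)| ≤ |a * (y j - x j)| + |b * (z j - x j)| :=
              abs_add_le _ _
          _ = a * |y j - x j| + b * |z j - x j| := by
              rw [abs_mul, abs_mul, abs_of_nonneg ha, abs_of_nonneg hb]
          _ ≤ a * (h / 2) + b * (h / 2) := by
              gcongr
              · exact hy.1 j
              · exact hz.1 j
          _ = h / 2 := by rw [← add_mul, hab, one_mul]
      · simp only [PiLp.add_apply, PiLp.smul_apply, smul_eq_mul, hy.2, hz.2]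
        rw [← add_mul, hab, one_mul]
    exact hconv.isPreconnected

lemma positive_case {n : ℕ} (hn : 2 ≤ n) {E : Set (Eu n)} (hE : IsClosed E)
    (hvol : volume E ≠ 0) :
    ∃ K ⊆ E, IsCompact K ∧ IsTotallyDisconnected K ∧ ¬ CNED K := by
  obtain ⟨K, hKE, hKc, hKtd, hKv⟩ := specPosK n (by omega) E hE hvol
  obtain ⟨x, h, hh, hmod⟩ := specPosMod specCurveA n (by omega) K hKc hKv
  refine ⟨K, hKE, hKc, hKtd, fun hC => ?_⟩
  let i : Fin n := ⟨0, by omega⟩
  have h1 := specModLow specCurveB n (by omega) x h i hh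
  have h2 := hmod i
  have h3 := hC (face x h i (-1)) (face x h i 1) (face_compact x h i _)
    (face_connected x hh i (by simp)) (face_compact x h i _)
    (face_connected x hh i (by simp)) (by
      rw [Set.disjoint_left]
      intro y hy hy'
      have := hy.2
      have := hy'.2
      linarith)
  rw [h3] at h1
  exact absurd h2 (not_lt.2 h1)

/-! ### null sets -/

lemma modulus_le {n : ℕ} {Γ : Set (Curve n)} {ρ : Eu n → ℝ≥0∞} (h : Admissible Γ ρ) :
    modulus Γ ≤ ∫⁻ x, ρ x ^ n := iInf₂_le ρ h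

lemma modulus_mono {n : ℕ} {Γ Γ' : Set (Curve n)} (h : Γ ⊆ Γ') : modulus Γ ≤ modulus Γ' :=
  le_iInf₂ fun _ hρ => modulus_le ⟨hρ.1, fun γ hγ => hρ.2 γ (h hγ)⟩

lemma null_case {n : ℕ} (hn : 2 ≤ n) {E : Set (Eu n)} (hE : IsClosed E)
    (hvol : volume E = 0) (hnot : ¬ CNED E) :
    ∃ K ⊆ E, IsCompact K ∧ IsTotallyDisconnected K ∧ ¬ CNED K := by
  classical
  have hn1 : 1 ≤ n := by omega
  have hn0 : (0 : ℝ) < n := by exact_mod_cast (by omega : 0 < n)
  unfold CNED at hnot
  push Not at hnot
  obtain ⟨F₁, F₂, hF₁c, hF₁, hF₂c, hF₂, hdis, hne⟩ := hnot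
  have hlt : modulus (joining F₁ F₂ ∩ Fsigma E) < modulus (joining F₁ F₂) :=
    lt_of_le_of_ne (modulus_mono inter_subset_left) (Ne.symm hne)
  obtain ⟨ρ, hρ1⟩ := iInf_lt_iff.1 hlt
  obtain ⟨hρ, hρlt⟩ := iInf_lt_iff.1 hρ1
  -- norms
  have hρn : nrm ρ < (modulus (joining F₁ F₂)) ^ ((n : ℝ)⁻¹) :=
    ENNReal.rpow_lt_rpow hρlt (by positivity)
  obtain ⟨b', hab', hb'⟩ := ENNReal.lt_iff_exists_nnreal_btwn.1 hρn
  have haf : nrm ρ ≠ ∞ := (hab'.trans ENNReal.coe_lt_top).ne
  obtain ⟨a', ha'⟩ : ∃ a' : ℝ≥0, (a' : ℝ≥0∞) = nrm ρ := ⟨_, ENNReal.coe_toNNReal haf⟩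
  rw [← ha'] at hab'
  have hab : a' < b' := by exact_mod_cast hab'
  have hab2 : (a' : ℝ) < b' := by exact_mod_cast hab
  -- the small parameter
  have hb0 : (0 : ℝ) ≤ b' := b'.2
  have ha0 : (0 : ℝ) ≤ a' := a'.2
  set δr : ℝ := (b' - a') / (8 + 4 * b') with hδr
  have hδ0 : 0 < δr := div_pos (by linarith) (by linarith)
  have hδ4 : δr < 1 / 4 := by
    rw [hδr, div_lt_iff₀ (by linarith)]
    linarith
  have hδb : a' + 4 * δr < b' * (1 - 2 * δr) := by
    have : δr * (8 + 4 * b') = b' - a' := by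
      rw [hδr, div_mul_cancel₀]
      linarith
    nlinarith
  set δ : ℝ≥0 := ⟨δr, hδ0.le⟩ with hδ
  have hδpos : (δ : ℝ≥0∞) ≠ 0 := by
    have : δ ≠ 0 := fun h => hδ0.ne' (congrArg NNReal.toReal h)
    exact_mod_cast this
  -- the ball
  obtain ⟨R, hR⟩ := (hF₁c.isBounded.subset_closedBall 0)
  set R1 : ℝ := max R 1 with hR1
  have hR1pos : 0 < R1 := lt_of_lt_of_le one_pos (le_max_right _ _)
  obtain ⟨R0, g0, hR10, hg0m, hg0n, hg0⟩ := specEsc n hn R1 δ hR1pos hδpos
  set B : Set (Eu n) := closedBall 0 R0 with hB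
  have hBm : MeasurableSet B := measurableSet_closedBall
  have hBfin : volume B ≠ ∞ := measure_closedBall_lt_top.ne
  -- the constant
  have hVfin : (volume B) ^ ((n : ℝ)⁻¹) ≠ ∞ := by
    exact (ENNReal.rpow_lt_top_of_nonneg (by positivity) hBfin).ne
  obtain ⟨V, hV⟩ : ∃ V : ℝ≥0, (V : ℝ≥0∞) = (volume B) ^ ((n : ℝ)⁻¹) :=
    ⟨_, ENNReal.coe_toNNReal hVfin⟩
  set c0 : ℝ≥0 := δ / (V + 1) with hc0
  have hδp : 0 < δ := by
    rw [← NNReal.coe_pos]; exact hδ0
  have hc0pos : 0 < c0 := by positivity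
  have hc0V : c0 * V ≤ δ := by
    rw [hc0, div_mul_eq_mul_div, div_le_iff₀ (by positivity)]
    gcongr
    exact le_self_add
  -- the weight
  set w : Eu n → ℝ≥0∞ := fun x => if x ∈ B then ρ x + c0 else ∞ with hw
  have hwm : Measurable w := Measurable.ite hBm (hρ.1.add_const _) measurable_const
  have hwρ : ∀ x, ρ x ≤ w x := by
    intro x
    simp only [hw]
    split_ifs
    · exact le_self_add
    · exact le_top
  have hwc : ∀ x, (c0 : ℝ≥0∞) ≤ w x := by
    intro x
    simp only [hw]
    split_ifs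
    · exact le_add_self
    · exact le_top
  have hwout : ∀ x, x ∉ closedBall (0 : Eu n) R0 → w x = ∞ := by
    intro x hx
    simp only [hw]
    rw [if_neg hx]
  have hwn : nrm (B.indicator w) ≤ nrm ρ + δ := by
    calc nrm (B.indicator w) ≤ nrm (fun x => ρ x + B.indicator (fun _ => (c0 : ℝ≥0∞)) x) := by
          refine Nrm.nrm_mono fun x => ?_
          by_cases hx : x ∈ B
          · rw [indicator_of_mem hx, indicator_of_mem hx]
            simp only [hw]
            rw [if_pos hx]
          · rw [indicator_of_notMem hx]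
            exact zero_le
      _ ≤ nrm ρ + nrm (B.indicator (fun _ => (c0 : ℝ≥0∞))) :=
          Nrm.nrm_add_le hn1 hρ.1 (measurable_const.indicator hBm)
      _ ≤ nrm ρ + δ := by
          gcongr
          rw [Nrm.nrm_indicator_const hn1 _ hBm, ← hV]
          exact_mod_cast hc0V
  have hwfin : ∫⁻ x in closedBall 0 R0, w x ^ n ≠ ∞ := by
    have h1 : nrm (B.indicator w) ≠ ∞ := by
      refine ne_top_of_le_ne_top ?_ hwn
      rw [← ha']
      finiteness
    have h2 : ∫⁻ x in closedBall 0 R0, w x ^ n = ∫⁻ x, (B.indicator w x) ^ n := by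
      rw [← lintegral_indicator hBm]
      congr 1
      ext x
      by_cases hx : x ∈ B
      · rw [indicator_of_mem hx, indicator_of_mem hx]
      · rw [indicator_of_notMem hx, indicator_of_notMem hx, zero_pow (by omega)]
    rw [h2]
    intro h3
    apply h1
    unfold nrm
    rw [h3, ENNReal.top_rpow_of_pos (by positivity)]
  -- distance of the continua
  have hdd : ∀ x ∈ F₁, ∀ y ∈ F₂, 1 ≤ dd E w x y := by
    intro x hx y hy
    refine le_iInf fun T => le_iInf fun σ => le_iInf fun h => ?_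
    obtain ⟨hG, h0, hT⟩ := h
    obtain ⟨γ, hγr, hγs, hγf, hγt, hγl⟩ := specCurveB n T σ hG.1 hG.2.1
    have h1 : 1 ≤ γ.lineIntegral ρ := by
      refine hρ.2 γ ⟨⟨?_, ?_⟩, ?_⟩ hγr
      · rw [hγs, h0]; exact hx
      · rw [hγf, hT]; exact hy
      · show (γ.trace ∩ E).Countable
        rw [hγt]; exact hG.2.2
    refine (h1.trans (hγl ρ hρ.1)).trans ?_
    exact lintegral_mono fun t => hwρ _
  -- the potential
  set c : ℝ≥0 := 1 - δ with hc
  have hδ1 : δ < 1 := by
    rw [← NNReal.coe_lt_coe]; show δr < 1; linarith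
  have hcr : (c : ℝ) = 1 - δr := by
    rw [hc, NNReal.coe_sub hδ1.le]; rfl
  have hcpos : 0 < c := tsub_pos_of_lt hδ1
  have hc1 : c < 1 := by
    rw [← NNReal.coe_lt_coe, hcr]; push_cast; linarith
  obtain ⟨v, u, hvm, hvn, hu, huI, hu1, hu2, hup⟩ := specU specMetric specComplete
    (specBlock specMetric specComplete specNet) specDich n hn1 E R0 w c0 c δ F₁ F₂ hE hvol hwm
    hc0pos hwc hwout hwfin hδpos hF₁c hF₂c hcpos hc1 hdd
  -- the distance
  obtain ⟨δ0, hδ0pos, hδ0d⟩ := hdis.exists_cthickenings hF₁c hF₂c.isClosed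
  have hδdist : ∀ x ∈ F₁, ∀ y ∈ F₂, δ0 ≤ dist x y := by
    intro x hx y hy
    by_contra h
    rw [not_le] at h
    refine Set.disjoint_left.1 hδ0d (self_subset_cthickening _ hx) ?_
    exact mem_cthickening_of_dist_le x y δ0 F₂ hy h.le
  -- the layer set
  have hEc : IsCompact (E ∩ B) := (isCompact_closedBall (0 : Eu n) R0).inter_left hE
  have hEv : volume (E ∩ B) = 0 := measure_mono_null inter_subset_left hvol
  obtain ⟨K, g, hKE, hKc, hKtd, hgm, hgn, hlay⟩ := specLayer specLvl n hn1 (E ∩ B) u c δr δ0 δ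
    hEc hEv hu (by exact_mod_cast hcpos) huI hδ0 hδ0pos hδpos
  refine ⟨K, hKE.trans inter_subset_left, hEc.of_isClosed_subset hKc hKE, hKtd,
    fun hCK => ?_⟩
  have heq := hCK F₁ F₂ hF₁c hF₁ hF₂c hF₂ hdis
  -- the admissible function
  have hden : 0 < 1 - 2 * δr := by linarith
  set κ : ℝ≥0 := (Real.toNNReal (1 - 2 * δr))⁻¹ with hκ
  have hκ0 : 0 < Real.toNNReal (1 - 2 * δr) := Real.toNNReal_pos.2 hden
  set ρ' : Eu n → ℝ≥0∞ := fun x => κ * (B.indicator v x + (g0 x + g x)) with hρ'
  have hBv : Measurable (B.indicator v) := hvm.indicator hBm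
  have hρ'm : Measurable ρ' := (hBv.add (hg0m.add hgm)).const_mul _
  have hκmul : (κ : ℝ≥0∞) * ENNReal.ofReal (1 - 2 * δr) = 1 := by
    rw [ENNReal.ofReal, ← ENNReal.coe_mul, hκ, inv_mul_cancel₀ hκ0.ne', ENNReal.coe_one]
  have hadm : Admissible (joining F₁ F₂ ∩ Fsigma K) ρ' := by
    refine ⟨hρ'm, fun γ hγ hγr => ?_⟩
    obtain ⟨T, σ, hT, hσ, hσ0, hσT, htr, -, hli⟩ := specCurveA n γ hγr
    rw [hli ρ' hρ'm]
    have hx : σ 0 ∈ F₁ := by rw [hσ0]; exact hγ.1.1
    have hy : σ T ∈ F₂ := by rw [hσT]; exact hγ.1.2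
    have hcount : (σ '' Icc 0 T ∩ K).Countable := by
      rw [htr]; exact hγ.2
    have hcost : cost ρ' T σ = κ * cost (fun x => B.indicator v x + (g0 x + g x)) T σ := by
      unfold cost
      rw [← lintegral_const_mul _ (by
        exact (hBv.add (hg0m.add hgm)).comp hσ.continuous.measurable)]
    rw [hcost, ← hκmul]
    gcongr
    by_cases hleave : ∃ t ∈ Icc 0 T, σ t ∉ closedBall (0 : Eu n) R0
    · have h1 : 1 ≤ cost g0 T σ := by
        refine hg0 T σ hσ ?_ hleave
        exact closedBall_subset_closedBall (le_max_left _ _) (hR hx)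
      calc ENNReal.ofReal (1 - 2 * δr) ≤ 1 := by
            rw [← ENNReal.ofReal_one]
            exact ENNReal.ofReal_le_ofReal (by linarith)
        _ ≤ cost g0 T σ := h1
        _ ≤ _ := by
            refine lintegral_mono fun t => ?_
            exact le_self_add.trans le_add_self
    · push Not at hleave
      have hTδ : δ0 ≤ T := by
        refine (hδdist _ hx _ hy).trans ?_
        have := hσ.dist_le_mul 0 T
        simpa [Real.dist_eq, abs_of_nonneg hT] using this
      have h1 := hlay v T σ hvm hTδ hσ hcount (hu1 _ hx) (hu2 _ hy) (by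
        intro a b ha hab hbT hoff
        have hG : Good E (b - a) (fun t => σ (a + t)) := by
          refine ⟨by linarith, ?_, ?_⟩
          · intro s t
            have := hσ (a + s) (a + t)
            simpa using this
          · have : (fun t => σ (a + t)) '' Icc 0 (b - a) ∩ E = ∅ := by
              rw [Set.eq_empty_iff_forall_notMem]
              rintro z ⟨⟨t, ht, rfl⟩, hz⟩
              refine hoff (a + t) ⟨by linarith [ht.1], by linarith [ht.2]⟩ ⟨hz, ?_⟩
              exact hleave (a + t) ⟨by linarith [ht.1], by linarith [ht.2]⟩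
            rw [this]
            exact countable_empty
        have h2 := hup (b - a) (fun t => σ (a + t)) hG
        simp only [add_zero, add_sub_cancel] at h2
        refine h2.trans (le_of_eq ?_)
        unfold cost
        have h3 := (measurePreserving_add_left (volume : Measure ℝ) a).setLIntegral_comp_preimage_emb
          (MeasurableEquiv.addLeft a).measurableEmbedding (fun t => v (σ t)) (Icc a b)
        rw [← h3]
        congr 2
        ext t
        simp only [mem_preimage, mem_Icc]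
        constructor
        · rintro ⟨h4, h5⟩; exact ⟨by linarith, by linarith⟩
        · rintro ⟨h4, h5⟩; exact ⟨by linarith, by linarith⟩)
      calc ENNReal.ofReal (1 - 2 * δr) = ENNReal.ofReal (c - δr) := by
            rw [hcr]; congr 1; ring
        _ ≤ cost (fun x => v x + g x) T σ := h1
        _ ≤ _ := by
            refine setLIntegral_mono_ae' measurableSet_Icc (Eventually.of_forall fun t ht => ?_)
            have : B.indicator v (σ t) = v (σ t) := indicator_of_mem (hleave t ht) _
            show v (σ t) + g (σ t) ≤ B.indicator v (σ t) + (g0 (σ t) + g (σ t))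
            rw [this]
            gcongr
            exact le_add_self
  -- the energy
  have hnorm : nrm ρ' ≤ b' := by
    calc nrm ρ' = κ * nrm (fun x => B.indicator v x + (g0 x + g x)) :=
          Nrm.nrm_const_mul hn1 _ (hBv.add (hg0m.add hgm))
      _ ≤ κ * (nrm (B.indicator v) + (nrm g0 + nrm g)) := by
          gcongr
          refine (Nrm.nrm_add_le hn1 hBv (hg0m.add hgm)).trans ?_
          gcongr
          exact Nrm.nrm_add_le hn1 hg0m hgm
      _ ≤ κ * (((a' : ℝ≥0∞) + δ + δ) + (δ + δ)) := by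
          gcongr
          refine hvn.trans ?_
          gcongr
          rw [ha']
          exact hwn
      _ ≤ b' := by
          have h1 : κ * ((a' + δ + δ) + (δ + δ)) ≤ b' := by
            rw [hκ, inv_mul_le_iff₀ hκ0, ← NNReal.coe_le_coe]
            push_cast
            rw [Real.coe_toNNReal _ hden.le]
            have : ((δ : ℝ≥0) : ℝ) = δr := rfl
            rw [this]
            linarith
          exact_mod_cast h1
  have hlt2 : ∫⁻ x, ρ' x ^ n < modulus (joining F₁ F₂) := by
    have h1 : (∫⁻ x, ρ' x ^ n) ^ ((n : ℝ)⁻¹) < (modulus (joining F₁ F₂)) ^ ((n : ℝ)⁻¹) :=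
      lt_of_le_of_lt hnorm hb'
    exact (ENNReal.rpow_lt_rpow_iff (by positivity)).1 h1
  have h2 := modulus_le hadm
  rw [← heq] at h2
  exact absurd (lt_of_le_of_lt h2 hlt2) (lt_irrefl _)

/-- **Main theorem.** For `n ≥ 2` every closed set `E ⊆ ℝⁿ` that is not CNED contains a compact
totally disconnected subset that is not CNED. -/
theorem main : ∀ n : ℕ, 2 ≤ n → ∀ E : Set (Eu n), IsClosed E → ¬ CNED E →
    ∃ K ⊆ E, IsCompact K ∧ IsTotallyDisconnected K ∧ ¬ CNED K := by
  intro n hn E hE hnot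
  by_cases hvol : volume E = 0
  · exact null_case hn hE hvol hnot
  · exact positive_case hn hE hvol

end MPd4663a
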