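import Pool.Agent.Lib.MP_d4663a_an.Spec

/-!
# MP_d4663a_an: POSMOD

At a density point of a compact set `K` the modulus of the curves joining opposite faces of small
cubes and meeting `K` in a countable set is less than one.
-/

namespace MPd4663a

open MeasureTheory Set Filter Metric
open scoped ENNReal NNReal Topology

namespace PosMod

variable {n : ℕ}

lemma cube_subset_closedBall (x : Eu n) {h : ℝ} (hh : 0 ≤ h) :
    cube x h ⊆ closedBall x (Real.sqrt n * (h / 2)) := by
  intro y hy
  rw [mem_closedBall, EuclideanSpace.dist_eq]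
  have h1 : ∑ i, dist (y i) (x i) ^ 2 ≤ ∑ _i : Fin n, (h / 2) ^ 2 := by
    refine Finset.sum_le_sum fun i _ => ?_
    have := hy i
    rw [Real.dist_eq]
    exact pow_le_pow_left₀ (abs_nonneg _) this 2
  have h2 : ∑ _i : Fin n, (h / 2) ^ 2 = (n : ℝ) * (h / 2) ^ 2 := by simp
  calc Real.sqrt (∑ i, dist (y i) (x i) ^ 2) ≤ Real.sqrt ((n : ℝ) * (h / 2) ^ 2) :=
        Real.sqrt_le_sqrt (h1.trans h2.le)
    _ = Real.sqrt n * (h / 2) := by
        rw [Real.sqrt_mul (Nat.cast_nonneg n), Real.sqrt_sq (by positivity)]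

lemma measurableSet_cube (x : Eu n) (h : ℝ) : MeasurableSet (cube x h) := by
  have : cube x h = ⋂ i : Fin n, {y : Eu n | |y i - x i| ≤ h / 2} := by
    ext y; simp [cube]
  rw [this]
  refine MeasurableSet.iInter fun i => ?_
  refine (isClosed_le ?_ continuous_const).measurableSet
  exact ((EuclideanSpace.proj (𝕜 := ℝ) i).continuous.sub continuous_const).abs

/-- The coordinates are 1-Lipschitz. -/
lemma abs_coord_le (x y : Eu n) (i : Fin n) : |x i - y i| ≤ dist x y := by
  rw [dist_eq_norm]
  have := PiLp.norm_apply_le (x - y) i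
  simpa [Real.norm_eq_abs] using this

end PosMod

open PosMod in
theorem specPosMod (hA : SpecCurveA) : SpecPosMod := by
  intro n hn K hK hK0
  -- the density point
  have hdens := Besicovitch.ae_tendsto_measure_inter_div (volume : Measure (Eu n)) K
  have hne : (ae ((volume : Measure (Eu n)).restrict K)).NeBot := by
    rw [ae_neBot]
    intro h0
    exact hK0 (by simpa using Measure.restrict_eq_zero.mp h0)
  obtain ⟨x, hx⟩ := hdens.exists
  set V : ℝ≥0∞ := volume (closedBall (0 : Eu n) 1) with hV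
  have hVtop : V ≠ ∞ := (isCompact_closedBall _ _).measure_lt_top.ne
  set κ : ℝ := Real.sqrt n * (3 / 2) with hκ
  have hκpos : 0 < κ := by
    have : (0 : ℝ) < n := by exact_mod_cast hn
    positivity
  obtain ⟨η, hη0, hη⟩ : ∃ η : ℝ≥0∞, 0 < η ∧ η * (ENNReal.ofReal (κ ^ n) * V) < 1 := by
    have hfin : ENNReal.ofReal (κ ^ n) * V ≠ ∞ := ENNReal.mul_ne_top ENNReal.ofReal_ne_top hVtop
    refine ⟨(ENNReal.ofReal (κ ^ n) * V + 1)⁻¹, ?_, ?_⟩
    · rw [ENNReal.inv_pos]; simp [hfin]
    · rw [mul_comm, ← div_eq_mul_inv]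
      refine ENNReal.div_lt_of_lt_mul ?_
      rw [one_mul]
      exact ENNReal.lt_add_right hfin one_ne_zero
  have hev : ∀ᶠ r in 𝓝[>] (0 : ℝ), 1 - η < volume (K ∩ closedBall x r) / volume (closedBall x r) := by
    refine hx.eventually (lt_mem_nhds ?_)
    exact ENNReal.sub_lt_self ENNReal.one_ne_top one_ne_zero hη0.ne'
  obtain ⟨r, hr, hr0⟩ := (hev.and self_mem_nhdsWithin).exists
  have hr0 : 0 < r := hr0
  set h : ℝ := r / κ with hh
  have hh0 : 0 < h := div_pos hr0 hκpos
  have hrκ : r = κ * h := by rw [hh]; field_simp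
  refine ⟨x, h, hh0, fun i => ?_⟩
  -- the small complement
  have hball : volume (closedBall x r \ K) ≤ η * volume (closedBall x r) := by
    have ha0 : volume (closedBall x r) ≠ 0 := (measure_closedBall_pos _ _ hr0).ne'
    have hat : volume (closedBall x r) ≠ ∞ := (isCompact_closedBall _ _).measure_lt_top.ne
    have hb : (1 - η) * volume (closedBall x r) ≤ volume (K ∩ closedBall x r) := by
      rw [← ENNReal.le_div_iff_mul_le (Or.inl ha0) (Or.inl hat)]
      exact hr.le
    have h1 : volume (closedBall x r \ K) =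
        volume (closedBall x r) - volume (K ∩ closedBall x r) := by
      rw [← sdiff_inter_self_eq_sdiff,
        measure_sdiff inter_subset_right (hK.measurableSet.inter
          measurableSet_closedBall).nullMeasurableSet
          ((measure_mono inter_subset_right).trans_lt (lt_top_iff_ne_top.mpr hat)).ne]
    rw [h1, tsub_le_iff_left]
    calc volume (closedBall x r) = 1 * volume (closedBall x r) := (one_mul _).symm
      _ ≤ ((1 - η) + η) * volume (closedBall x r) := by gcongr; exact le_tsub_add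
      _ = (1 - η) * volume (closedBall x r) + η * volume (closedBall x r) := add_mul _ _ _
      _ ≤ _ := by gcongr
  have hcube : volume (cube x (3 * h) \ K) ≤ η * (ENNReal.ofReal (κ ^ n) * V)
      * ENNReal.ofReal (h ^ n) := by
    have hsub : cube x (3 * h) ⊆ closedBall x r := by
      have := cube_subset_closedBall x (h := 3 * h) (by positivity)
      have he : Real.sqrt n * (3 * h / 2) = r := by rw [hrκ, hκ]; ring
      rwa [he] at this
    refine (measure_mono (sdiff_subset_sdiff_left hsub)).trans (hball.trans ?_)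
    rw [Measure.addHaar_closedBall' volume x hr0.le, finrank_euclideanSpace, Fintype.card_fin, hrκ,
      mul_pow, ENNReal.ofReal_mul (by positivity)]
    rw [← hV]
    apply le_of_eq
    ring
  -- the density
  set S : Set (Eu n) := cube x (3 * h) \ K with hS
  have hSm : MeasurableSet S := (measurableSet_cube _ _).diff hK.measurableSet
  set ρ : Eu n → ℝ≥0∞ := S.indicator (fun _ => ENNReal.ofReal h⁻¹) with hρ
  have hρm : Measurable ρ := measurable_const.indicator hSm
  have hadm : Admissible (joining (face x h i (-1)) (face x h i 1) ∩ Fsigma K) ρ := by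
    refine ⟨hρm, ?_⟩
    rintro γ ⟨⟨hst, hfi⟩, hσK⟩ hrec
    obtain ⟨T, σ, hT, hlip, hσ0, hσT, htr, hnull, hint⟩ := hA n γ hrec
    rw [hint ρ hρm]
    rw [← hσ0] at hst
    rw [← hσT] at hfi
    have hTh : h ≤ T := by
      have h1 := abs_coord_le (σ T) (σ 0) i
      have h2 : dist (σ T) (σ 0) ≤ T := by
        have := hlip.dist_le_mul T 0
        simpa [Real.dist_eq, abs_of_nonneg hT] using this
      have h3 : σ T i - σ 0 i = h := by
        rw [hst.2, hfi.2]; ring
      rw [h3, abs_of_pos hh0] at h1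
      exact h1.trans h2
    have hcount : (σ '' Icc 0 T ∩ K).Countable := by rw [htr]; exact hσK
    have hKnull : volume {t | t ∈ Icc 0 T ∧ σ t ∈ K} = 0 := by
      have : {t | t ∈ Icc 0 T ∧ σ t ∈ K} ⊆
          ⋃ z ∈ σ '' Icc 0 T ∩ K, {t | t ∈ Icc 0 T ∧ σ t = z} := by
        rintro t ⟨ht, htK⟩
        simp only [mem_iUnion]
        exact ⟨σ t, ⟨mem_image_of_mem _ ht, htK⟩, ht, rfl⟩
      refine measure_mono_null this ?_
      rw [measure_biUnion_null_iff hcount]
      intro z _
      exact hnull z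
    have hval : ∀ᵐ t ∂(volume.restrict (Icc 0 h)), ρ (σ t) = ENNReal.ofReal h⁻¹ := by
      rw [ae_restrict_iff' measurableSet_Icc]
      have : ∀ᵐ t ∂(volume : Measure ℝ), t ∉ {t | t ∈ Icc 0 T ∧ σ t ∈ K} :=
        measure_eq_zero_iff_ae_notMem.mp hKnull
      filter_upwards [this] with t ht htI
      have htT : t ∈ Icc 0 T := ⟨htI.1, htI.2.trans hTh⟩
      have hmem : σ t ∈ S := by
        refine ⟨fun j => ?_, fun hKt => ht ⟨htT, hKt⟩⟩
        have h1 := abs_coord_le (σ t) (σ 0) j
        have h2 : dist (σ t) (σ 0) ≤ h := by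
          have := hlip.dist_le_mul t 0
          rw [Real.dist_eq, sub_zero, abs_of_nonneg htI.1] at this
          simpa using this.trans (by simpa using htI.2)
        have h3 := hst.1 j
        have h4 : |σ t j - x j| ≤ |σ t j - σ 0 j| + |σ 0 j - x j| := abs_sub_le _ _ _
        linarith
      rw [hρ, indicator_of_mem hmem]
    unfold cost
    calc (1 : ℝ≥0∞) = ENNReal.ofReal h⁻¹ * ENNReal.ofReal h := by
          rw [← ENNReal.ofReal_mul (by positivity), inv_mul_cancel₀ hh0.ne', ENNReal.ofReal_one]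
      _ = ∫⁻ t in Icc 0 h, ENNReal.ofReal h⁻¹ := by
          rw [setLIntegral_const, Real.volume_Icc, sub_zero]
      _ = ∫⁻ t in Icc 0 h, ρ (σ t) := by
          refine lintegral_congr_ae ?_
          filter_upwards [hval] with t ht using ht.symm
      _ ≤ ∫⁻ t in Icc 0 T, ρ (σ t) := lintegral_mono_set (Icc_subset_Icc_right hTh)
  refine lt_of_le_of_lt (iInf₂_le ρ hadm) ?_
  have hn0 : n ≠ 0 := by omega
  have hpow : (fun y => ρ y ^ n) = S.indicator (fun _ => ENNReal.ofReal h⁻¹ ^ n) := by
    ext y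
    by_cases hy : y ∈ S
    · simp [hρ, hy]
    · simp [hρ, hy, hn0]
  rw [hpow, lintegral_indicator hSm, setLIntegral_const]
  calc ENNReal.ofReal h⁻¹ ^ n * volume S
      ≤ ENNReal.ofReal h⁻¹ ^ n * (η * (ENNReal.ofReal (κ ^ n) * V) * ENNReal.ofReal (h ^ n)) := by
        gcongr
    _ = η * (ENNReal.ofReal (κ ^ n) * V) * (ENNReal.ofReal h⁻¹ ^ n * ENNReal.ofReal (h ^ n)) := by
        ring
    _ = η * (ENNReal.ofReal (κ ^ n) * V) := by
        rw [← ENNReal.ofReal_pow (by positivity), ← ENNReal.ofReal_mul (by positivity), ← mul_pow,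
          inv_mul_cancel₀ hh0.ne', one_pow, ENNReal.ofReal_one, mul_one]
    _ < 1 := hη

end MPd4663a
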