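import Pool.Agent.Lib.MP_d4663a_an.Defs

/-!
# MP_d4663a_an: work packages (exact statements)

Proof text: /team-store/MP_d4663a_PROOF.md
-/

namespace MPd4663a

open MeasureTheory Set Filter Metric
open scoped ENNReal NNReal Topology

/-- 1-Lipschitz path of duration `T` whose trace meets `E` in a countable set. -/
def Good {n : ℕ} (E : Set (Eu n)) (T : ℝ) (σ : ℝ → Eu n) : Prop :=
  0 ≤ T ∧ LipschitzWith 1 σ ∧ (σ '' Icc 0 T ∩ E).Countable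

/-- cost of a path with respect to the weight `w`. -/
noncomputable def cost {n : ℕ} (w : Eu n → ℝ≥0∞) (T : ℝ) (σ : ℝ → Eu n) : ℝ≥0∞ :=
  ∫⁻ t in Icc 0 T, w (σ t)

/-- the extended distance: infimum of the costs of good paths. -/
noncomputable def dd {n : ℕ} (E : Set (Eu n)) (w : Eu n → ℝ≥0∞) (x y : Eu n) : ℝ≥0∞ :=
  ⨅ (T : ℝ) (σ : ℝ → Eu n) (_ : Good E T σ ∧ σ 0 = x ∧ σ T = y), cost w T σ

/-- the `Lⁿ` norm. -/
noncomputable def nrm {n : ℕ} (f : Eu n → ℝ≥0∞) : ℝ≥0∞ := (∫⁻ x, f x ^ n) ^ ((n : ℝ)⁻¹)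

/-! ### CURVEA, CURVEB: arc length -/

/-- CURVEA: a rectifiable curve has a 1-Lipschitz arc-length parametrization. -/
def SpecCurveA : Prop :=
  ∀ (n : ℕ) (γ : Curve n), γ.Rectifiable → ∃ (T : ℝ) (σ : ℝ → Eu n),
    0 ≤ T ∧ LipschitzWith 1 σ ∧ σ 0 = γ.start ∧ σ T = γ.finish ∧ σ '' Icc 0 T = γ.trace ∧
    (∀ z, volume {t | t ∈ Icc 0 T ∧ σ t = z} = 0) ∧
    ∀ ρ : Eu n → ℝ≥0∞, Measurable ρ → γ.lineIntegral ρ = cost ρ T σ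

/-- CURVEB: a 1-Lipschitz path is a rectifiable curve with line integrals at most the costs. -/
def SpecCurveB : Prop :=
  ∀ (n : ℕ) (T : ℝ) (σ : ℝ → Eu n), 0 ≤ T → LipschitzWith 1 σ → ∃ γ : Curve n,
    γ.Rectifiable ∧ γ.start = σ 0 ∧ γ.finish = σ T ∧ γ.trace = σ '' Icc 0 T ∧
    ∀ ρ : Eu n → ℝ≥0∞, Measurable ρ → γ.lineIntegral ρ ≤ cost ρ T σ

/-! ### METRIC, COMPLETE: `dd` is a complete extended metric -/

/-- METRIC. -/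
def SpecMetric : Prop :=
  ∀ (n : ℕ) (E : Set (Eu n)) (w : Eu n → ℝ≥0∞), Measurable w →
    (∀ x, dd E w x x = 0) ∧ (∀ x y, dd E w x y = dd E w y x) ∧
    (∀ x y z, dd E w x z ≤ dd E w x y + dd E w y z) ∧
    (∀ c0 : ℝ≥0, (∀ x, (c0 : ℝ≥0∞) ≤ w x) → ∀ x y, c0 * edist x y ≤ dd E w x y)

/-- COMPLETE. -/
def SpecComplete : Prop :=
  ∀ (n : ℕ) (E : Set (Eu n)) (w : Eu n → ℝ≥0∞) (c0 : ℝ≥0), Measurable w → 0 < c0 →
    (∀ x, (c0 : ℝ≥0∞) ≤ w x) → ∀ x : ℕ → Eu n,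
    (∀ k, dd E w (x k) (x (k + 1)) < (1 / 2) ^ k) →
    ∃ z, Tendsto (fun k => dd E w (x k) z) atTop (𝓝 0)

/-! ### NET -/

/-- NET: up to a set of small measure the ball is covered by finitely many small `dd`-balls. -/
def SpecNet : Prop :=
  ∀ n : ℕ, 1 ≤ n → ∀ (E : Set (Eu n)) (R0 : ℝ) (w : Eu n → ℝ≥0∞), IsClosed E → volume E = 0 →
    Measurable w → ∫⁻ x in closedBall 0 R0, w x ^ n ≠ ∞ →
    ∀ ε δ : ℝ≥0∞, ε ≠ 0 → δ ≠ 0 → ∃ (A : Finset (Eu n)) (W : Set (Eu n)), MeasurableSet W ∧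
      volume W ≤ δ ∧ ∀ z ∈ closedBall (0 : Eu n) R0, z ∉ W → ∃ a ∈ A, dd E w z a < ε

/-! ### BLOCK -/

/-- BLOCK: the improved weight `v`, for which cheap paths have end points in the `dd`-compact
set `Y i` or displacement at most `cost / Λ i`. -/
def SpecBlock : Prop :=
  ∀ n : ℕ, 1 ≤ n → ∀ (E : Set (Eu n)) (R0 : ℝ) (w : Eu n → ℝ≥0∞) (c0 c : ℝ≥0) (τ : ℝ≥0∞),
    IsClosed E → volume E = 0 → Measurable w → 0 < c0 → (∀ x, (c0 : ℝ≥0∞) ≤ w x) →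
    (∀ x, x ∉ closedBall (0 : Eu n) R0 → w x = ∞) →
    ∫⁻ x in closedBall 0 R0, w x ^ n ≠ ∞ → τ ≠ 0 →
    ∃ (v : Eu n → ℝ≥0∞) (Y : ℕ → Set (Eu n)) (Λ : ℕ → ℝ≥0), Measurable v ∧ (∀ x, w x ≤ v x) ∧
      nrm ((closedBall (0 : Eu n) R0).indicator v) ≤
        nrm ((closedBall (0 : Eu n) R0).indicator w) + τ ∧
      Monotone Y ∧ Tendsto Λ atTop atTop ∧
      (∀ i, ∀ x : ℕ → Eu n, (∀ m, x m ∈ Y i) → ∃ z ∈ Y i, ∃ φ : ℕ → ℕ, StrictMono φ ∧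
        Tendsto (fun m => dd E w (x (φ m)) z) atTop (𝓝 0)) ∧
      ∀ (T : ℝ) (σ : ℝ → Eu n), Good E T σ → cost v T σ ≤ c →
        ∀ i, (σ 0 ∈ Y i ∧ σ T ∈ Y i) ∨ Λ i * edist (σ 0) (σ T) ≤ cost v T σ

/-! ### DICH: the dichotomy (abstract) -/

/-- Reachability from `F₁` with steps `R` and `ω`-charged jumps. -/
inductive Reach {X Z : Type} [PseudoMetricSpace Z] (ι : X → Z) (F₁ : Set X)
    (R : X → X → ℝ≥0 → Prop) (ω : ℝ → ℝ) : X → ℝ → Prop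
  | base (x : X) (hx : x ∈ F₁) : Reach ι F₁ R ω x 0
  | step (x y : X) (t : ℝ) (m : ℝ≥0) (h : Reach ι F₁ R ω x t) (hR : R x y m) :
      Reach ι F₁ R ω y (t + m)
  | jump (x y : X) (t : ℝ) (h : Reach ι F₁ R ω x t) :
      Reach ι F₁ R ω y (t + ω (dist (ι x) (ι y)))

/-- DICH. -/
def SpecDich : Prop :=
  ∀ (X Z : Type) [PseudoEMetricSpace X] [CompleteSpace X] [MetricSpace Z] (ι : X → Z)
    (C : ℝ≥0), Function.Injective ι → LipschitzWith C ι →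
    ∀ (Y : ℕ → Set X), (∀ i, IsCompact (Y i)) → Monotone Y →
    ∀ (Λ : ℕ → ℝ≥0), Tendsto Λ atTop atTop →
    ∀ (F₁ F₂ : Set X), IsCompact (ι '' F₁) → IsCompact (ι '' F₂) →
    ∀ c c' : ℝ≥0, 0 < c → c < c' → (∀ x ∈ F₁, ∀ y ∈ F₂, (c' : ℝ≥0∞) ≤ edist x y) →
    ∀ R : X → X → ℝ≥0 → Prop, (∀ x, R x x 0) →
      (∀ x y m, R x y m → edist x y ≤ m) →
      (∀ x y m, R x y m → m ≤ c →
        ∀ i, (x ∈ Y i ∧ y ∈ Y i) ∨ Λ i * dist (ι x) (ι y) ≤ m) →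
    ∃ ω : ℝ → ℝ, ω 0 = 0 ∧ (∀ r, 0 ≤ ω r) ∧ Monotone ω ∧ Tendsto ω (𝓝 0) (𝓝 0) ∧
      (∀ r s, 0 ≤ r → 0 ≤ s → ω (r + s) ≤ ω r + ω s) ∧
      ∀ x ∈ F₂, ∀ t, Reach ι F₁ R ω x t → c ≤ t

/-! ### UFUN: the continuous potential -/

/-- UFUN (from METRIC, COMPLETE, NET, BLOCK, DICH). -/
def SpecU : Prop :=
  ∀ n : ℕ, 1 ≤ n → ∀ (E : Set (Eu n)) (R0 : ℝ) (w : Eu n → ℝ≥0∞) (c0 c : ℝ≥0) (τ : ℝ≥0∞)
    (F₁ F₂ : Set (Eu n)),
    IsClosed E → volume E = 0 → Measurable w → 0 < c0 → (∀ x, (c0 : ℝ≥0∞) ≤ w x) →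
    (∀ x, x ∉ closedBall (0 : Eu n) R0 → w x = ∞) →
    ∫⁻ x in closedBall 0 R0, w x ^ n ≠ ∞ → τ ≠ 0 → IsCompact F₁ → IsCompact F₂ →
    0 < c → c < 1 → (∀ x ∈ F₁, ∀ y ∈ F₂, 1 ≤ dd E w x y) →
    ∃ (v : Eu n → ℝ≥0∞) (u : Eu n → ℝ), Measurable v ∧
      nrm ((closedBall (0 : Eu n) R0).indicator v) ≤
        nrm ((closedBall (0 : Eu n) R0).indicator w) + τ ∧
      Continuous u ∧ (∀ x, u x ∈ Icc 0 (c : ℝ)) ∧ (∀ x ∈ F₁, u x = 0) ∧ (∀ x ∈ F₂, u x = c) ∧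
      ∀ (T : ℝ) (σ : ℝ → Eu n), Good E T σ →
        ENNReal.ofReal |u (σ 0) - u (σ T)| ≤ cost v T σ

/-! ### LAYER -/

/-- LVL: levels attained off a closed set. -/
def SpecLvl : Prop :=
  ∀ (f : ℝ → ℝ) (h : ℝ → ℝ≥0∞) (O : Set ℝ), Continuous f → Measurable h → IsOpen O →
    (∀ a b, a ≤ b → Icc a b ⊆ O → ENNReal.ofReal |f a - f b| ≤ ∫⁻ t in Icc a b, h t) →
    volume (f '' O) ≤ ∫⁻ t in O, h t

/-- LAYERK: the totally disconnected set `K`, the gates. Here `J m l` and `G m l` are the open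
level intervals and the open gates; `N m ≥ N0 m` where `N0` is an arbitrary prescribed function. -/
def SpecLayer : Prop :=
  ∀ n : ℕ, 1 ≤ n → ∀ (E : Set (Eu n)) (u : Eu n → ℝ) (c ε δ0 : ℝ) (τ : ℝ≥0∞),
    IsCompact E → volume E = 0 → Continuous u → 0 < c → (∀ x, u x ∈ Icc 0 c) → 0 < ε →
    0 < δ0 → τ ≠ 0 →
    ∃ (K : Set (Eu n)) (g : Eu n → ℝ≥0∞), K ⊆ E ∧ IsClosed K ∧ IsTotallyDisconnected K ∧
      Measurable g ∧ nrm g ≤ τ ∧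
      ∀ (v : Eu n → ℝ≥0∞) (T : ℝ) (σ : ℝ → Eu n), Measurable v → δ0 ≤ T → LipschitzWith 1 σ →
        (σ '' Icc 0 T ∩ K).Countable → u (σ 0) = 0 → u (σ T) = c →
        (∀ a b, 0 ≤ a → a ≤ b → b ≤ T → (∀ t ∈ Icc a b, σ t ∉ E) →
          ENNReal.ofReal |u (σ a) - u (σ b)| ≤ ∫⁻ t in Icc a b, v (σ t)) →
        ENNReal.ofReal (c - ε) ≤ cost (fun x => v x + g x) T σ

/-! ### ESC -/

/-- ESC: leaving a huge ball costs at least one, with small energy. -/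
def SpecEsc : Prop :=
  ∀ n : ℕ, 2 ≤ n → ∀ (R1 : ℝ) (ε : ℝ≥0∞), 0 < R1 → ε ≠ 0 →
    ∃ (R0 : ℝ) (g : Eu n → ℝ≥0∞), R1 < R0 ∧ Measurable g ∧ nrm g ≤ ε ∧
      ∀ (T : ℝ) (σ : ℝ → Eu n), LipschitzWith 1 σ → σ 0 ∈ closedBall (0 : Eu n) R1 →
        (∃ t ∈ Icc 0 T, σ t ∉ closedBall (0 : Eu n) R0) → 1 ≤ cost g T σ

/-! ### POS: closed sets of positive measure -/

/-- POSK: a closed set of positive measure contains a compact totally disconnected set of positive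
measure. -/
def SpecPosK : Prop :=
  ∀ n : ℕ, 1 ≤ n → ∀ E : Set (Eu n), IsClosed E → volume E ≠ 0 →
    ∃ K ⊆ E, IsCompact K ∧ IsTotallyDisconnected K ∧ volume K ≠ 0

/-- The closed cube with centre `x` and side `h`. -/
def cube {n : ℕ} (x : Eu n) (h : ℝ) : Set (Eu n) := {y | ∀ i, |y i - x i| ≤ h / 2}

/-- The face of the cube in direction `0` on the side `s = ±1`. -/
def face {n : ℕ} (x : Eu n) (h : ℝ) (i : Fin n) (s : ℝ) : Set (Eu n) :=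
  {y | y ∈ cube x h ∧ y i = x i + s * (h / 2)}

/-- MODLOW: the modulus of the curves joining opposite faces of a cube is at least one. -/
def SpecModLow : Prop :=
  ∀ n : ℕ, 1 ≤ n → ∀ (x : Eu n) (h : ℝ) (i : Fin n), 0 < h →
    1 ≤ modulus (joining (face x h i (-1)) (face x h i 1))

/-- POSMOD: the modulus drops at a density point. -/
def SpecPosMod : Prop :=
  ∀ n : ℕ, 1 ≤ n → ∀ K : Set (Eu n), IsCompact K → volume K ≠ 0 → ∃ (x : Eu n) (h : ℝ), 0 < h ∧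
    ∀ i : Fin n, modulus (joining (face x h i (-1)) (face x h i 1) ∩ Fsigma K) < 1

end MPd4663a
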